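import Pool.Agent.H39.HG.Slo
import Pool.Agent.H19.RD.Hole
/-!
# Common zeros of an irreducible polynomial and another one

Copy of `slo_bez` and `slope_fin` in `Pool/Agent/H39/HG/Slo.lean` (read it) for a general `g`: if `f` does not divide `g` then `g ≠ 0`,
`IsRelPrime f g` (`hf.dvd_or_isRelPrime`) and every finite set of common zeros has at most `k * d` elements
(`Pool.Agent.H19.RD.bez_pts`); so the set of common zeros is finite (otherwise it contains a finite subset with `k * d + 1` elements).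
-/

set_option autoImplicit false

namespace Pool.Agent.H39.HA

open Finset MvPolynomial Pool.Agent.H22.PS
open scoped Classical

private lemma Bez_card (k d : ℕ) (f g : MvPolynomial (Fin 2) ℝ) (hf : Irreducible f)
    (hk : f.totalDegree ≤ k) (hd : g.totalDegree ≤ d) (hfg : ¬ f ∣ g) (T : Finset (ℝ × ℝ))
    (hT : ∀ p ∈ T, eval ![p.1, p.2] f = 0 ∧ eval ![p.1, p.2] g = 0) : T.card ≤ k * d := by
  have h0 : g ≠ 0 := fun h => hfg (h ▸ dvd_zero f)
  have hrel : IsRelPrime f g := (hf.dvd_or_isRelPrime).resolve_left hfg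
  have hinj : Set.InjOn (fun p : ℝ × ℝ => (![p.1, p.2] : Fin 2 → ℝ)) T := by
    intro p _ q _ hpq
    have h3 : p.1 = q.1 := by simpa using congrFun hpq 0
    have h4 : p.2 = q.2 := by simpa using congrFun hpq 1
    exact Prod.ext h3 h4
  have h4 := Pool.Agent.H19.RD.bez_pts f g hf.ne_zero h0 hrel
    (T.image (fun p : ℝ × ℝ => (![p.1, p.2] : Fin 2 → ℝ))) (by
      intro t ht
      rw [Finset.mem_image] at ht
      obtain ⟨p, hp, rfl⟩ := ht
      exact hT p hp)
  rw [Finset.card_image_of_injOn hinj] at h4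
  exact h4.trans (Nat.mul_le_mul hk hd)

theorem bez (k d : ℕ) (f g : MvPolynomial (Fin 2) ℝ) (hf : Irreducible f)
    (hk : f.totalDegree ≤ k) (hd : g.totalDegree ≤ d) :
    f ∣ g ∨ ∃ T : Finset (ℝ × ℝ), T.card ≤ k * d ∧
      ∀ p ∈ Zs f, eval ![p.1, p.2] g = 0 → p ∈ T := by
  by_cases hfg : f ∣ g
  · exact Or.inl hfg
  right
  have hb := Bez_card k d f g hf hk hd hfg
  have hfin : {p : ℝ × ℝ | p ∈ Zs f ∧ eval ![p.1, p.2] g = 0}.Finite := by
    by_contra hinf
    obtain ⟨T, hT, hc⟩ := Set.Infinite.exists_subset_card_eq hinf (k * d + 1)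
    have h1 := hb T (fun p hp => hT hp)
    omega
  refine ⟨hfin.toFinset, hb _ ?_, ?_⟩
  · intro p hp
    rw [Set.Finite.mem_toFinset] at hp
    exact hp
  · intro p hp h1
    rw [Set.Finite.mem_toFinset]
    exact ⟨hp, h1⟩

end Pool.Agent.H39.HA
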