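import Pool.Agent.H22.PS.ArcDec
import Pool.Agent.H39.HA.Bez
import Pool.Agent.H39.HG.Cut
/-!
# Arcs on which given polynomials do not change sign

Copy of `arc_ref` in `Pool/Agent/H39/HG/Arc1.lean` (read it; finished proof there) with the `n` polynomials `G l` in place of
the two slopes: `Z` is the union of the abscissas of `crit k f` and, for every `l` with not `f ∣ G l`, of the set `T` of `bez k d f (G l)`;
`#Z ≤ k * k + n * (k * d) =: m`, `N = N0 * (m + 1)`. If `f ∣ G l` then `G l` vanishes on `Zs f`, so on the arcs.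
-/

set_option autoImplicit false

namespace Pool.Agent.H39.HA

open Finset MvPolynomial Pool.Agent.H22.PS
open scoped Classical

private theorem arcG_zer (k d : ℕ) (f g : MvPolynomial (Fin 2) ℝ) (hf : Irreducible f)
    (hk : f.totalDegree ≤ k) (hd : g.totalDegree ≤ d) :
    ∃ Z : Finset ℝ, Z.card ≤ k * d ∧
      (f ∣ g ∨ ∀ x y : ℝ, (x, y) ∈ Zs f → eval ![x, y] g = 0 → x ∈ Z) := by
  rcases bez k d f g hf hk hd with h | ⟨T, hT, h⟩
  · exact ⟨∅, by simp, Or.inl h⟩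
  · refine ⟨T.image Prod.fst, Finset.card_image_le.trans hT, Or.inr ?_⟩
    intro x y hxy h0
    exact Finset.mem_image.2 ⟨(x, y), h (x, y) hxy h0, rfl⟩

private theorem arcG_dvd (f g : MvPolynomial (Fin 2) ℝ) (h : f ∣ g) (x y : ℝ)
    (hxy : (x, y) ∈ Zs f) : eval ![x, y] g = 0 := by
  obtain ⟨c, rfl⟩ := h
  have h0 : eval ![x, y] f = 0 := hxy
  rw [map_mul, h0, zero_mul]

theorem arc_gen (k d n : ℕ) : ∃ N : ℕ, ∀ f : MvPolynomial (Fin 2) ℝ, Irreducible f →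
    f.totalDegree ≤ k → pderiv 1 f ≠ 0 →
    ∀ G : Fin n → MvPolynomial (Fin 2) ℝ, (∀ l, (G l).totalDegree ≤ d) →
    ∃ (a b : Fin N → ℝ) (φ : Fin N → ℝ → ℝ) (E : Finset (ℝ × ℝ)), E.card ≤ N ∧
      (∀ j, ContinuousOn (φ j) (Set.Ioo (a j) (b j))) ∧
      (∀ j, ∀ x ∈ Set.Ioo (a j) (b j), (x, φ j x) ∈ Zs f ∧
        eval ![x, φ j x] (pderiv 1 f) ≠ 0) ∧
      (∀ j l, (∀ x ∈ Set.Ioo (a j) (b j), eval ![x, φ j x] (G l) = 0) ∨
        ∀ x ∈ Set.Ioo (a j) (b j), eval ![x, φ j x] (G l) ≠ 0) ∧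
      (∀ p ∈ Zs f, (0 ≤ p.1 ∧ p.1 ≤ 1) → p ∉ E →
        ∃ j, (a j < p.1 ∧ p.1 < b j) ∧ φ j p.1 = p.2) := by
  obtain ⟨N0, hN0⟩ := arcDec k
  obtain ⟨m, hm⟩ : ∃ m, m = k * k + n * (k * d) := ⟨_, rfl⟩
  refine ⟨N0 * (m + 1), fun f hf hk h1 G hG => ?_⟩
  obtain ⟨a0, b0, φ0, E0, hE0, hc0, hz0, -, hcov⟩ := hN0 f hf hk h1 2
  obtain ⟨Z1, hZ1c, hZ1⟩ := crit k f hf hk h1
  choose Z2 hZ2c hZ2 using fun l => arcG_zer k d f (G l) hf hk (hG l)
  obtain ⟨Z, hZ⟩ : ∃ Z, Z = Z1 ∪ univ.biUnion Z2 := ⟨_, rfl⟩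
  have hZc : Z.card ≤ m := by
    rw [hZ, hm]
    have e1 := Finset.card_union_le Z1 (univ.biUnion Z2)
    have e2 : (univ.biUnion Z2).card ≤ (univ : Finset (Fin n)).card * (k * d) :=
      Finset.card_biUnion_le_card_mul _ _ _ fun l _ => hZ2c l
    rw [Finset.card_univ, Fintype.card_fin] at e2
    omega
  have hs1 : ∀ x, x ∉ Z → x ∉ Z1 := fun x hx h => hx (hZ ▸ Finset.mem_union_left _ h)
  have hs2 : ∀ l x, x ∉ Z → x ∉ Z2 l := fun l x hx h =>
    hx (hZ ▸ Finset.mem_union_right _ (Finset.mem_biUnion.2 ⟨l, Finset.mem_univ _, h⟩))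
  choose a' b' hsub hnot hcut using fun j => Pool.Agent.H39.HG.cut m (a0 j) (b0 j) Z hZc
  obtain ⟨e, -⟩ : ∃ e : Fin N0 × Fin (m + 1) ≃ Fin (N0 * (m + 1)), True :=
    ⟨finProdFinEquiv, trivial⟩
  obtain ⟨E1, hE1⟩ : ∃ E1 : Finset (ℝ × ℝ), E1 =
      (Z ×ˢ (univ : Finset (Fin N0))).image fun t => (t.1, φ0 t.2 t.1) := ⟨_, rfl⟩
  have hE1c : E1.card ≤ m * N0 := by
    rw [hE1]
    refine Finset.card_image_le.trans ?_
    rw [Finset.card_product, Finset.card_univ, Fintype.card_fin]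
    exact Nat.mul_le_mul_right _ hZc
  refine ⟨fun i => a' (e.symm i).1 (e.symm i).2, fun i => b' (e.symm i).1 (e.symm i).2,
    fun i => φ0 (e.symm i).1, E0 ∪ E1, ?_, ?_, ?_, ?_, ?_⟩
  · refine (Finset.card_union_le _ _).trans ?_
    have e1 : N0 * (m + 1) = m * N0 + N0 := by ring
    rw [e1]
    omega
  · intro i
    exact (hc0 (e.symm i).1).mono (hsub (e.symm i).1 (e.symm i).2)
  · intro i x hx
    have hx1 : (x, φ0 (e.symm i).1 x) ∈ Zs f :=
      hz0 (e.symm i).1 x (hsub (e.symm i).1 (e.symm i).2 hx)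
    refine ⟨hx1, fun h0 => ?_⟩
    exact hs1 x (hnot (e.symm i).1 (e.symm i).2 x hx) (hZ1 x (φ0 (e.symm i).1 x) hx1 h0)
  · intro i l
    beta_reduce
    generalize e.symm i = t
    obtain ⟨j, c⟩ := t
    change (∀ x ∈ Set.Ioo (a' j c) (b' j c), eval ![x, φ0 j x] (G l) = 0) ∨
      ∀ x ∈ Set.Ioo (a' j c) (b' j c), eval ![x, φ0 j x] (G l) ≠ 0
    rcases hZ2 l with h | h
    · left
      intro x hx
      exact arcG_dvd f (G l) h x (φ0 j x) (hz0 j x (hsub j c hx))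
    · right
      intro x hx h3
      exact hs2 l x (hnot j c x hx) (h x _ (hz0 j x (hsub j c hx)) h3)
  · intro p hp hp1 hpE
    rw [Finset.mem_union, not_or] at hpE
    have habs : |p.1| < 2 := by
      rw [abs_lt]
      constructor <;> linarith [hp1.1, hp1.2]
    obtain ⟨j, hj, hφ⟩ := hcov p hp habs hpE.1
    have hnZ : p.1 ∉ Z := by
      intro hz
      refine hpE.2 ?_
      rw [hE1, Finset.mem_image]
      refine ⟨(p.1, j), Finset.mem_product.2 ⟨hz, Finset.mem_univ _⟩, ?_⟩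
      exact Prod.ext rfl hφ
    obtain ⟨i, hi⟩ := hcut j p.1 hj hnZ
    refine ⟨e (j, i), ?_, ?_⟩
    · beta_reduce
      rw [Equiv.symm_apply_apply]
      exact hi
    · beta_reduce
      rw [Equiv.symm_apply_apply]
      exact hφ

end Pool.Agent.H39.HA
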