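import Pool.Agent.H39.HA.Defs
/-!
# Choice of K and properties of the bound

`balD`: `K = max (Cst h ^ (1/6)) ((h n / N) ^ (1/3))`: `K N ≤ Cst h ^ (1/6) N + (h n) ^ (1/3) N ^ (2/3)` and `h n / K ^ 2 ≤ h n / (h n / N) ^ (2/3) = (h n) ^ (1/3) N ^ (2/3)`. Compare with `balB4` in `Pool/Agent/H39/HG/BalB.lean` and, for the properties of `GA`, with
`Pool/Agent/H39/HG/GFB.lean`.
-/

set_option autoImplicit false

namespace Pool.Agent.H39.HA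

open Finset
open scoped Classical

private lemma BalD_pw (z : ℝ) (h0 : 0 ≤ z) : (z ^ (1 / 3 : ℝ)) ^ 3 = z ∧
    z ^ (2 / 3 : ℝ) = (z ^ (1 / 3 : ℝ)) ^ 2 := by
  refine ⟨?_, ?_⟩
  · rw [← Real.rpow_natCast, ← Real.rpow_mul h0]
    norm_num
  · rw [← Real.rpow_natCast, ← Real.rpow_mul h0]
    norm_num

private lemma BalD_core (x y g Cst : ℝ) (hx : 0 < x) (hy : 0 < y) (hg : 0 ≤ g) (hC : 1 ≤ Cst) :
    max (Cst * g) (x / y) * y ^ 3 ≤ Cst * (x * y ^ 2 + g * y ^ 3) ∧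
      x ^ 3 / (max (Cst * g) (x / y)) ^ 2 ≤ x * y ^ 2 + g * y ^ 3 := by
  have hx2 : 0 ≤ x * y ^ 2 := by positivity
  have hg3 : 0 ≤ g * y ^ 3 := by positivity
  have hxy : 0 < x / y := div_pos hx hy
  have h1 : x * y ^ 2 + g * y ^ 3 ≤ Cst * (x * y ^ 2 + g * y ^ 3) :=
    le_mul_of_one_le_left (by linarith) hC
  constructor
  · rcases le_total (Cst * g) (x / y) with h' | h'
    · rw [max_eq_right h']
      have : x / y * y ^ 3 = x * y ^ 2 := by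
        field_simp
      rw [this]
      linarith
    · rw [max_eq_left h']
      have h2 : 0 ≤ Cst * (x * y ^ 2) := mul_nonneg (by linarith) hx2
      have h3 : Cst * g * y ^ 3 = Cst * (g * y ^ 3) := by ring
      rw [h3, mul_add]
      linarith
  · have hK : x / y ≤ max (Cst * g) (x / y) := le_max_right _ _
    have h2 : (x / y) ^ 2 ≤ (max (Cst * g) (x / y)) ^ 2 := pow_le_pow_left₀ hxy.le hK 2
    have h3 : x ^ 3 / (max (Cst * g) (x / y)) ^ 2 ≤ x ^ 3 / (x / y) ^ 2 :=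
      div_le_div_of_nonneg_left (by positivity) (by positivity) h2
    have h4 : x ^ 3 / (x / y) ^ 2 = x * y ^ 2 := by
      field_simp
    linarith

private lemma BalD_first (h n N : ℕ) :
    0 ≤ ((h : ℝ) * n) ^ (1 / 3 : ℝ) * (N : ℝ) ^ (2 / 3 : ℝ) := by
  positivity

theorem balD (h n N : ℕ) (hh : 1 ≤ h) (hn : 1 ≤ n) (hN : 1 ≤ N) (Cst : ℝ) (hC : 1 ≤ Cst) :
    ∃ K : ℝ, Cst * (h : ℝ) ^ (1 / 6 : ℝ) ≤ K ∧ K * N ≤ Cst * GA h n N ∧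
      (h : ℝ) * n / K ^ 2 ≤ GA h n N := by
  have hn0 : (0 : ℝ) < n := by exact_mod_cast hn
  have hh0 : (0 : ℝ) < h := by exact_mod_cast hh
  have hN0 : (0 : ℝ) < N := by exact_mod_cast hN
  have hE : (0 : ℝ) < (h : ℝ) * n := mul_pos hh0 hn0
  obtain ⟨hE3, hE2⟩ := BalD_pw ((h : ℝ) * n) hE.le
  obtain ⟨hN3, hN2⟩ := BalD_pw (N : ℝ) hN0.le
  have hx : 0 < ((h : ℝ) * n) ^ (1 / 3 : ℝ) := Real.rpow_pos_of_pos hE _
  have hy : 0 < (N : ℝ) ^ (1 / 3 : ℝ) := Real.rpow_pos_of_pos hN0 _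
  have hg : 0 ≤ (h : ℝ) ^ (1 / 6 : ℝ) := Real.rpow_nonneg hh0.le _
  obtain ⟨h1, h2⟩ := BalD_core _ _ _ Cst hx hy hg hC
  refine ⟨max (Cst * (h : ℝ) ^ (1 / 6 : ℝ))
    (((h : ℝ) * n) ^ (1 / 3 : ℝ) / (N : ℝ) ^ (1 / 3 : ℝ)), le_max_left _ _, ?_, ?_⟩
  · unfold GA
    rw [hN2]
    rw [hN3] at h1
    exact h1
  · unfold GA
    rw [hN2]
    rw [hE3, hN3] at h2
    exact h2

theorem GA_nonneg (h n N : ℕ) : 0 ≤ GA h n N := by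
  unfold GA
  positivity

theorem GA_ge (h n N : ℕ) (hh : 1 ≤ h) : (N : ℝ) ≤ GA h n N := by
  have h1 := BalD_first h n N
  have hh1 : (1 : ℝ) ≤ h := by exact_mod_cast hh
  have h2 : (1 : ℝ) ≤ (h : ℝ) ^ (1 / 6 : ℝ) := Real.one_le_rpow hh1 (by norm_num)
  have h3 : (N : ℝ) ≤ (h : ℝ) ^ (1 / 6 : ℝ) * N := le_mul_of_one_le_left (Nat.cast_nonneg N) h2
  unfold GA
  linarith

theorem GA_ge' (h n N : ℕ) : (h : ℝ) ^ (1 / 6 : ℝ) * N ≤ GA h n N := by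
  have h1 := BalD_first h n N
  unfold GA
  linarith

theorem GA_mono (h n N N' : ℕ) (hN : N ≤ N') : GA h n N ≤ GA h n N' := by
  have hN0 : (0 : ℝ) ≤ (N : ℝ) := Nat.cast_nonneg N
  have hNN : (N : ℝ) ≤ (N' : ℝ) := by exact_mod_cast hN
  have h1 : ((h : ℝ) * n) ^ (1 / 3 : ℝ) * (N : ℝ) ^ (2 / 3 : ℝ) ≤
      ((h : ℝ) * n) ^ (1 / 3 : ℝ) * (N' : ℝ) ^ (2 / 3 : ℝ) :=
    mul_le_mul_of_nonneg_left (Real.rpow_le_rpow hN0 hNN (by norm_num))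
      (Real.rpow_nonneg (by positivity) _)
  have h2 : (h : ℝ) ^ (1 / 6 : ℝ) * N ≤ (h : ℝ) ^ (1 / 6 : ℝ) * N' :=
    mul_le_mul_of_nonneg_left hNN (Real.rpow_nonneg (Nat.cast_nonneg h) _)
  unfold GA
  linarith

theorem GA_mul (h n N a : ℕ) (ha : 1 ≤ a) : GA h n (a * N) ≤ a * GA h n N := by
  have hN : (0 : ℝ) ≤ (N : ℝ) := Nat.cast_nonneg N
  have ha0 : (0 : ℝ) ≤ (a : ℝ) := Nat.cast_nonneg a
  have ha1 : (1 : ℝ) ≤ (a : ℝ) := by exact_mod_cast ha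
  have h1 : ((a * N : ℕ) : ℝ) ^ (2 / 3 : ℝ) ≤ (a : ℝ) * (N : ℝ) ^ (2 / 3 : ℝ) := by
    rw [Nat.cast_mul, Real.mul_rpow ha0 hN]
    apply mul_le_mul_of_nonneg_right _ (Real.rpow_nonneg hN _)
    calc (a : ℝ) ^ (2 / 3 : ℝ) ≤ (a : ℝ) ^ (1 : ℝ) :=
          Real.rpow_le_rpow_of_exponent_le ha1 (by norm_num)
      _ = a := Real.rpow_one _
  have h2 := mul_le_mul_of_nonneg_left h1
    (Real.rpow_nonneg (show (0 : ℝ) ≤ (h : ℝ) * n by positivity) (1 / 3 : ℝ))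
  unfold GA
  have h3 : (h : ℝ) ^ (1 / 6 : ℝ) * ((a * N : ℕ) : ℝ) = a * ((h : ℝ) ^ (1 / 6 : ℝ) * N) := by
    push_cast
    ring
  rw [h3, mul_add]
  have h4 : (a : ℝ) * (((h : ℝ) * n) ^ (1 / 3 : ℝ) * (N : ℝ) ^ (2 / 3 : ℝ)) =
      ((h : ℝ) * n) ^ (1 / 3 : ℝ) * ((a : ℝ) * (N : ℝ) ^ (2 / 3 : ℝ)) := by ring
  rw [h4]
  linarith

end Pool.Agent.H39.HA
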