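import Pool.Agent.H39.HA.LvF
/-!
# Pieces are intervals

`pc_conv`: `φ 3` is monotone or antitone, `lv` monotone, so `lv (φ 3 y)` lies between `lv (φ 3 x)` and `lv (φ 3 z)`, which are equal; then the floors are
monotone in `x ≤ y ≤ z` (`R * 4 ^ l > 0`), so equal. `pc_loc`: `Int.floor_le`, `Int.lt_floor_add_one`. `pc_bd`: `lv_lt`.
-/

set_option autoImplicit false

namespace Pool.Agent.H39.HA

open Finset
open scoped Classical

private lemma PcL_lev (a b : ℝ) (φ : ℕ → ℝ → ℝ) (h : Tame a b φ) (x y z : ℝ)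
    (hx : x ∈ Set.Ioo a b) (hz : z ∈ Set.Ioo a b) (hxy : x ≤ y) (hyz : y ≤ z)
    (hp : lv (φ 3 x) = lv (φ 3 z)) : lv (φ 3 y) = lv (φ 3 x) := by
  have hy : y ∈ Set.Ioo a b := ⟨lt_of_lt_of_le hx.1 hxy, lt_of_le_of_lt hyz hz.2⟩
  rcases h.2.2.2 with hm | hm
  · have i1 := lv_mono (hm hx hy hxy)
    have i2 := lv_mono (hm hy hz hyz)
    exact le_antisymm (i2.trans hp.ge) i1
  · have i1 := lv_mono (hm hx hy hxy)
    have i2 := lv_mono (hm hy hz hyz)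
    exact le_antisymm i1 (hp.le.trans i2)

theorem pc_conv (a b R : ℝ) (hR : 0 < R) (φ : ℕ → ℝ → ℝ) (h : Tame a b φ) (x y z : ℝ)
    (hx : x ∈ Set.Ioo a b) (hz : z ∈ Set.Ioo a b) (hxy : x ≤ y) (hyz : y ≤ z)
    (hp : pc R (φ 3) x = pc R (φ 3) z) : pc R (φ 3) y = pc R (φ 3) x := by
  unfold pc at hp ⊢
  rw [Prod.mk.injEq] at hp
  obtain ⟨h1, h2⟩ := hp
  have hl := PcL_lev a b φ h x y z hx hz hxy hyz h1
  rw [hl]
  rw [← h1] at h2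
  have hpos : (0 : ℝ) < R * 4 ^ (lv (φ 3 x)).natAbs := by positivity
  have f1 : ⌊x * (R * 4 ^ (lv (φ 3 x)).natAbs)⌋ ≤ ⌊y * (R * 4 ^ (lv (φ 3 x)).natAbs)⌋ :=
    Int.floor_le_floor (mul_le_mul_of_nonneg_right hxy hpos.le)
  have f2 : ⌊y * (R * 4 ^ (lv (φ 3 x)).natAbs)⌋ ≤ ⌊z * (R * 4 ^ (lv (φ 3 x)).natAbs)⌋ :=
    Int.floor_le_floor (mul_le_mul_of_nonneg_right hyz hpos.le)
  rw [Prod.mk.injEq]
  exact ⟨rfl, le_antisymm (f2.trans h2.ge) f1⟩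

theorem pc_loc (R : ℝ) (hR : 0 < R) (g : ℝ → ℝ) (x : ℝ) (τ : ℤ × ℤ) (h : pc R g x = τ) :
    0 ≤ x - lend R τ ∧ x - lend R τ ≤ 1 / (R * 4 ^ τ.1.natAbs) := by
  subst h
  unfold lend pc
  simp only
  have hpos : (0 : ℝ) < R * 4 ^ (lv (g x)).natAbs := by positivity
  set D : ℝ := R * 4 ^ (lv (g x)).natAbs with hD
  have f1 : ((⌊x * D⌋ : ℤ) : ℝ) ≤ x * D := Int.floor_le _
  have f2 : x * D < (⌊x * D⌋ : ℤ) + 1 := Int.lt_floor_add_one _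
  have e : x - ((⌊x * D⌋ : ℤ) : ℝ) / D = (x * D - (⌊x * D⌋ : ℤ)) / D := by
    field_simp
  rw [e]
  constructor
  · exact div_nonneg (by linarith) hpos.le
  · exact div_le_div_of_nonneg_right (by linarith) hpos.le

theorem pc_bd (a b R : ℝ) (hR : 0 < R) (φ : ℕ → ℝ → ℝ) (h : Tame a b φ) (x y z : ℝ)
    (hx : x ∈ Set.Ioo a b) (hz : z ∈ Set.Ioo a b) (hy : y ∈ Set.uIcc x z) (τ : ℤ × ℤ)
    (hp : pc R (φ 3) x = τ) (hp' : pc R (φ 3) z = τ) : |φ 3 y| ≤ 64 ^ τ.1.natAbs := by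
  have key : pc R (φ 3) y = τ := by
    rcases le_total x z with hxz | hxz
    · rw [Set.uIcc_of_le hxz] at hy
      exact (pc_conv a b R hR φ h x y z hx hz hy.1 hy.2 (hp.trans hp'.symm)).trans hp
    · rw [Set.uIcc_of_ge hxz] at hy
      exact (pc_conv a b R hR φ h z y x hz hx hy.1 hy.2 (hp'.trans hp.symm)).trans hp'
  have := lv_lt (φ 3 y)
  rw [← key]
  exact this.le

end Pool.Agent.H39.HA
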