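import Pool.Agent.H39.HA.LenL
import Pool.Agent.H39.HA.PcL
/-!
# Number of pieces of one level

All `x ∈ X` have the same level `l`; `x ≤ y` in `X`: between them `lv (φ 3 t) = l` (monotonicity). If `l = c + 1 > 0` (`c` natural) then `φ 3 t ≥ 64 ^ c` on `Icc x y` (`lv_pos`), if `l = -(c + 1)`
then `-φ 3 t ≥ 64 ^ c` (`lv_neg`); so `y - x ≤ 4 / 8 ^ c` (`len_level`). The second coordinates of the pieces are floors of `x * (R * 4 ^ (c + 1))`, all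
between the floor for the minimum and for the maximum of `X`: at most `(y - x) R 4 ^ (c + 1) + 2 ≤ 16 R / 2 ^ c + 2` values. For `l = 0`: `y - x ≤ 1`, at
most `R + 2` values.
-/

set_option autoImplicit false

namespace Pool.Agent.H39.HA

open Finset
open scoped Classical

private theorem cntL_cnt (R : ℝ) (hR : 0 < R) (g : ℝ → ℝ) (l : ℤ) (X : Finset ℝ) (D : ℝ)
    (hD0 : 0 ≤ D) (hl : ∀ x ∈ X, lv (g x) = l)
    (hD : ∀ x ∈ X, ∀ y ∈ X, x ≤ y → (y - x) * (R * 4 ^ l.natAbs) ≤ D) :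
    ((X.image (pc R g)).card : ℝ) ≤ D + 2 := by
  rcases X.eq_empty_or_nonempty with rfl | hne
  · simp only [Finset.image_empty, Finset.card_empty, Nat.cast_zero]
    linarith
  have hM : 0 < R * 4 ^ l.natAbs := by positivity
  set x0 := X.min' hne with hx0
  set y0 := X.max' hne with hy0
  have hx0m : x0 ∈ X := X.min'_mem hne
  have hy0m : y0 ∈ X := X.max'_mem hne
  have h1 : ∀ x ∈ X, x0 ≤ x := fun x hx => X.min'_le x hx
  have h2 : ∀ x ∈ X, x ≤ y0 := fun x hx => X.le_max' x hx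
  have hsub : X.image (pc R g) ⊆
      ({l} : Finset ℤ) ×ˢ Finset.Icc ⌊x0 * (R * 4 ^ l.natAbs)⌋ ⌊y0 * (R * 4 ^ l.natAbs)⌋ := by
    intro τ hτ
    obtain ⟨x, hx, rfl⟩ := Finset.mem_image.1 hτ
    unfold pc
    rw [hl x hx]
    refine Finset.mem_product.2 ⟨Finset.mem_singleton.2 rfl, Finset.mem_Icc.2 ⟨?_, ?_⟩⟩
    · exact Int.floor_le_floor (mul_le_mul_of_nonneg_right (h1 x hx) hM.le)
    · exact Int.floor_le_floor (mul_le_mul_of_nonneg_right (h2 x hx) hM.le)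
  have hc := Finset.card_le_card hsub
  rw [Finset.card_product, Finset.card_singleton, one_mul, Int.card_Icc] at hc
  have hmono : ⌊x0 * (R * 4 ^ l.natAbs)⌋ ≤ ⌊y0 * (R * 4 ^ l.natAbs)⌋ :=
    Int.floor_le_floor (mul_le_mul_of_nonneg_right (h2 x0 hx0m) hM.le)
  have hc' : ((X.image (pc R g)).card : ℤ) ≤
      ⌊y0 * (R * 4 ^ l.natAbs)⌋ + 1 - ⌊x0 * (R * 4 ^ l.natAbs)⌋ := by
    have h3 : 0 ≤ ⌊y0 * (R * 4 ^ l.natAbs)⌋ + 1 - ⌊x0 * (R * 4 ^ l.natAbs)⌋ := by omega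
    have h4 := Int.toNat_of_nonneg h3
    have h5 : ((X.image (pc R g)).card : ℤ) ≤
        ((⌊y0 * (R * 4 ^ l.natAbs)⌋ + 1 - ⌊x0 * (R * 4 ^ l.natAbs)⌋).toNat : ℤ) := by
      exact_mod_cast hc
    rwa [h4] at h5
  have hc'' : ((X.image (pc R g)).card : ℝ) ≤
      (⌊y0 * (R * 4 ^ l.natAbs)⌋ : ℝ) + 1 - (⌊x0 * (R * 4 ^ l.natAbs)⌋ : ℝ) := by
    exact_mod_cast hc'
  have f1 := Int.floor_le (y0 * (R * 4 ^ l.natAbs))
  have f2 := Int.lt_floor_add_one (x0 * (R * 4 ^ l.natAbs))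
  have f3 := hD x0 hx0m y0 hy0m (h2 x0 hx0m)
  have f4 : (y0 - x0) * (R * 4 ^ l.natAbs) =
      y0 * (R * 4 ^ l.natAbs) - x0 * (R * 4 ^ l.natAbs) := by ring
  rw [f4] at f3
  linarith

private theorem cntL_between (a b : ℝ) (φ : ℕ → ℝ → ℝ) (h : Tame a b φ) (l : ℤ) {x y t : ℝ}
    (hx : x ∈ Set.Ioo a b) (hy : y ∈ Set.Ioo a b) (hlx : lv (φ 3 x) = l) (hly : lv (φ 3 y) = l)
    (ht : t ∈ Set.Icc x y) : lv (φ 3 t) = l := by
  have htm : t ∈ Set.Ioo a b := ⟨lt_of_lt_of_le hx.1 ht.1, lt_of_le_of_lt ht.2 hy.2⟩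
  rcases h.2.2.2 with hm | hm
  · have e1 := lv_mono (hm hx htm ht.1)
    have e2 := lv_mono (hm htm hy ht.2)
    omega
  · have e1 := lv_mono (hm hx htm ht.1)
    have e2 := lv_mono (hm htm hy ht.2)
    omega

theorem cnt_pos (a b R : ℝ) (hR : 1 ≤ R) (φ : ℕ → ℝ → ℝ) (h : Tame a b φ) (c : ℕ) (l : ℤ)
    (hl : l = c + 1 ∨ l = -(c + 1)) (X : Finset ℝ)
    (hX : ∀ x ∈ X, x ∈ Set.Ioo a b ∧ lv (φ 3 x) = l) :
    ((X.image (pc R (φ 3))).card : ℝ) ≤ 16 * R / 2 ^ c + 2 := by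
  have hR0 : 0 < R := by linarith
  have hn : l.natAbs = c + 1 := by omega
  refine cntL_cnt R hR0 (φ 3) l X (16 * R / 2 ^ c) (by positivity) (fun x hx => (hX x hx).2) ?_
  intro x hx y hy hxy
  have hb := fun t ht => cntL_between a b φ h l (t := t) (hX x hx).1 (hX y hy).1
    (hX x hx).2 (hX y hy).2 ht
  have hlen : 8 ^ c * (y - x) ≤ 4 := by
    refine len_level a b φ h c x y hxy (hX x hx).1 (hX y hy).1 ?_
    rcases hl with hl | hl
    · left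
      intro t ht
      refine lv_pos _ c ?_
      rw [hb t ht, hl]
      omega
    · right
      intro t ht
      refine lv_neg _ c ?_
      rw [hb t ht, hl]
      omega
  rw [hn, le_div_iff₀ (by positivity)]
  have e : (y - x) * (R * 4 ^ (c + 1)) * 2 ^ c = 4 * R * (8 ^ c * (y - x)) := by
    have h8 : (8 : ℝ) ^ c = 4 ^ c * 2 ^ c := by
      rw [← mul_pow]
      norm_num
    rw [h8, pow_succ]
    ring
  rw [e]
  calc 4 * R * (8 ^ c * (y - x)) ≤ 4 * R * 4 := mul_le_mul_of_nonneg_left hlen (by positivity)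
    _ = 16 * R := by ring

theorem cnt_zero (R : ℝ) (hR : 1 ≤ R) (g : ℝ → ℝ) (X : Finset ℝ)
    (hX : ∀ x ∈ X, (0 ≤ x ∧ x ≤ 1) ∧ lv (g x) = 0) :
    ((X.image (pc R g)).card : ℝ) ≤ R + 2 := by
  have hR0 : 0 < R := by linarith
  refine cntL_cnt R hR0 g 0 X R hR0.le (fun x hx => (hX x hx).2) ?_
  intro x hx y hy hxy
  have h1 : y - x ≤ 1 := by linarith [(hX x hx).1.1, (hX y hy).1.2]
  have e : (R * 4 ^ (0 : ℤ).natAbs) = R := by simp
  rw [e]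
  calc (y - x) * R ≤ 1 * R := mul_le_mul_of_nonneg_right h1 hR0.le
    _ = R := one_mul R

end Pool.Agent.H39.HA
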