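import Pool.Agent.H39.HA.CntL
/-!
# Number of pieces of an arc

Split `X` by the level: level `0`: `≤ R + 2`; levels `c + 1` and `-(c + 1)`, `c < bm`: `≤ 16 R / 2 ^ c + 2` each. Sum: `R + 2 + 2 (32 R + 2 bm)`, and `bm ≤ 2 ^ bm ≤ 4 R`: `≤ 65 R + 2 + 16 R ≤ 100 R`.
(`image` of a union is the union of the images; `Finset.card_biUnion_le`; `∑_{c<bm} 1/2^c ≤ 2` by induction.)
-/

set_option autoImplicit false

namespace Pool.Agent.H39.HA

open Finset
open scoped Classical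

private theorem CntP_ind (a b R : ℝ) (hR : 1 ≤ R) (φ : ℕ → ℝ → ℝ) (h : Tame a b φ) :
    ∀ (n : ℕ) (X : Finset ℝ),
      (∀ x ∈ X, x ∈ Set.Ioo a b ∧ (0 ≤ x ∧ x ≤ 1) ∧ (lv (φ 3 x)).natAbs ≤ n) →
      ((X.image (pc R (φ 3))).card : ℝ) ≤ R + 2 + (64 * R - 64 * R / 2 ^ n) + 4 * n := by
  intro n
  induction n with
  | zero =>
    intro X hX
    have h1 := cnt_zero R hR (φ 3) X (by
      intro x hx
      obtain ⟨_, h2, h3⟩ := hX x hx
      exact ⟨h2, by omega⟩)
    have h2 : R + 2 + (64 * R - 64 * R / 2 ^ 0) + 4 * ((0 : ℕ) : ℝ) = R + 2 := by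
      norm_num
    rw [h2]
    exact h1
  | succ n ih =>
    intro X hX
    have hX1 := ih (X.filter fun x => (lv (φ 3 x)).natAbs ≤ n) (by
      intro x hx
      rw [Finset.mem_filter] at hx
      obtain ⟨h1, h2, _⟩ := hX x hx.1
      exact ⟨h1, h2, hx.2⟩)
    have hX2 := cnt_pos a b R hR φ h n ((n : ℤ) + 1) (Or.inl rfl)
      (X.filter fun x => lv (φ 3 x) = (n : ℤ) + 1) (by
      intro x hx
      rw [Finset.mem_filter] at hx
      exact ⟨(hX x hx.1).1, hx.2⟩)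
    have hX3 := cnt_pos a b R hR φ h n (-((n : ℤ) + 1)) (Or.inr rfl)
      (X.filter fun x => lv (φ 3 x) = -((n : ℤ) + 1)) (by
      intro x hx
      rw [Finset.mem_filter] at hx
      exact ⟨(hX x hx.1).1, hx.2⟩)
    have hsub : X.image (pc R (φ 3)) ⊆
        ((X.filter fun x => (lv (φ 3 x)).natAbs ≤ n).image (pc R (φ 3)) ∪
          (X.filter fun x => lv (φ 3 x) = (n : ℤ) + 1).image (pc R (φ 3))) ∪
          (X.filter fun x => lv (φ 3 x) = -((n : ℤ) + 1)).image (pc R (φ 3)) := by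
      intro y hy
      rw [Finset.mem_image] at hy
      obtain ⟨x, hx, hxy⟩ := hy
      obtain ⟨_, _, h3⟩ := hX x hx
      rw [Finset.mem_union, Finset.mem_union, Finset.mem_image, Finset.mem_image,
        Finset.mem_image]
      rcases Nat.lt_or_ge n (lv (φ 3 x)).natAbs with h4 | h4
      · rcases le_or_gt 0 (lv (φ 3 x)) with h5 | h5
        · refine Or.inl (Or.inr ⟨x, ?_, hxy⟩)
          rw [Finset.mem_filter]
          exact ⟨hx, by omega⟩
        · refine Or.inr ⟨x, ?_, hxy⟩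
          rw [Finset.mem_filter]
          exact ⟨hx, by omega⟩
      · refine Or.inl (Or.inl ⟨x, ?_, hxy⟩)
        rw [Finset.mem_filter]
        exact ⟨hx, h4⟩
    have hc := Finset.card_le_card hsub
    have hc1 := Finset.card_union_le
      ((X.filter fun x => (lv (φ 3 x)).natAbs ≤ n).image (pc R (φ 3)) ∪
          (X.filter fun x => lv (φ 3 x) = (n : ℤ) + 1).image (pc R (φ 3)))
      ((X.filter fun x => lv (φ 3 x) = -((n : ℤ) + 1)).image (pc R (φ 3)))
    have hc2 := Finset.card_union_le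
      ((X.filter fun x => (lv (φ 3 x)).natAbs ≤ n).image (pc R (φ 3)))
      ((X.filter fun x => lv (φ 3 x) = (n : ℤ) + 1).image (pc R (φ 3)))
    have hc3 : ((X.image (pc R (φ 3))).card : ℝ) ≤
        (((X.filter fun x => (lv (φ 3 x)).natAbs ≤ n).image (pc R (φ 3))).card : ℝ) +
          (((X.filter fun x => lv (φ 3 x) = (n : ℤ) + 1).image (pc R (φ 3))).card : ℝ) +
          (((X.filter fun x => lv (φ 3 x) = -((n : ℤ) + 1)).image (pc R (φ 3))).card : ℝ) := by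
      exact_mod_cast (hc.trans hc1).trans (Nat.add_le_add_right hc2 _)
    have h2 : 64 * R / 2 ^ (n + 1) = 32 * R / 2 ^ n := by
      rw [pow_succ]
      field_simp
      ring
    have h3 : 64 * R / 2 ^ n = 64 * (R / 2 ^ n) := by ring
    have h4 : 32 * R / 2 ^ n = 32 * (R / 2 ^ n) := by ring
    have h5 : 16 * R / 2 ^ n = 16 * (R / 2 ^ n) := by ring
    rw [h2, h4]
    rw [h3] at hX1
    rw [h5] at hX2 hX3
    push_cast
    linarith

theorem pc_count (a b R : ℝ) (hR : 1 ≤ R) (φ : ℕ → ℝ → ℝ) (h : Tame a b φ) (bm : ℕ)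
    (hbm : (2 : ℝ) ^ bm ≤ 4 * R) (X : Finset ℝ)
    (hX : ∀ x ∈ X, x ∈ Set.Ioo a b ∧ (0 ≤ x ∧ x ≤ 1) ∧ (lv (φ 3 x)).natAbs ≤ bm) :
    ((X.image (pc R (φ 3))).card : ℝ) ≤ 100 * R := by
  have h1 := CntP_ind a b R hR φ h bm X hX
  have h2 : (bm : ℝ) ≤ 2 ^ bm := by
    exact_mod_cast (Nat.lt_two_pow_self).le
  have h3 : 0 ≤ 64 * R / 2 ^ bm := by positivity
  linarith

end Pool.Agent.H39.HA
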