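import Pool.Agent.H39.HA.Defs
/-!
# Labels of a tame arc

If `φ 1` is monotone: `σ p = 1 + p.1 + φ 1 p.1`; if antitone: `σ p = 1 + p.1 - φ 1 p.1`; `m p = φ 1 p.1`. Then `0 ≤ σ ≤ 3` on `crv`, `σ` is strictly
increasing in `x` and `|σ p - σ q| = |p.1 - q.1| + |m p - m q|`. The third inequality of `Lab`: mean value theorem
(`exists_hasDerivAt_eq_slope` on the interval between `p.1` and `q.1`): `q.2 - p.2 = φ 1 ξ (q.1 - p.1)` and, by monotonicity, `|φ 1 ξ - φ 1 p.1| ≤ |m q - m p|`,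
so the left side is `≤ |m q - m p| |q.1 - p.1| ≤ (σ p - σ q) ^ 2`. (Case `p.1 = q.1`: then `p = q`.)
-/

set_option autoImplicit false

namespace Pool.Agent.H39.HA

open Finset Pool.Agent.H39.HG
open scoped Classical

private lemma LabM_slope (a b : ℝ) (f g : ℝ → ℝ)
    (hd : ∀ x ∈ Set.Ioo a b, HasDerivAt f (g x) x) (x y : ℝ) (hx : x ∈ Set.Ioo a b)
    (hy : y ∈ Set.Ioo a b) (hxy : x < y) : ∃ ξ, x < ξ ∧ ξ < y ∧ f y - f x = g ξ * (y - x) := by
  have hsub : ∀ t ∈ Set.Icc x y, t ∈ Set.Ioo a b := fun t ht =>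
    ⟨lt_of_lt_of_le hx.1 ht.1, lt_of_le_of_lt ht.2 hy.2⟩
  obtain ⟨ξ, hξ, he⟩ := exists_hasDerivAt_eq_slope f g hxy
    (fun t ht => (hd t (hsub t ht)).continuousAt.continuousWithinAt)
    (fun t ht => hd t (hsub t (Set.Ioo_subset_Icc_self ht)))
  refine ⟨ξ, hξ.1, hξ.2, ?_⟩
  rw [he, div_mul_cancel₀ _ (sub_ne_zero.2 hxy.ne')]

private lemma LabM_core (a b : ℝ) (f g : ℝ → ℝ) (s : ℝ) (hs : s = 1 ∨ s = -1)
    (hd : ∀ x ∈ Set.Ioo a b, HasDerivAt f (g x) x)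
    (hb : ∀ x ∈ Set.Ioo a b, |g x| ≤ 1)
    (hm : ∀ x ∈ Set.Ioo a b, ∀ y ∈ Set.Ioo a b, x ≤ y → s * g x ≤ s * g y) :
    ∃ m σ : ℝ × ℝ → ℝ, Lab 3 (crv a b f) m σ ∧
      ∀ p ∈ crv a b f, ∀ q ∈ crv a b f, p.1 ≤ q.1 → σ p ≤ σ q := by
  have hs2 : ∀ v : ℝ, |s * v| = |v| := by
    intro v
    rcases hs with h | h <;> simp [h]
  have habs : ∀ u v : ℝ, |u - v| = |s * u - s * v| := by
    intro u v
    rw [← mul_sub, hs2]
  -- the third inequality, in the form with absolute values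
  have h3 : ∀ x ∈ Set.Ioo a b, ∀ y ∈ Set.Ioo a b,
      |f y - f x - g x * (y - x)| ≤ |g y - g x| * |y - x| := by
    intro x hx y hy
    rcases lt_trichotomy x y with hxy | hxy | hxy
    · obtain ⟨ξ, h1, h2, he⟩ := LabM_slope a b f g hd x y hx hy hxy
      have hξ : ξ ∈ Set.Ioo a b := ⟨lt_trans hx.1 h1, lt_trans h2 hy.2⟩
      have e : f y - f x - g x * (y - x) = (g ξ - g x) * (y - x) := by rw [he]; ring
      rw [e, abs_mul]
      refine mul_le_mul_of_nonneg_right ?_ (abs_nonneg _)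
      rw [habs, habs (g y) (g x)]
      have i1 := hm x hx ξ hξ h1.le
      have i2 := hm ξ hξ y hy h2.le
      rw [abs_of_nonneg (by linarith), abs_of_nonneg (by linarith)]
      linarith
    · subst hxy
      simp
    · obtain ⟨ξ, h1, h2, he⟩ := LabM_slope a b f g hd y x hy hx hxy
      have hξ : ξ ∈ Set.Ioo a b := ⟨lt_trans hy.1 h1, lt_trans h2 hx.2⟩
      have e : f y - f x - g x * (y - x) = (g ξ - g x) * (y - x) := by
        have : f y - f x = g ξ * (y - x) := by linarith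
        rw [this]; ring
      rw [e, abs_mul]
      refine mul_le_mul_of_nonneg_right ?_ (abs_nonneg _)
      rw [habs, habs (g y) (g x)]
      have i1 := hm y hy ξ hξ h1.le
      have i2 := hm ξ hξ x hx h2.le
      rw [abs_of_nonpos (by linarith), abs_of_nonpos (by linarith)]
      linarith
  -- the height
  have hσ : ∀ x ∈ Set.Ioo a b, ∀ y ∈ Set.Ioo a b,
      |(1 + x + s * g x) - (1 + y + s * g y)| = |x - y| + |g x - g y| := by
    intro x hx y hy
    rw [habs (g x) (g y)]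
    rcases le_total x y with hxy | hxy
    · have i1 := hm x hx y hy hxy
      rw [abs_of_nonpos (by linarith), abs_of_nonpos (by linarith), abs_of_nonpos (by linarith)]
      ring
    · have i1 := hm y hy x hx hxy
      rw [abs_of_nonneg (by linarith), abs_of_nonneg (by linarith), abs_of_nonneg (by linarith)]
      ring
  refine ⟨fun p => g p.1, fun p => 1 + p.1 + s * g p.1, ?_, ?_⟩
  · intro p hp
    obtain ⟨⟨hp1, hp2⟩, ⟨hp3, hp4⟩, hp5⟩ := hp
    have hpI : p.1 ∈ Set.Ioo a b := ⟨hp1, hp2⟩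
    have hb1 := hb p.1 hpI
    have hb2 : |s * g p.1| ≤ 1 := by rw [hs2]; exact hb1
    have hb3 := abs_le.1 hb2
    refine ⟨⟨hb1, by simp only; linarith [hb3.1], by simp only; linarith [hb3.2]⟩, ?_⟩
    intro q hq
    obtain ⟨⟨hq1, hq2⟩, ⟨hq3, hq4⟩, hq5⟩ := hq
    have hqI : q.1 ∈ Set.Ioo a b := ⟨hq1, hq2⟩
    have hh := hσ p.1 hpI q.1 hqI
    refine ⟨?_, ?_, ?_⟩
    · simp only
      rw [hh]
      linarith [abs_nonneg (g p.1 - g q.1)]
    · simp only
      rw [hh]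
      linarith [abs_nonneg (p.1 - q.1)]
    · simp only
      have h3' := h3 p.1 hpI q.1 hqI
      rw [hp5, hq5] at h3'
      rw [← sq_abs, hh]
      refine h3'.trans ?_
      rw [abs_sub_comm (g q.1), abs_sub_comm q.1]
      nlinarith [abs_nonneg (g p.1 - g q.1), abs_nonneg (p.1 - q.1),
        mul_nonneg (abs_nonneg (g p.1 - g q.1)) (abs_nonneg (p.1 - q.1)),
        sq_nonneg (|g p.1 - g q.1|), sq_nonneg (|p.1 - q.1|)]
  · intro p hp q hq hpq
    have hpI : p.1 ∈ Set.Ioo a b := hp.1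
    have hqI : q.1 ∈ Set.Ioo a b := hq.1
    have i1 := hm p.1 hpI q.1 hqI hpq
    simp only
    linarith

theorem lab_mono (a b : ℝ) (φ : ℕ → ℝ → ℝ) (h : Tame a b φ) :
    ∃ m σ : ℝ × ℝ → ℝ, Lab 3 (crv a b (φ 0)) m σ ∧
      ∀ p ∈ crv a b (φ 0), ∀ q ∈ crv a b (φ 0), p.1 ≤ q.1 → σ p ≤ σ q := by
  obtain ⟨h1, h2, h3, -⟩ := h
  have hd : ∀ x ∈ Set.Ioo a b, HasDerivAt (φ 0) (φ 1 x) x := h1 0 (by norm_num)
  rcases h3 with h3 | h3
  · exact LabM_core a b (φ 0) (φ 1) 1 (Or.inl rfl) hd h2 (fun x hx y hy hxy => by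
      have := h3 hx hy hxy
      linarith)
  · exact LabM_core a b (φ 0) (φ 1) (-1) (Or.inr rfl) hd h2 (fun x hx y hy hxy => by
      have := h3 hx hy hxy
      linarith)

end Pool.Agent.H39.HA
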