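import Pool.Agent.H39.HA.Defs
/-!
# One level, impure cells

Apply `hL` with the index type `ι`, `Pg i = Pf i` and `K_j = K Y / 2 ^ j` in place of `K` (`≥ K ≥ Cst` as `2 ^ j ≤ Y`; `K_j 2 ^ j = K Y ≤ #(cell) ≤ #(Pf i ∩ tA)`, the cell is contained in both). The first term: with `y = 2 ^ j`, `y ^ (s + 2) / (y ^ 7 (K Y / y) ^ (2 s - 2)) = y ^ (3 s) / (y ^ 7 (K Y) ^ (2 s - 2)) = (y ^ 3) ^ (s - 1) / ((K Y) ^ 2) ^ (s - 1) / y ^ 4 ≤ 1 / y ^ 4` as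
`y ^ 3 = 8 ^ j ≤ (K Y) ^ 2` (write `s = v + 2`).
-/

set_option autoImplicit false

namespace Pool.Agent.H39.HA

open Finset Pool.Agent.H39.HG
open scoped Classical

private lemma LevI_first (v : ℕ) (y T : ℝ) (hy : 0 < y) (hT : 0 < T) (h : y ^ 3 ≤ T ^ 2) :
    y ^ (v + 2 + 2) / (y ^ 7 * (T / y) ^ (2 * (v + 2) - 2)) ≤ 1 / y ^ 4 := by
  have e : 2 * (v + 2) - 2 = 2 * (v + 1) := by omega
  have h1 : (y ^ 3) ^ (v + 1) ≤ (T ^ 2) ^ (v + 1) := pow_le_pow_left₀ (by positivity) h _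
  have h2 : y ^ 7 * (T / y) ^ (2 * (v + 1)) = y ^ 7 * (T ^ 2) ^ (v + 1) / y ^ (2 * (v + 1)) := by
    rw [div_pow, ← pow_mul]
    ring
  rw [e, h2, div_le_div_iff₀ (by positivity) (by positivity), one_mul,
    le_div_iff₀ (by positivity)]
  calc y ^ (v + 2 + 2) * y ^ 4 * y ^ (2 * (v + 1)) = y ^ 7 * (y ^ 3) ^ (v + 1) := by ring
    _ ≤ _ := by gcongr

theorem lev_imp (s : ℕ) (hs : 2 ≤ s) (C0 C1 κ0 C Cst : ℝ) (hC : 0 ≤ C) (hCst : 1 ≤ Cst)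
    (hL : LevProp C0 s C1 κ0 C Cst)
    (h : ℕ) (r u : ℝ) (hh : 1 ≤ h) (hr : 0 < r) (hu : 0 < u) (hru : r ^ 2 = h * u ^ 3)
    (hhu : h * u ≤ 1) (P : Finset (ℝ × ℝ)) (hP : Hom h r P) (ι : Type) [Fintype ι]
    (Pf Pl : ι → Finset (ℝ × ℝ)) (hPf : ∀ i, Pf i ⊆ P) (hPl : ∀ i, Pl i ⊆ Pf i)
    (m σ : ι → ℝ × ℝ → ℝ) (K Y : ℝ) (hK : Cst ≤ K) (j : ℕ) (hj : 2 ^ j * u ≤ 1)
    (hY : 2 ^ j ≤ Y) (hKY : 8 ^ j ≤ (K * Y) ^ 2) (hPS : PSR P Pf s C1 κ0)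
    (G : Finset (ι × (ℝ × ℝ))) (h0 : ∀ e ∈ G, e.2 ∈ Pl e.1 ∧ |m e.1 e.2| ≤ 1)
    (h1 : ∀ e ∈ G, C0 * 8 ^ j ≤ ((tA P u j e.2 (m e.1 e.2)).card : ℝ))
    (h2 : ∀ e ∈ G, ((tB P u j e.2 (m e.1 e.2)).card : ℝ) ≤ 8 * (C0 * 8 ^ j))
    (h3 : ∀ e ∈ G, ∀ q ∈ Pl e.1, cel u j (σ e.1) q = cel u j (σ e.1) e.2 →
      q ∈ tA P u j e.2 (m e.1 e.2))
    (h4 : ∀ e ∈ G, K * Y ≤
      (((Pl e.1).filter fun q => cel u j (σ e.1) q = cel u j (σ e.1) e.2).card : ℝ)) :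
    (G.card : ℝ) * u ≤ C * (h * P.card * (2 / ((2 : ℝ) ^ j) ^ 4)) := by
  have hy : (0 : ℝ) < 2 ^ j := by positivity
  have hK0 : 0 < K := by linarith
  have hY0 : 0 < Y := lt_of_lt_of_le hy hY
  have hKYp : 0 < K * Y := mul_pos hK0 hY0
  have h8 : ((2 : ℝ) ^ j) ^ 3 ≤ (K * Y) ^ 2 := by
    have : ((2 : ℝ) ^ j) ^ 3 = 8 ^ j := by
      rw [← pow_mul, mul_comm, pow_mul]
      norm_num
    rw [this]
    exact hKY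
  have hKj : Cst ≤ K * Y / 2 ^ j := by
    rw [le_div_iff₀ hy]
    calc Cst * 2 ^ j ≤ K * 2 ^ j := by gcongr
      _ ≤ K * Y := by gcongr
  have key := hL h r u hh hr hu hru hhu P ι Pf m hP hPf hPS (K * Y / 2 ^ j) hKj j hj G
    (fun e he => ⟨hPl e.1 (h0 e he).1, (h0 e he).2⟩) h1 h2 (by
      intro e he
      rw [div_mul_cancel₀ _ hy.ne']
      refine (h4 e he).trans ?_
      have : ((Pl e.1).filter fun q => cel u j (σ e.1) q = cel u j (σ e.1) e.2) ⊆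
          Pf e.1 ∩ tA P u j e.2 (m e.1 e.2) := by
        intro q hq
        rw [mem_filter] at hq
        exact mem_inter.2 ⟨hPl e.1 hq.1, h3 e he q hq.1 hq.2⟩
      exact_mod_cast card_le_card this)
  refine key.trans ?_
  obtain ⟨v, rfl⟩ : ∃ v, s = v + 2 := ⟨s - 2, by omega⟩
  have hf := LevI_first v (2 ^ j) (K * Y) hy hKYp h8
  have hsum : ((2 : ℝ) ^ j) ^ (v + 2 + 2) / (((2 : ℝ) ^ j) ^ 7 *
      (K * Y / 2 ^ j) ^ (2 * (v + 2) - 2)) + 1 / ((2 : ℝ) ^ j) ^ 4 ≤ 2 / ((2 : ℝ) ^ j) ^ 4 := by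
    have : (2 : ℝ) / ((2 : ℝ) ^ j) ^ 4 = 1 / ((2 : ℝ) ^ j) ^ 4 + 1 / ((2 : ℝ) ^ j) ^ 4 := by ring
    rw [this]
    linarith
  gcongr

end Pool.Agent.H39.HA
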