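import Pool.Agent.H39.HA.Defs
/-!
# One level, pure cells

Let `c i p = cel u j (σ i) p`, `Mc` larger than all `c i p`, `p ∈ Pl i` (`Finset.sup`). The map `(i, p) ↦ ((i, c i p), p)` is injective; let `𝒢` be the image of `G` in `(ι × Fin Mc) × (ℝ × ℝ)`. For `e = (i, p) ∈ G` the set `pur Pl pt c i (c i p)` is the cell of `p` (the condition of `pur` is the purity in `h5`), it
contains `p` and is contained in `tA P u j p (m i p)` (`h3`), so `#(pur ∩ tA) = #(cell) ≥ K 2 ^ j`. Apply `hL` (`LevProp`, `s = 4`) with `Pg (i, l) = pur Pl pt c i l`, `m (i, l) = m i`: `2 * 4 - 2 = 6`, `(2 ^ j) ^ 6 / ((2 ^ j) ^ 7 K ^ 6) = 1 / (2 ^ j K ^ 6)`.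
-/

set_option autoImplicit false

namespace Pool.Agent.H39.HA

open Finset Pool.Agent.H39.HG
open scoped Classical

private lemma LevP_pur {ι τ : Type} (Pl : ι → Finset (ℝ × ℝ)) (pt : ι → ℝ → τ)
    (c : ι → ℝ × ℝ → ℕ) (i : ι) (l : ℕ)
    (h : ∀ q ∈ Pl i, ∀ q' ∈ Pl i, c i q = l → c i q' = l → pt i q.1 = pt i q'.1) :
    pur Pl pt c i l = (Pl i).filter fun p => c i p = l := by
  unfold pur
  exact if_pos h

private lemma LevP_sub {ι τ : Type} (Pl : ι → Finset (ℝ × ℝ)) (pt : ι → ℝ → τ)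
    (c : ι → ℝ × ℝ → ℕ) (i : ι) (l : ℕ) : pur Pl pt c i l ⊆ Pl i := by
  unfold pur
  split_ifs
  · exact filter_subset _ _
  · exact empty_subset _

private lemma LevP_alg {x K : ℝ} (hx : 0 < x) :
    x ^ (4 + 2) / (x ^ 7 * K ^ (2 * 4 - 2)) = 1 / (x * K ^ 6) := by
  have h1 : x ^ 7 * K ^ (2 * 4 - 2) = x ^ (4 + 2) * (x * K ^ 6) := by
    rw [show 2 * 4 - 2 = 6 by norm_num]
    ring
  rw [h1, ← div_div, div_self (pow_ne_zero _ hx.ne')]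

theorem lev_pure (C0 C1 κ0 C Cst : ℝ) (hL : LevProp C0 4 C1 κ0 C Cst) (h : ℕ) (r u : ℝ)
    (hh : 1 ≤ h) (hr : 0 < r) (hu : 0 < u) (hru : r ^ 2 = h * u ^ 3) (hhu : h * u ≤ 1)
    (P : Finset (ℝ × ℝ)) (hP : Hom h r P) (ι τ : Type) [Fintype ι] (Pl : ι → Finset (ℝ × ℝ))
    (hPl : ∀ i, Pl i ⊆ P) (m σ : ι → ℝ × ℝ → ℝ) (pt : ι → ℝ → τ) (K : ℝ) (hK : Cst ≤ K) (j : ℕ)
    (hj : 2 ^ j * u ≤ 1)
    (hPS : ∀ Mc : ℕ, PSR P (fun e : ι × Fin Mc => pur Pl pt (fun i => cel u j (σ i)) e.1 e.2)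
      4 C1 κ0)
    (G : Finset (ι × (ℝ × ℝ))) (h0 : ∀ e ∈ G, e.2 ∈ Pl e.1 ∧ |m e.1 e.2| ≤ 1)
    (h1 : ∀ e ∈ G, C0 * 8 ^ j ≤ ((tA P u j e.2 (m e.1 e.2)).card : ℝ))
    (h2 : ∀ e ∈ G, ((tB P u j e.2 (m e.1 e.2)).card : ℝ) ≤ 8 * (C0 * 8 ^ j))
    (h3 : ∀ e ∈ G, ∀ q ∈ Pl e.1, cel u j (σ e.1) q = cel u j (σ e.1) e.2 →
      q ∈ tA P u j e.2 (m e.1 e.2))
    (h4 : ∀ e ∈ G, K * 2 ^ j ≤
      (((Pl e.1).filter fun q => cel u j (σ e.1) q = cel u j (σ e.1) e.2).card : ℝ))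
    (h5 : ∀ e ∈ G, ∀ q ∈ Pl e.1, ∀ q' ∈ Pl e.1, cel u j (σ e.1) q = cel u j (σ e.1) e.2 →
      cel u j (σ e.1) q' = cel u j (σ e.1) e.2 → pt e.1 q.1 = pt e.1 q'.1) :
    (G.card : ℝ) * u ≤ C * (h * P.card * (1 / (2 ^ j * K ^ 6) + 1 / ((2 : ℝ) ^ j) ^ 4)) := by
  set c : ι → ℝ × ℝ → ℕ := fun i => cel u j (σ i) with hc
  obtain ⟨Mc, hMc⟩ : ∃ Mc : ℕ, ∀ i, ∀ p ∈ Pl i, c i p < Mc := by
    refine ⟨(univ.sup fun i => (Pl i).sup (c i)) + 1, fun i p hp => Nat.lt_succ_of_le ?_⟩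
    have h6 : c i p ≤ (Pl i).sup (c i) := le_sup (f := c i) hp
    have h7 : (Pl i).sup (c i) ≤ univ.sup fun i => (Pl i).sup (c i) :=
      le_sup (f := fun i => (Pl i).sup (c i)) (mem_univ i)
    exact h6.trans h7
  rcases G.eq_empty_or_nonempty with rfl | hG
  · have hC := hL h r u hh hr hu hru hhu P (ι × Fin Mc) (fun e => pur Pl pt c e.1 e.2)
      (fun e => m e.1) hP (fun e => (LevP_sub Pl pt c e.1 e.2).trans (hPl e.1)) (hPS Mc) K hK j hj ∅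
      (by simp) (by simp) (by simp) (by simp)
    rw [LevP_alg (by positivity : (0 : ℝ) < 2 ^ j)] at hC
    simpa using hC
  have hM0 : 0 < Mc := by
    obtain ⟨e, he⟩ := hG
    exact lt_of_le_of_lt (Nat.zero_le _) (hMc e.1 e.2 (h0 e he).1)
  set F : ι × (ℝ × ℝ) → (ι × Fin Mc) × (ℝ × ℝ) :=
    fun e => ((e.1, ⟨c e.1 e.2 % Mc, Nat.mod_lt _ hM0⟩), e.2) with hF
  have hFinj : Function.Injective F := by
    rintro ⟨i, p⟩ ⟨i', p'⟩ h6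
    have h7 : i = i' := congrArg (fun x => x.1.1) h6
    have h8 : p = p' := congrArg (fun x => x.2) h6
    rw [h7, h8]
  have hl : ∀ e ∈ G, c e.1 e.2 % Mc = c e.1 e.2 := fun e he =>
    Nat.mod_eq_of_lt (hMc e.1 e.2 (h0 e he).1)
  have hcell : ∀ e ∈ G, pur Pl pt c e.1 (c e.1 e.2 % Mc) =
      (Pl e.1).filter fun p => c e.1 p = c e.1 e.2 := fun e he => by
    rw [hl e he]
    exact LevP_pur Pl pt c e.1 _ (h5 e he)
  have hres := hL h r u hh hr hu hru hhu P (ι × Fin Mc) (fun e => pur Pl pt c e.1 e.2)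
      (fun e => m e.1) hP (fun e => (LevP_sub Pl pt c e.1 e.2).trans (hPl e.1)) (hPS Mc) K hK j hj
      (G.image F) ?_ ?_ ?_ ?_
  · rw [card_image_of_injective _ hFinj, LevP_alg (by positivity : (0 : ℝ) < 2 ^ j)] at hres
    exact hres
  · intro e he
    obtain ⟨e0, he0, rfl⟩ := mem_image.1 he
    refine ⟨?_, (h0 e0 he0).2⟩
    show e0.2 ∈ pur Pl pt c e0.1 (c e0.1 e0.2 % Mc)
    rw [hcell e0 he0, mem_filter]
    exact ⟨(h0 e0 he0).1, rfl⟩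
  · intro e he
    obtain ⟨e0, he0, rfl⟩ := mem_image.1 he
    exact h1 e0 he0
  · intro e he
    obtain ⟨e0, he0, rfl⟩ := mem_image.1 he
    exact h2 e0 he0
  · intro e he
    obtain ⟨e0, he0, rfl⟩ := mem_image.1 he
    show K * 2 ^ j ≤ ((pur Pl pt c e0.1 (c e0.1 e0.2 % Mc) ∩
      tA P u j e0.2 (m e0.1 e0.2)).card : ℝ)
    rw [hcell e0 he0]
    have h6 : ((Pl e0.1).filter fun p => c e0.1 p = c e0.1 e0.2) ∩ tA P u j e0.2 (m e0.1 e0.2) =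
        (Pl e0.1).filter fun p => c e0.1 p = c e0.1 e0.2 := by
      refine inter_eq_left.2 fun q hq => ?_
      rw [mem_filter] at hq
      exact h3 e0 he0 q hq.1 hq.2
    rw [h6]
    exact h4 e0 he0

end Pool.Agent.H39.HA
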