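import Pool.Agent.H39.HA.Nea
/-!
# Local freeness of the light points

If the set of the arcs is empty nothing is to prove. Let `i0` be one of them, `p0 ∈ S`, `τ = pc R (φ i0 3) p0.1`. Every arc `i` of the set is in `nbr P bm R a b φ z i0 p0`, which has at most `M` elements as `p0 ∈ lit i0`: `p0 ∈ rt i`; the four points of `S` have different abscissas (they are on the graph of `φ i 0`); sort
them: `x1 < x2 < x3 < x4` (`Finset.orderEmbOfFin` of `S.image Prod.fst`, or a lemma: a finset of reals with `4` elements is `{x1, x2, x3, x4}` with `x1 < x2 < x3 < x4`); `φ i 0` and `φ i0 0` agree there; `pc R (φ i 3)` is constant on `S`, and also `pc R (φ i0 3)`; `near_of_four` for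
`(φ i, z i (pc R (φ i 3) x1))` and `(φ i0, z i0 (pc R (φ i0 3) x1))` gives near keys, in particular (first components) equal pieces.
-/

set_option autoImplicit false

namespace Pool.Agent.H39.HA

open Finset Pool.Agent.H39.HG
open scoped Classical

theorem loc_free (R : ℝ) (hR : 0 < R) (bm : ℕ) (P : Finset (ℝ × ℝ)) (ι : Type) [Fintype ι]
    (a b : ι → ℝ) (φ : ι → ℕ → ℝ → ℝ) (z : ι → ℤ × ℤ → ℝ) (hT : ∀ i, Tame (a i) (b i) (φ i))
    (hz : ∀ i, ∀ p ∈ rt P bm (a i) (b i) (φ i), z i (pc R (φ i 3) p.1) ∈ Set.Ioo (a i) (b i) ∧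
      pc R (φ i 3) (z i (pc R (φ i 3) p.1)) = pc R (φ i 3) p.1) (M : ℝ) (hM : 0 ≤ M)
    (S : Finset (ℝ × ℝ)) (hS : S.card = 4) :
    ((univ.filter fun i => S ⊆ lit P bm R a b φ z M i ∧
      ∀ p ∈ S, ∀ q ∈ S, pc R (φ i 3) p.1 = pc R (φ i 3) q.1).card : ℝ) ≤ M := by
  obtain hemp | ⟨i0, hi0⟩ := (univ.filter fun i => S ⊆ lit P bm R a b φ z M i ∧
      ∀ p ∈ S, ∀ q ∈ S, pc R (φ i 3) p.1 = pc R (φ i 3) q.1).eq_empty_or_nonempty
  · rw [hemp, card_empty, Nat.cast_zero]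
    exact hM
  obtain ⟨-, hS0, hc0⟩ := mem_filter.1 hi0
  have hrt : ∀ i, S ⊆ lit P bm R a b φ z M i → ∀ p ∈ S, p ∈ rt P bm (a i) (b i) (φ i) := by
    intro i hi p hp
    exact (mem_filter.1 (hi hp)).1
  have hgr : ∀ i, S ⊆ lit P bm R a b φ z M i → ∀ p ∈ S,
      p.1 ∈ Set.Ioo (a i) (b i) ∧ φ i 0 p.1 = p.2 := by
    intro i hi p hp
    have h1 := (mem_filter.1 (hrt i hi p hp)).2.1
    exact ⟨h1.1, h1.2.2⟩
  have hinj : Set.InjOn Prod.fst (S : Set (ℝ × ℝ)) := by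
    intro p hp q hq hpq
    have h1 := (hgr i0 hS0 p hp).2
    have h2 := (hgr i0 hS0 q hq).2
    have h3 : p.2 = q.2 := by rw [← h1, ← h2, hpq]
    exact Prod.ext hpq h3
  have hA : (S.image Prod.fst).card = 4 := by
    rw [card_image_of_injOn hinj, hS]
  obtain ⟨e, he⟩ : ∃ e : Fin 4 ↪o ℝ, ∀ j, e j ∈ S.image Prod.fst :=
    ⟨(S.image Prod.fst).orderEmbOfFin hA, fun j => orderEmbOfFin_mem _ _ _⟩
  have hx : ∀ j, ∃ p ∈ S, p.1 = e j := by
    intro j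
    obtain ⟨p, hp, hpe⟩ := mem_image.1 (he j)
    exact ⟨p, hp, hpe⟩
  obtain ⟨p1, hp1, h1⟩ := hx 0
  obtain ⟨p2, hp2, h2⟩ := hx 1
  obtain ⟨p3, hp3, h3⟩ := hx 2
  obtain ⟨p4, hp4, h4⟩ := hx 3
  have l12 : p1.1 < p2.1 := by
    rw [h1, h2]; exact e.strictMono (by decide)
  have l23 : p2.1 < p3.1 := by
    rw [h2, h3]; exact e.strictMono (by decide)
  have l34 : p3.1 < p4.1 := by
    rw [h3, h4]; exact e.strictMono (by decide)
  have hle : ((nbr P bm R a b φ z i0 p1).card : ℝ) ≤ M := (mem_filter.1 (hS0 hp1)).2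
  refine le_trans ?_ hle
  apply Nat.cast_le.2
  apply card_le_card
  intro i hi
  obtain ⟨-, hSi, hci⟩ := mem_filter.1 hi
  have heq : ∀ p ∈ S, φ i 0 p.1 = φ i0 0 p.1 := by
    intro p hp
    rw [(hgr i hSi p hp).2, (hgr i0 hS0 p hp).2]
  obtain ⟨z1, z2⟩ := hz i p1 (hrt i hSi p1 hp1)
  obtain ⟨z1', z2'⟩ := hz i0 p1 (hrt i0 hS0 p1 hp1)
  have hn := near_of_four R hR (a i) (b i) (a i0) (b i0) (φ i) (φ i0) (hT i) (hT i0)
    p1.1 p2.1 p3.1 p4.1 (z i (pc R (φ i 3) p1.1)) (z i0 (pc R (φ i0 3) p1.1)) l12 l23 l34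
    (hgr i hSi p1 hp1).1 (hgr i hSi p4 hp4).1 (hgr i0 hS0 p1 hp1).1 (hgr i0 hS0 p4 hp4).1
    (heq p1 hp1) (heq p2 hp2) (heq p3 hp3) (heq p4 hp4) (hci p1 hp1 p4 hp4) (hc0 p1 hp1 p4 hp4)
    z1 z1' z2 z2'
  have hpc : pc R (φ i 3) p1.1 = pc R (φ i0 3) p1.1 := hn.1
  refine mem_filter.2 ⟨mem_univ _, hrt i hSi p1 hp1, hpc, ?_⟩
  rw [hpc] at hn
  exact hn

end Pool.Agent.H39.HA
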