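import Pool.Agent.H39.HA.Defs
/-!
# The parameters

`R = r ^ (-(1/3))`, `Y = 1 / (R u)`. `R ≥ 1` as `r ≤ u ≤ 1` (`r ^ 2 = (h u) u ^ 2 ≤ u ^ 2`). From `R ^ 3 r = 1`, `r ^ 2 = h u ^ 3`: `R ^ 6 h u ^ 3 = 1`. (a) `(√h R ^ 2 u) ^ 6 = h ^ 3 R ^ 12 u ^ 6 = h`, so it equals `h ^ (1/6)` (or compare 6th
powers). (b) `(2 ^ j) ^ 4 = 16 ^ j < h / u` and `(2 ^ j R u) ^ 4 < (h / u) R ^ 4 u ^ 4 = R ^ 4 h u ^ 3 = R ^ (-2) ≤ 1`, so `2 ^ j ≤ Y`. (c) `(8 ^ j R ^ 2 u ^ 2) ^ 12 = (16 ^ j) ^ 9 R ^ 24 u ^ 24 ≤ (h / u) ^ 9 h ^ (-4) u ^ 12 = h ^ 5 u ^ 3 ≤ h ^ 2 ≤ K ^ 24` (as `K ≥ h ^ (1/6)`), so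
`8 ^ j R ^ 2 u ^ 2 ≤ K ^ 2`, i.e. `8 ^ j ≤ (K Y) ^ 2`. `top_exists`: the least `J` with `h / u ≤ 16 ^ J` (`Nat.find`); for `j < J`: `16 ^ j < h / u`, `(2 ^ j u) ^ 4 < h u ^ 3 ≤ 1`; `J = 0` or `2 ^ J u = 2 (2 ^ (J - 1) u) ≤ 2`. `bm_exists`: the least `bm` with
`2 R ≤ 2 ^ bm`.
-/

set_option autoImplicit false

namespace Pool.Agent.H39.HA

open Finset
open scoped Classical

private theorem Par_sq {x y : ℝ} (hxy : x ^ 2 ≤ y ^ 2) (hy : 0 ≤ y) : x ≤ y :=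
  abs_le_of_sq_le_sq' hxy hy |>.2

theorem par (h : ℕ) (r u : ℝ) (hh : 1 ≤ h) (hr : 0 < r) (hu : 0 < u) (hru : r ^ 2 = h * u ^ 3)
    (hhu : h * u ≤ 1) :
    ∃ R Y : ℝ, 1 ≤ R ∧ R ^ 3 * r = 1 ∧ 0 < Y ∧ R * Y * u = 1 ∧
      Real.sqrt h * R ^ 2 * u ≤ (h : ℝ) ^ (1 / 6 : ℝ) ∧
      ∀ (K : ℝ) (j : ℕ), (h : ℝ) ^ (1 / 6 : ℝ) ≤ K → (16 : ℝ) ^ j < h / u →
        2 ^ j ≤ Y ∧ 8 ^ j ≤ (K * Y) ^ 2 := by
  have hh' : (1 : ℝ) ≤ h := by exact_mod_cast hh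
  have hh0 : (0 : ℝ) < h := by linarith
  have hu1 : u ≤ 1 := by nlinarith
  have hru' : r ≤ u := by
    refine Par_sq ?_ hu.le
    rw [hru]
    have h1 : (h : ℝ) * u ^ 3 = (h * u) * u ^ 2 := by ring
    rw [h1]
    have h2 : (h * u : ℝ) * u ^ 2 ≤ 1 * u ^ 2 := mul_le_mul_of_nonneg_right hhu (by positivity)
    linarith
  have hr1 : r ≤ 1 := hru'.trans hu1
  obtain ⟨R, hRdef⟩ : ∃ R : ℝ, R = r ^ (-(1 / 3) : ℝ) := ⟨_, rfl⟩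
  have hR0 : 0 < R := by
    rw [hRdef]
    exact Real.rpow_pos_of_pos hr _
  have hR1 : 1 ≤ R := by
    rw [hRdef]
    exact Real.one_le_rpow_of_pos_of_le_one_of_nonpos hr hr1 (by norm_num)
  have hR3 : R ^ 3 * r = 1 := by
    have h1 : R ^ 3 = r ^ (-1 : ℝ) := by
      rw [hRdef, ← Real.rpow_natCast, ← Real.rpow_mul hr.le]
      norm_num
    rw [h1, Real.rpow_neg_one, inv_mul_cancel₀ hr.ne']
  have hR6 : R ^ 6 * (h * u ^ 3) = 1 := by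
    rw [← hru]
    have h1 : R ^ 6 * r ^ 2 = (R ^ 3 * r) ^ 2 := by ring
    rw [h1, hR3, one_pow]
  obtain ⟨a, hadef⟩ : ∃ a : ℝ, a = (h : ℝ) ^ (1 / 6 : ℝ) := ⟨_, rfl⟩
  have ha0 : 0 < a := by
    rw [hadef]
    exact Real.rpow_pos_of_pos hh0 _
  have ha6 : a ^ 6 = h := by
    rw [hadef, ← Real.rpow_natCast, ← Real.rpow_mul hh0.le]
    norm_num
  refine ⟨R, 1 / (R * u), hR1, hR3, by positivity, by field_simp, ?_, ?_⟩
  · rw [← hadef]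
    refine (pow_le_pow_iff_left₀ (by positivity) ha0.le (by norm_num : (6 : ℕ) ≠ 0)).1 ?_
    have h1 : Real.sqrt h ^ 6 = (h : ℝ) ^ 3 := by
      have h2 : Real.sqrt h ^ 6 = (Real.sqrt h ^ 2) ^ 3 := by ring
      rw [h2, Real.sq_sqrt hh0.le]
    have h3 : (Real.sqrt h * R ^ 2 * u) ^ 6 = h := by
      have h4 : (Real.sqrt h * R ^ 2 * u) ^ 6 = Real.sqrt h ^ 6 * R ^ 12 * u ^ 6 := by ring
      rw [h4, h1]
      have h5 : (h : ℝ) ^ 3 * R ^ 12 * u ^ 6 = h * (R ^ 6 * (h * u ^ 3)) ^ 2 := by ring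
      rw [h5, hR6]
      ring
    rw [h3, ha6]
  · intro K j hK hj
    rw [← hadef] at hK
    have hK0 : 0 < K := lt_of_lt_of_le ha0 hK
    have hRu : 0 < R * u := by positivity
    have hj' : (16 : ℝ) ^ j * u ≤ h := ((lt_div_iff₀ hu).1 hj).le
    constructor
    · rw [le_div_iff₀ hRu]
      refine (pow_le_one_iff_of_nonneg (by positivity) (by norm_num : (4 : ℕ) ≠ 0)).1 ?_
      have e1 : ((2 : ℝ) ^ j * (R * u)) ^ 4 = ((16 : ℝ) ^ j * u) * (R ^ 4 * u ^ 3) := by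
        have e2 : (16 : ℝ) ^ j = ((2 : ℝ) ^ j) ^ 4 := by
          rw [← pow_mul, mul_comm j 4, pow_mul]
          norm_num
        rw [e2]
        ring
      rw [e1]
      have e3 : ((16 : ℝ) ^ j * u) * (R ^ 4 * u ^ 3) ≤ h * (R ^ 4 * u ^ 3) :=
        mul_le_mul_of_nonneg_right hj' (by positivity)
      have e4 : (h : ℝ) * (R ^ 4 * u ^ 3) * R ^ 2 = 1 := by
        rw [← hR6]
        ring
      have e5 : (h : ℝ) * (R ^ 4 * u ^ 3) ≤ h * (R ^ 4 * u ^ 3) * R ^ 2 := by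
        have e6 : (1 : ℝ) ≤ R ^ 2 := one_le_pow₀ hR1
        have e7 : (0 : ℝ) ≤ h * (R ^ 4 * u ^ 3) := by positivity
        nlinarith
      linarith
    · have e0 : (K * (1 / (R * u))) ^ 2 = K ^ 2 / (R * u) ^ 2 := by
        rw [mul_one_div, div_pow]
      rw [e0, le_div_iff₀ (by positivity)]
      refine (pow_le_pow_iff_left₀ (by positivity) (by positivity) (by norm_num : (12 : ℕ) ≠ 0)).1 ?_
      have e1 : ((8 : ℝ) ^ j * (R * u) ^ 2) ^ 12 =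
          ((16 : ℝ) ^ j * u) ^ 9 * (R ^ 24 * u ^ 15) := by
        have e2 : (16 : ℝ) ^ j = ((2 : ℝ) ^ j) ^ 4 := by
          rw [← pow_mul, mul_comm j 4, pow_mul]
          norm_num
        have e3 : (8 : ℝ) ^ j = ((2 : ℝ) ^ j) ^ 3 := by
          rw [← pow_mul, mul_comm j 3, pow_mul]
          norm_num
        rw [e2, e3]
        ring
      rw [e1]
      have e4 : ((16 : ℝ) ^ j * u) ^ 9 * (R ^ 24 * u ^ 15) ≤ (h : ℝ) ^ 9 * (R ^ 24 * u ^ 15) :=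
        mul_le_mul_of_nonneg_right (pow_le_pow_left₀ (by positivity) hj' 9) (by positivity)
      have e5 : (h : ℝ) ^ 9 * (R ^ 24 * u ^ 15) = h ^ 2 * (h * u) ^ 3 * (R ^ 6 * (h * u ^ 3)) ^ 4 := by
        ring
      rw [hR6, one_pow, mul_one] at e5
      have e6 : (h : ℝ) ^ 2 * (h * u) ^ 3 ≤ h ^ 2 * 1 :=
        mul_le_mul_of_nonneg_left (pow_le_one₀ (by positivity) hhu) (by positivity)
      have e7 : (h : ℝ) ^ 2 ≤ h ^ 4 := pow_le_pow_right₀ hh' (by norm_num)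
      have e8 : (h : ℝ) ^ 4 ≤ (K ^ 2) ^ 12 := by
        have e9 : (h : ℝ) ^ 4 = a ^ 24 := by
          rw [← ha6]
          ring
        rw [e9, ← pow_mul]
        exact pow_le_pow_left₀ ha0.le hK _
      linarith

theorem bm_exists (R : ℝ) (hR : 1 ≤ R) : ∃ bm : ℕ, 2 * R ≤ 2 ^ bm ∧ (2 : ℝ) ^ bm ≤ 4 * R := by
  have hex : ∃ n : ℕ, 2 * R ≤ (2 : ℝ) ^ n := by
    obtain ⟨n, hn⟩ := pow_unbounded_of_one_lt (2 * R) (by norm_num : (1 : ℝ) < 2)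
    exact ⟨n, hn.le⟩
  refine ⟨Nat.find hex, Nat.find_spec hex, ?_⟩
  rcases Nat.eq_zero_or_pos (Nat.find hex) with h0 | h0
  · rw [h0, pow_zero]
    linarith
  · have h1 := Nat.find_min hex (Nat.sub_lt h0 one_pos)
    rw [not_le] at h1
    have h2 : (2 : ℝ) ^ Nat.find hex = 2 * 2 ^ (Nat.find hex - 1) := by
      rw [← pow_succ', Nat.sub_add_cancel h0]
    rw [h2]
    linarith

theorem top_exists (h : ℕ) (u : ℝ) (hh : 1 ≤ h) (hu : 0 < u) (hhu : h * u ≤ 1) :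
    ∃ J : ℕ, (h : ℝ) / u ≤ 16 ^ J ∧ (2 : ℝ) ^ J * u ≤ 2 ∧
      ∀ j < J, (16 : ℝ) ^ j < h / u ∧ (2 : ℝ) ^ j * u ≤ 1 := by
  have hh' : (1 : ℝ) ≤ h := by exact_mod_cast hh
  have hu1 : u ≤ 1 := by nlinarith
  have hex : ∃ n : ℕ, (h : ℝ) / u ≤ 16 ^ n := by
    obtain ⟨n, hn⟩ := pow_unbounded_of_one_lt ((h : ℝ) / u) (by norm_num : (1 : ℝ) < 16)
    exact ⟨n, hn.le⟩
  have key : ∀ j < Nat.find hex, (16 : ℝ) ^ j < h / u ∧ (2 : ℝ) ^ j * u ≤ 1 := by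
    intro j hj
    have h1 := Nat.find_min hex hj
    rw [not_le] at h1
    refine ⟨h1, ?_⟩
    have h2 : (16 : ℝ) ^ j * u ≤ h := ((lt_div_iff₀ hu).1 h1).le
    refine (pow_le_one_iff_of_nonneg (by positivity) (by norm_num : (4 : ℕ) ≠ 0)).1 ?_
    have e1 : ((2 : ℝ) ^ j * u) ^ 4 = ((16 : ℝ) ^ j * u) * u ^ 3 := by
      have e2 : (16 : ℝ) ^ j = ((2 : ℝ) ^ j) ^ 4 := by
        rw [← pow_mul, mul_comm j 4, pow_mul]
        norm_num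
      rw [e2]
      ring
    rw [e1]
    have e3 : ((16 : ℝ) ^ j * u) * u ^ 3 ≤ h * u ^ 3 :=
      mul_le_mul_of_nonneg_right h2 (by positivity)
    have e4 : (h : ℝ) * u ^ 3 = (h * u) * u ^ 2 := by ring
    have e5 : (h * u : ℝ) * u ^ 2 ≤ 1 * 1 :=
      mul_le_mul hhu (pow_le_one₀ hu.le hu1) (by positivity) (by norm_num)
    linarith
  refine ⟨Nat.find hex, Nat.find_spec hex, ?_, key⟩
  rcases Nat.eq_zero_or_pos (Nat.find hex) with h0 | h0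
  · rw [h0, pow_zero]
    linarith
  · have h1 := (key _ (Nat.sub_lt h0 one_pos)).2
    have h2 : (2 : ℝ) ^ Nat.find hex = 2 * 2 ^ (Nat.find hex - 1) := by
      rw [← pow_succ', Nat.sub_add_cancel h0]
    rw [h2]
    linarith

end Pool.Agent.H39.HA
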