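import Pool.Agent.H39.HA.LenL
import Pool.Agent.H39.HA.PcL
/-!
# Points of very high level

Let `X+` be the points `p` of `P` on the curve with `lv (φ 3 p.1) > bm`, `X-` those with `lv (φ 3 p.1) < -bm`. Take `p, q ∈ X+`, `p.1 ≤ q.1`: `φ 3 ≥ 64 ^ bm` on `Icc p.1 q.1` (`lv_pos`, monotonicity of `φ 3`: the minimum of
`φ 3` over the interval is at an end), so `q.1 - p.1 ≤ 4 / 8 ^ bm ≤ r` (`8 ^ bm ≥ (2 R) ^ 3 = 8 R ^ 3`, `R ^ 3 * r = 1`), and `|q.2 - p.2| ≤ q.1 - p.1` (mean value inequality, `|φ 1| ≤ 1`). So `X+` is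
contained in a closed square of side `r` (take the minimal abscissa and the minimal ordinate), at most `h` points. The same for `X-`.
-/

set_option autoImplicit false

namespace Pool.Agent.H39.HA

open Finset Pool.Agent.H39.HG
open scoped Classical

private theorem TopL_side (a b R r : ℝ) (hR : 1 ≤ R) (hr : R ^ 3 * r = 1) (φ : ℕ → ℝ → ℝ)
    (hT : Tame a b φ) (bm : ℕ) (hbm : 2 * R ≤ 2 ^ bm) (h : ℕ) (P X : Finset (ℝ × ℝ))
    (hP : Hom h r P) (hXP : X ⊆ P) (hX : ∀ p ∈ X, p ∈ crv a b (φ 0))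
    (hlen : ∀ p ∈ X, ∀ q ∈ X, p.1 ≤ q.1 → 8 ^ bm * (q.1 - p.1) ≤ (4 : ℝ)) : X.card ≤ h := by
  rcases X.eq_empty_or_nonempty with rfl | hne
  · simp
  have hR3 : 0 < R ^ 3 := by positivity
  have hr0 : 0 < r := by
    by_contra h0
    have : R ^ 3 * r ≤ 0 := mul_nonpos_of_nonneg_of_nonpos hR3.le (not_lt.1 h0)
    linarith
  have h8 : 8 * R ^ 3 ≤ (8 : ℝ) ^ bm := by
    have e1 : (8 : ℝ) ^ bm = ((2 : ℝ) ^ bm) ^ 3 := by
      rw [← pow_mul, mul_comm, pow_mul]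
      norm_num
    have e2 : 8 * R ^ 3 = (2 * R) ^ 3 := by ring
    rw [e1, e2]
    exact pow_le_pow_left₀ (by linarith) hbm 3
  have h8r : (8 : ℝ) ≤ 8 ^ bm * r := by
    have : 8 * R ^ 3 * r ≤ (8 : ℝ) ^ bm * r := mul_le_mul_of_nonneg_right h8 hr0.le
    have e : 8 * R ^ 3 * r = 8 := by rw [mul_assoc, hr, mul_one]
    linarith
  have h80 : (0 : ℝ) < 8 ^ bm := by positivity
  have hfst : ∀ p ∈ X, ∀ q ∈ X, q.1 - p.1 ≤ r := by
    intro p hp q hq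
    rcases le_total p.1 q.1 with h1 | h1
    · have h2 := hlen p hp q hq h1
      by_contra h3
      have h4 : (8 : ℝ) ^ bm * r < 8 ^ bm * (q.1 - p.1) := mul_lt_mul_of_pos_left (not_le.1 h3) h80
      linarith
    · linarith
  have hmv : ∀ p ∈ X, ∀ q ∈ X, q.2 - p.2 ≤ r := by
    intro p hp q hq
    have hp' := hX p hp
    have hq' := hX q hq
    have h1 : ‖φ 0 q.1 - φ 0 p.1‖ ≤ 1 * ‖q.1 - p.1‖ :=
      Convex.norm_image_sub_le_of_norm_hasDerivWithin_le (s := Set.Ioo a b)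
        (fun x hx => (hT.1 0 (by norm_num) x hx).hasDerivWithinAt)
        (fun x hx => by
          rw [Real.norm_eq_abs]
          exact hT.2.1 x hx) (convex_Ioo a b) ⟨hp'.1.1, hp'.1.2⟩ ⟨hq'.1.1, hq'.1.2⟩
    rw [one_mul, Real.norm_eq_abs, Real.norm_eq_abs, hp'.2.2, hq'.2.2] at h1
    have h2 : |q.1 - p.1| ≤ r := abs_le.2 ⟨by linarith [hfst q hq p hp], hfst p hp q hq⟩
    exact (le_abs_self _).trans (h1.trans h2)
  obtain ⟨p0, hp0, hmin0⟩ := X.exists_min_image (fun p => p.1) hne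
  obtain ⟨p1, hp1, hmin1⟩ := X.exists_min_image (fun p => p.2) hne
  refine (card_le_card ?_).trans (hP p0.1 p1.2)
  intro q hq
  rw [mem_filter]
  refine ⟨hXP hq, ⟨hmin0 q hq, ?_⟩, hmin1 q hq, ?_⟩
  · linarith [hfst p0 hp0 q hq]
  · linarith [hmv p1 hp1 q hq]

theorem top_pts (a b R r : ℝ) (hR : 1 ≤ R) (hr : R ^ 3 * r = 1) (φ : ℕ → ℝ → ℝ)
    (hT : Tame a b φ) (bm : ℕ) (hbm : 2 * R ≤ 2 ^ bm) (h : ℕ) (P : Finset (ℝ × ℝ))
    (hP : Hom h r P) :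
    (P.filter fun p => p ∈ crv a b (φ 0) ∧ bm < (lv (φ 3 p.1)).natAbs).card ≤ 2 * h := by
  have hX1 : (P.filter fun p => p ∈ crv a b (φ 0) ∧ (bm : ℤ) < lv (φ 3 p.1)).card ≤ h := by
    refine TopL_side a b R r hR hr φ hT bm hbm h P _ hP (filter_subset _ _)
      (fun p hp => (mem_filter.1 hp).2.1) ?_
    intro p hp q hq hpq
    obtain ⟨-, hp1, hp2⟩ := mem_filter.1 hp
    obtain ⟨-, hq1, hq2⟩ := mem_filter.1 hq
    have hpI : p.1 ∈ Set.Ioo a b := ⟨hp1.1.1, hp1.1.2⟩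
    have hqI : q.1 ∈ Set.Ioo a b := ⟨hq1.1.1, hq1.1.2⟩
    refine len_level a b φ hT bm p.1 q.1 hpq hpI hqI (Or.inl fun t ht => ?_)
    have htI : t ∈ Set.Ioo a b := ⟨hpI.1.trans_le ht.1, ht.2.trans_lt hqI.2⟩
    rcases hT.2.2.2 with hm | hm
    · exact (lv_pos _ bm hp2).trans (hm hpI htI ht.1)
    · exact (lv_pos _ bm hq2).trans (hm htI hqI ht.2)
  have hX2 : (P.filter fun p => p ∈ crv a b (φ 0) ∧ lv (φ 3 p.1) < -(bm : ℤ)).card ≤ h := by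
    refine TopL_side a b R r hR hr φ hT bm hbm h P _ hP (filter_subset _ _)
      (fun p hp => (mem_filter.1 hp).2.1) ?_
    intro p hp q hq hpq
    obtain ⟨-, hp1, hp2⟩ := mem_filter.1 hp
    obtain ⟨-, hq1, hq2⟩ := mem_filter.1 hq
    have hpI : p.1 ∈ Set.Ioo a b := ⟨hp1.1.1, hp1.1.2⟩
    have hqI : q.1 ∈ Set.Ioo a b := ⟨hq1.1.1, hq1.1.2⟩
    refine len_level a b φ hT bm p.1 q.1 hpq hpI hqI (Or.inr fun t ht => ?_)
    have htI : t ∈ Set.Ioo a b := ⟨hpI.1.trans_le ht.1, ht.2.trans_lt hqI.2⟩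
    rcases hT.2.2.2 with hm | hm
    · exact (lv_neg _ bm hq2).trans (neg_le_neg (hm htI hqI ht.2))
    · exact (lv_neg _ bm hp2).trans (neg_le_neg (hm hpI htI ht.1))
  have hsub : (P.filter fun p => p ∈ crv a b (φ 0) ∧ bm < (lv (φ 3 p.1)).natAbs) ⊆
      (P.filter fun p => p ∈ crv a b (φ 0) ∧ (bm : ℤ) < lv (φ 3 p.1)) ∪
        P.filter fun p => p ∈ crv a b (φ 0) ∧ lv (φ 3 p.1) < -(bm : ℤ) := by
    intro p hp
    obtain ⟨h1, h2, h3⟩ := mem_filter.1 hp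
    rw [mem_union, mem_filter, mem_filter]
    rcases le_or_gt 0 (lv (φ 3 p.1)) with h4 | h4
    · exact Or.inl ⟨h1, h2, by omega⟩
    · exact Or.inr ⟨h1, h2, by omega⟩
  have h5 := (card_le_card hsub).trans (card_union_le _ _)
  omega

end Pool.Agent.H39.HA
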