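import Pool.Agent.H39.HA.HevC
import Pool.Agent.H39.HA.LocF
import Pool.Agent.H39.HA.TopL
import Pool.Agent.H39.HA.Par
/-!
# The light points

`bm` from `bm_exists`, `z` by choice: `z i τ = p.1` for some `p ∈ rt i` with `pc R (φ i 3) p.1 = τ` if there is one (otherwise `0`), `Pl i = lit P bm R a b φ z (4 C1) i`, `M = ⌊4 C1⌋₊ + 1`. The points of `P` on the arc `i` are in `rt i` or have level `> bm` (at most `2 h`, `top_pts`); the points of `rt i` are light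
or heavy, `heavy_count`. Times `u`: `2 h u ≤ 2 ≤ 2 h ^ (1/6)`, `√h R ^ 2 u ≤ h ^ (1/6)` (hypothesis `hRu`). `pc_count` for the abscissas of `Pl i`; `loc_free`: the card is `≤ 4 C1 < M`.
-/

set_option autoImplicit false

namespace Pool.Agent.H39.HA

open Finset Pool.Agent.H39.HG
open scoped Classical

private lemma LigA_rt {P : Finset (ℝ × ℝ)} {bm : ℕ} {a b : ℝ} {φ : ℕ → ℝ → ℝ} {p : ℝ × ℝ}
    (hp : p ∈ rt P bm a b φ) :
    p ∈ P ∧ p ∈ crv a b (φ 0) ∧ (lv (φ 3 p.1)).natAbs ≤ bm := by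
  unfold rt at hp
  exact Finset.mem_filter.mp hp

private lemma LigA_lit {P : Finset (ℝ × ℝ)} {bm : ℕ} {R : ℝ} {ι : Type} [Fintype ι]
    {a b : ι → ℝ} {φ : ι → ℕ → ℝ → ℝ} {z : ι → ℤ × ℤ → ℝ} {M : ℝ} {i : ι} {p : ℝ × ℝ}
    (hp : p ∈ lit P bm R a b φ z M i) :
    p ∈ P ∧ p ∈ crv (a i) (b i) (φ i 0) ∧ (lv (φ i 3 p.1)).natAbs ≤ bm := by
  unfold lit at hp
  exact LigA_rt (Finset.mem_filter.mp hp).1

private lemma LigA_base (P : Finset (ℝ × ℝ)) (bm : ℕ) (R : ℝ) {ι : Type}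
    (a b : ι → ℝ) (φ : ι → ℕ → ℝ → ℝ) :
    ∃ z : ι → ℤ × ℤ → ℝ, ∀ i, ∀ p ∈ rt P bm (a i) (b i) (φ i),
      z i (pc R (φ i 3) p.1) ∈ Set.Ioo (a i) (b i) ∧
      pc R (φ i 3) (z i (pc R (φ i 3) p.1)) = pc R (φ i 3) p.1 := by
  classical
  have key : ∀ (i : ι) (t : ℤ × ℤ), ∃ x : ℝ, ∀ p ∈ rt P bm (a i) (b i) (φ i),
      pc R (φ i 3) p.1 = t → x ∈ Set.Ioo (a i) (b i) ∧ pc R (φ i 3) x = t := by
    intro i t
    by_cases h : ∃ p ∈ rt P bm (a i) (b i) (φ i), pc R (φ i 3) p.1 = t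
    · obtain ⟨q, hq, hqt⟩ := h
      exact ⟨q.1, fun _ _ _ => ⟨(LigA_rt hq).2.1.1, hqt⟩⟩
    · exact ⟨0, fun p hp hpt => (h ⟨p, hp, hpt⟩).elim⟩
  choose z hz using key
  exact ⟨z, fun i p hp => hz i _ p hp rfl⟩

private lemma LigA_split (P : Finset (ℝ × ℝ)) (bm : ℕ) (R : ℝ) {ι : Type} [Fintype ι]
    (a b : ι → ℝ) (φ : ι → ℕ → ℝ → ℝ) (z : ι → ℤ × ℤ → ℝ) (M : ℝ) (i : ι) :
    (P.filter fun p => p ∈ crv (a i) (b i) (φ i 0)).card ≤
      (lit P bm R a b φ z M i).card +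
      ((rt P bm (a i) (b i) (φ i)).filter fun p =>
        M < ((nbr P bm R a b φ z i p).card : ℝ)).card +
      (P.filter fun p => p ∈ crv (a i) (b i) (φ i 0) ∧
        bm < (lv (φ i 3 p.1)).natAbs).card := by
  classical
  have hsub : (P.filter fun p => p ∈ crv (a i) (b i) (φ i 0)) ⊆
      (lit P bm R a b φ z M i ∪ ((rt P bm (a i) (b i) (φ i)).filter fun p =>
        M < ((nbr P bm R a b φ z i p).card : ℝ))) ∪
      (P.filter fun p => p ∈ crv (a i) (b i) (φ i 0) ∧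
        bm < (lv (φ i 3 p.1)).natAbs) := by
    intro p hp
    obtain ⟨hpP, hpc⟩ := Finset.mem_filter.mp hp
    by_cases hl : (lv (φ i 3 p.1)).natAbs ≤ bm
    · have hr : p ∈ rt P bm (a i) (b i) (φ i) := by
        unfold rt
        exact Finset.mem_filter.mpr ⟨hpP, hpc, hl⟩
      by_cases hm : ((nbr P bm R a b φ z i p).card : ℝ) ≤ M
      · refine Finset.mem_union_left _ (Finset.mem_union_left _ ?_)
        unfold lit
        exact Finset.mem_filter.mpr ⟨hr, hm⟩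
      · exact Finset.mem_union_left _ (Finset.mem_union_right _
          (Finset.mem_filter.mpr ⟨hr, not_le.mp hm⟩))
    · exact Finset.mem_union_right _ (Finset.mem_filter.mpr ⟨hpP, hpc, not_le.mp hl⟩)
  exact (Finset.card_le_card hsub).trans ((Finset.card_union_le _ _).trans
    (Nat.add_le_add_right (Finset.card_union_le _ _) _))

private lemma LigA_fin (A L H C' R u n : ℝ) {h : ℕ} (hC' : 0 ≤ C') (hu : 0 < u)
    (hh : (1 : ℝ) ≤ h) (hhu : (h : ℝ) * u ≤ 1) (hn : 0 ≤ n)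
    (hRu : Real.sqrt h * R ^ 2 * u ≤ (h : ℝ) ^ (1 / 6 : ℝ))
    (hH : H ≤ C' * (Real.sqrt h * R ^ 2 * n)) (hA : A ≤ L + H + 2 * h * n) :
    A * u ≤ L * u + (C' + 2) * ((h : ℝ) ^ (1 / 6 : ℝ) * n) := by
  have h6 : (1 : ℝ) ≤ (h : ℝ) ^ (1 / 6 : ℝ) := Real.one_le_rpow hh (by norm_num)
  have h1 : A * u ≤ (L + H + 2 * h * n) * u := mul_le_mul_of_nonneg_right hA hu.le
  have h2 : H * u ≤ C' * (Real.sqrt h * R ^ 2 * n) * u := mul_le_mul_of_nonneg_right hH hu.le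
  have h3 : C' * n * (Real.sqrt h * R ^ 2 * u) ≤ C' * n * (h : ℝ) ^ (1 / 6 : ℝ) :=
    mul_le_mul_of_nonneg_left hRu (mul_nonneg hC' hn)
  have h4 : 2 * n * ((h : ℝ) * u) ≤ 2 * n * 1 :=
    mul_le_mul_of_nonneg_left hhu (by linarith)
  have h5 : 2 * n * 1 ≤ 2 * n * (h : ℝ) ^ (1 / 6 : ℝ) :=
    mul_le_mul_of_nonneg_left h6 (by linarith)
  nlinarith [h1, h2, h3, h4, h5]

theorem light (s : ℕ) (hs : 2 ≤ s) (C1 κ0 : ℝ) (hC1 : 0 ≤ C1) (hκ0 : 0 ≤ κ0) :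
    ∃ (C : ℝ) (M : ℕ), 0 ≤ C ∧ ∀ (R r u : ℝ), 1 ≤ R → R ^ 3 * r = 1 → 0 < u →
    ∀ (h : ℕ), 1 ≤ h → h * u ≤ 1 → Real.sqrt h * R ^ 2 * u ≤ (h : ℝ) ^ (1 / 6 : ℝ) →
    ∀ (P : Finset (ℝ × ℝ)), Hom h r P → ∀ (ι : Type) [Fintype ι]
    (a b : ι → ℝ) (φ : ι → ℕ → ℝ → ℝ), (∀ i, Tame (a i) (b i) (φ i)) →
    PSR P (fun i => P.filter fun p => p ∈ crv (a i) (b i) (φ i 0)) s C1 κ0 →
    ∃ Pl : ι → Finset (ℝ × ℝ), (∀ i, Pl i ⊆ P) ∧ (∀ i, ∀ p ∈ Pl i, p ∈ crv (a i) (b i) (φ i 0)) ∧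
      (∑ i, ((P.filter fun p => p ∈ crv (a i) (b i) (φ i 0)).card : ℝ)) * u ≤
        (∑ i, ((Pl i).card : ℝ)) * u + C * ((h : ℝ) ^ (1 / 6 : ℝ) * Fintype.card ι) ∧
      (∀ i, (((Pl i).image fun p => pc R (φ i 3) p.1).card : ℝ) ≤ 100 * R) ∧
      ∀ S : Finset (ℝ × ℝ), S.card = 4 → (univ.filter fun i => S ⊆ Pl i ∧
        ∀ p ∈ S, ∀ q ∈ S, pc R (φ i 3) p.1 = pc R (φ i 3) q.1).card < M := by
  classical
  obtain ⟨C', hC', hH⟩ := heavy_count s hs C1 κ0 hC1 hκ0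
  refine ⟨C' + 2, ⌊4 * C1⌋₊ + 1, by linarith, ?_⟩
  intro R r u hR hr hu h hh hhu hRu P hP ι _ a b φ hT hPS
  obtain ⟨bm, hbm1, hbm2⟩ := bm_exists R hR
  obtain ⟨z, hz⟩ := LigA_base P bm R a b φ
  refine ⟨fun i => lit P bm R a b φ z (4 * C1) i, ?_, ?_, ?_, ?_, ?_⟩
  · intro i p hp
    exact (LigA_lit hp).1
  · intro i p hp
    exact (LigA_lit hp).2.1
  · have hheavy := hH R r hR hr bm hbm2 h hh P hP ι a b φ z hT hz hPS
    have hcard : ∀ i, ((P.filter fun p => p ∈ crv (a i) (b i) (φ i 0)).card : ℝ) ≤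
        ((lit P bm R a b φ z (4 * C1) i).card : ℝ) +
        (((rt P bm (a i) (b i) (φ i)).filter fun p =>
          4 * C1 < ((nbr P bm R a b φ z i p).card : ℝ)).card : ℝ) + 2 * h := by
      intro i
      have htop := top_pts (a i) (b i) R r hR hr (φ i) (hT i) bm hbm1 h P hP
      have h1 := LigA_split P bm R a b φ z (4 * C1) i
      have h2 : (P.filter fun p => p ∈ crv (a i) (b i) (φ i 0)).card ≤
          (lit P bm R a b φ z (4 * C1) i).card +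
          ((rt P bm (a i) (b i) (φ i)).filter fun p =>
            4 * C1 < ((nbr P bm R a b φ z i p).card : ℝ)).card + 2 * h := by
        omega
      exact_mod_cast h2
    have hsum : (∑ i, ((P.filter fun p => p ∈ crv (a i) (b i) (φ i 0)).card : ℝ)) ≤
        (∑ i, ((lit P bm R a b φ z (4 * C1) i).card : ℝ)) +
        (∑ i, (((rt P bm (a i) (b i) (φ i)).filter fun p =>
          4 * C1 < ((nbr P bm R a b φ z i p).card : ℝ)).card : ℝ)) +
          2 * h * Fintype.card ι := by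
      calc (∑ i, ((P.filter fun p => p ∈ crv (a i) (b i) (φ i 0)).card : ℝ))
          ≤ ∑ i, (((lit P bm R a b φ z (4 * C1) i).card : ℝ) +
            (((rt P bm (a i) (b i) (φ i)).filter fun p =>
              4 * C1 < ((nbr P bm R a b φ z i p).card : ℝ)).card : ℝ) + 2 * h) :=
            Finset.sum_le_sum fun i _ => hcard i
        _ = _ := by
          rw [Finset.sum_add_distrib, Finset.sum_add_distrib, Finset.sum_const,
            Finset.card_univ, nsmul_eq_mul]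
          ring
    exact LigA_fin _ _ _ _ _ _ _ hC' hu (by exact_mod_cast hh) hhu (Nat.cast_nonneg _)
      hRu hheavy hsum
  · intro i
    have h1 : ((lit P bm R a b φ z (4 * C1) i).image fun p => pc R (φ i 3) p.1) =
        ((lit P bm R a b φ z (4 * C1) i).image Prod.fst).image (pc R (φ i 3)) := by
      rw [Finset.image_image]
      rfl
    have h2 := pc_count (a i) (b i) R hR (φ i) (hT i) bm hbm2
      ((lit P bm R a b φ z (4 * C1) i).image Prod.fst) (by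
        intro x hx
        obtain ⟨p, hp, rfl⟩ := Finset.mem_image.mp hx
        have h3 := LigA_lit hp
        exact ⟨h3.2.1.1, h3.2.1.2.1, h3.2.2⟩)
    rw [← h1] at h2
    exact h2
  · intro S hS
    have h1 := loc_free R (by linarith) bm P ι a b φ z hT hz (4 * C1) (by linarith) S hS
    have h2 := Nat.le_floor h1
    exact Nat.lt_succ_of_le h2

end Pool.Agent.H39.HA
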