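import Mathlib

/-!
# Few points in poor impure cells

For a value `w` of `pt` on `X` let `v_w` be a point of `X` with `pt v_w = w` and minimal `pos`. Let `x` be in the set, with `j`, `y`, `z`; by symmetry `pos y ≤ pos z`; put `w = pt z`. If `pos v_w ≤ pos y` then (`hconv` for `v_w, y, z`) `pt y = w`, a
contradiction; so `pos y < pos v_w ≤ pos z`, `f y ≤ f v_w ≤ f z`, and `f v_w / 2 ^ j = f x / 2 ^ j` (`Nat.div_le_div_right`). So `x` is in the cell of level `j` of `v_w`, which has `< κ` points. For fixed `w` let `j_w` be the largest `j ≤ J` such that the cell of level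
`j` of `v_w` has `< κ` points; the cells of `v_w` are nested (`Nat.div_div_eq_div_mul`, `pow_add`), so all these `x` are in one cell with `< κ` points. Sum over the at most `T` values `w` (`card_biUnion_le`).
-/

set_option autoImplicit false

namespace Pool.Agent.H39.HA

open Finset
open scoped Classical

theorem imp_card {α τ : Type} (X : Finset α) (pos : α → ℝ) (f : α → ℕ) (pt : α → τ)
    (hmono : ∀ x ∈ X, ∀ y ∈ X, pos x ≤ pos y → f x ≤ f y)
    (hconv : ∀ x ∈ X, ∀ y ∈ X, ∀ z ∈ X, pos x ≤ pos y → pos y ≤ pos z → pt x = pt z → pt y = pt x)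
    (T κ : ℝ) (hT : ((X.image pt).card : ℝ) ≤ T) (hκ : 0 ≤ κ) (J : ℕ) :
    ((X.filter fun x => ∃ j ≤ J, (∃ y ∈ X, ∃ z ∈ X, f y / 2 ^ j = f x / 2 ^ j ∧
      f z / 2 ^ j = f x / 2 ^ j ∧ pt y ≠ pt z) ∧
      ((X.filter fun y => f y / 2 ^ j = f x / 2 ^ j).card : ℝ) < κ).card : ℝ) ≤ T * κ := by
  rcases X.eq_empty_or_nonempty with hX | hX
  · subst hX
    have hT0 : (0 : ℝ) ≤ T := le_trans (by positivity) hT
    simpa using mul_nonneg hT0 hκ
  obtain ⟨x0, hx0⟩ := hX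
  have : Nonempty α := ⟨x0⟩
  have hv : ∀ w ∈ X.image pt, ∃ v ∈ X, pt v = w ∧ ∀ u ∈ X, pt u = w → pos v ≤ pos u := by
    intro w hw
    obtain ⟨u, hu, huw⟩ := Finset.mem_image.1 hw
    obtain ⟨v, hv, hmin⟩ := Finset.exists_min_image (X.filter fun u => pt u = w) pos
      ⟨u, Finset.mem_filter.2 ⟨hu, huw⟩⟩
    rw [Finset.mem_filter] at hv
    exact ⟨v, hv.1, hv.2, fun u hu huw => hmin u (Finset.mem_filter.2 ⟨hu, huw⟩)⟩
  choose! v hvX hvw hvm using hv
  have hnest : ∀ (a b i j : ℕ), i ≤ j → a / 2 ^ i = b / 2 ^ i → a / 2 ^ j = b / 2 ^ j := by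
    intro a b i j hij hab
    obtain ⟨k, rfl⟩ := Nat.exists_eq_add_of_le hij
    rw [pow_add, ← Nat.div_div_eq_div_mul, ← Nat.div_div_eq_div_mul, hab]
  have hkey : ∀ y ∈ X, ∀ z ∈ X, ∀ (x : α) (j : ℕ), pos y ≤ pos z → f y / 2 ^ j = f x / 2 ^ j →
      f z / 2 ^ j = f x / 2 ^ j → pt y ≠ pt z → f (v (pt z)) / 2 ^ j = f x / 2 ^ j := by
    intro y hy z hz x j hyz hfy hfz hne
    have hw : pt z ∈ X.image pt := Finset.mem_image_of_mem pt hz
    have h1 : pos (v (pt z)) ≤ pos z := hvm _ hw z hz rfl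
    have h2 : pos y ≤ pos (v (pt z)) := by
      by_contra hcon
      have h3 := hconv _ (hvX _ hw) y hy z hz (le_of_lt (not_le.1 hcon)) hyz (hvw _ hw)
      exact hne (h3.trans (hvw _ hw))
    have h4 := Nat.div_le_div_right (c := 2 ^ j) (hmono y hy _ (hvX _ hw) h2)
    have h5 := Nat.div_le_div_right (c := 2 ^ j) (hmono _ (hvX _ hw) z hz h1)
    omega
  have hsub : (X.filter fun x => ∃ j ≤ J, (∃ y ∈ X, ∃ z ∈ X, f y / 2 ^ j = f x / 2 ^ j ∧
      f z / 2 ^ j = f x / 2 ^ j ∧ pt y ≠ pt z) ∧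
      ((X.filter fun y => f y / 2 ^ j = f x / 2 ^ j).card : ℝ) < κ) ⊆
      (X.image pt).biUnion fun w => X.filter fun x => ∃ j ≤ J, f x / 2 ^ j = f (v w) / 2 ^ j ∧
        ((X.filter fun y => f y / 2 ^ j = f (v w) / 2 ^ j).card : ℝ) < κ := by
    intro x hx
    rw [Finset.mem_filter] at hx
    obtain ⟨hxX, j, hj, ⟨y, hy, z, hz, hfy, hfz, hne⟩, hc⟩ := hx
    rw [Finset.mem_biUnion]
    rcases le_total (pos y) (pos z) with h | h
    · have := hkey y hy z hz x j h hfy hfz hne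
      refine ⟨pt z, Finset.mem_image_of_mem pt hz, Finset.mem_filter.2 ⟨hxX, j, hj, this.symm, ?_⟩⟩
      rw [this]
      exact hc
    · have := hkey z hz y hy x j h hfz hfy hne.symm
      refine ⟨pt y, Finset.mem_image_of_mem pt hy, Finset.mem_filter.2 ⟨hxX, j, hj, this.symm, ?_⟩⟩
      rw [this]
      exact hc
  have hB : ∀ w ∈ X.image pt, ((X.filter fun x => ∃ j ≤ J, f x / 2 ^ j = f (v w) / 2 ^ j ∧
        ((X.filter fun y => f y / 2 ^ j = f (v w) / 2 ^ j).card : ℝ) < κ).card : ℝ) ≤ κ := by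
    intro w _
    by_cases hex : ∃ j ≤ J, ((X.filter fun y => f y / 2 ^ j = f (v w) / 2 ^ j).card : ℝ) < κ
    · obtain ⟨j1, hj1, hc1⟩ := hex
      obtain ⟨j0, hj0, hmax⟩ := Finset.exists_max_image ((Finset.range (J + 1)).filter fun j =>
        ((X.filter fun y => f y / 2 ^ j = f (v w) / 2 ^ j).card : ℝ) < κ) id
        ⟨j1, Finset.mem_filter.2 ⟨Finset.mem_range.2 (by omega), hc1⟩⟩
      rw [Finset.mem_filter] at hj0
      refine le_trans ?_ hj0.2.le
      norm_cast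
      refine Finset.card_le_card ?_
      intro x hx
      rw [Finset.mem_filter] at hx ⊢
      obtain ⟨hxX, j, hj, hfx, hc⟩ := hx
      have hle : j ≤ j0 := hmax j (Finset.mem_filter.2 ⟨Finset.mem_range.2 (by omega), hc⟩)
      exact ⟨hxX, hnest _ _ j j0 hle hfx⟩
    · rw [Finset.filter_eq_empty_iff.2]
      · simpa using hκ
      · rintro x _ ⟨j, hj, _, hc⟩
        exact hex ⟨j, hj, hc⟩
  calc ((X.filter fun x => ∃ j ≤ J, (∃ y ∈ X, ∃ z ∈ X, f y / 2 ^ j = f x / 2 ^ j ∧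
      f z / 2 ^ j = f x / 2 ^ j ∧ pt y ≠ pt z) ∧
      ((X.filter fun y => f y / 2 ^ j = f x / 2 ^ j).card : ℝ) < κ).card : ℝ)
      ≤ ((∑ w ∈ X.image pt, (X.filter fun x => ∃ j ≤ J, f x / 2 ^ j = f (v w) / 2 ^ j ∧
        ((X.filter fun y => f y / 2 ^ j = f (v w) / 2 ^ j).card : ℝ) < κ).card : ℕ) : ℝ) := by
        exact_mod_cast (Finset.card_le_card hsub).trans Finset.card_biUnion_le
    _ = ∑ w ∈ X.image pt, ((X.filter fun x => ∃ j ≤ J, f x / 2 ^ j = f (v w) / 2 ^ j ∧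
        ((X.filter fun y => f y / 2 ^ j = f (v w) / 2 ^ j).card : ℝ) < κ).card : ℝ) := by
        push_cast
        rfl
    _ ≤ ∑ w ∈ X.image pt, κ := Finset.sum_le_sum hB
    _ = ((X.image pt).card : ℝ) * κ := by rw [Finset.sum_const, nsmul_eq_mul]
    _ ≤ T * κ := mul_le_mul_of_nonneg_right hT hκ

end Pool.Agent.H39.HA
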