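import Pool.Agent.H39.HA.Defs
import Pool.Agent.H39.HG.Bad
import Pool.Agent.H39.HG.Crs
import Pool.Agent.H39.HG.TubS
import Pool.Agent.H39.HA.ImpC
/-!
# One curve

Compare with `one_curve` in `Pool/Agent/H39/HG/OneC.lean` and `one_curveB` in `Pool/Agent/H39/HG/OneCB.lean` (finished proofs; copy the parts). `f p = ⌊σ p / u⌋₊`, `cel u j σ p = f p / 2 ^ j`. `Bd` is the union of two sets. (1) `bad_card X f J M` with
`M = ⌊(S / u) / 2 ^ J⌋₊ + 1` (so `f p ≤ S / u < M 2 ^ J`): at most `M K 2 ^ J ≤ (S / u + 2 ^ J) K` points, times `u`: `≤ (S + 2) K`. (2) `imp_card X (·.1) f (pt ·.1)` with `κ = K Y`, `T`: at most `T K Y` points, times `u`: `≤ 100 K`. Let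
`p ∈ X \ Bd`, `t j = #(tA P u j p (m p))`. The cell of level `j ≤ J` of `p` is contained in this tube (two points of a cell have `|σ p - σ q| ≤ 2 ^ j u`, then `Lab`), and it has `≥ K 2 ^ j` points. `t 0 ≥ K ≥ C0`; `t J < C0 8 ^ J` by
`htop`. `crossing`: `j < J` with `C0 8 ^ j ≤ t j`, `t (j + 1) < C0 8 ^ (j + 1)`; the tube of level `j + 1` is `tB P u j p (m p)` (`2 * (2 ^ (j+1) u) = 4 * (2 ^ j u)`, ...). `K 2 ^ (j + 1) ≤ t (j + 1) < 8 C0 8 ^ j` gives `K < 4 C0 4 ^ j`. If the cell of level `j` is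
not pure then it has `≥ K Y` points by (2).
-/

set_option autoImplicit false

namespace Pool.Agent.H39.HA

open Finset Pool.Agent.H39.HG
open scoped Classical

private theorem OneD_close (d0 : ℝ) (hd0 : 0 < d0) (s t : ℝ) (hs : 0 ≤ s) (ht : 0 ≤ t) (j : ℕ)
    (h : ⌊s / d0⌋₊ / 2 ^ j = ⌊t / d0⌋₊ / 2 ^ j) : |s - t| < 2 ^ j * d0 := by
  have hs0 : 0 ≤ s / d0 := by positivity
  have ht0 : 0 ≤ t / d0 := by positivity
  set a := ⌊s / d0⌋₊ with ha
  set b := ⌊t / d0⌋₊ with hb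
  set v := b / 2 ^ j with hv
  have hpos : 0 < 2 ^ j := Nat.two_pow_pos j
  have a1 : v * 2 ^ j ≤ a := by rw [← h]; exact Nat.div_mul_le_self a (2 ^ j)
  have a2 : a < (v + 1) * 2 ^ j := by
    rw [← h]; exact (Nat.div_lt_iff_lt_mul hpos).mp (Nat.lt_succ_self _)
  have b1 : v * 2 ^ j ≤ b := Nat.div_mul_le_self b (2 ^ j)
  have b2 : b < (v + 1) * 2 ^ j := (Nat.div_lt_iff_lt_mul hpos).mp (Nat.lt_succ_self _)
  have a1' : (v : ℝ) * 2 ^ j ≤ a := by exact_mod_cast a1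
  have a2' : (a : ℝ) + 1 ≤ (v + 1) * 2 ^ j := by exact_mod_cast a2
  have b1' : (v : ℝ) * 2 ^ j ≤ b := by exact_mod_cast b1
  have b2' : (b : ℝ) + 1 ≤ (v + 1) * 2 ^ j := by exact_mod_cast b2
  have a3 : (a : ℝ) ≤ s / d0 := Nat.floor_le hs0
  have a4 : s / d0 < a + 1 := Nat.lt_floor_add_one _
  have b3 : (b : ℝ) ≤ t / d0 := Nat.floor_le ht0
  have b4 : t / d0 < b + 1 := Nat.lt_floor_add_one _
  have c1 : s / d0 - t / d0 < 2 ^ j := by nlinarith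
  have c2 : t / d0 - s / d0 < 2 ^ j := by nlinarith
  have e1 : s - t = (s / d0 - t / d0) * d0 := by field_simp
  rw [abs_lt]
  constructor
  · rw [e1]; nlinarith
  · rw [e1]; nlinarith

theorem one_curveD {τ : Type} (S C0 K Y T u : ℝ) (hS : 0 ≤ S) (hC0 : 1 ≤ C0) (hK : C0 ≤ K)
    (hu : 0 < u) (hY : 0 ≤ Y) (hTY : T * Y * u ≤ 100) (J : ℕ) (hJ : (2 : ℝ) ^ J * u ≤ 2)
    (P X : Finset (ℝ × ℝ)) (hXP : X ⊆ P) (U : Set (ℝ × ℝ)) (hXU : ∀ p ∈ X, p ∈ U)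
    (m σ : ℝ × ℝ → ℝ) (hL : Lab S U m σ) (hσ : ∀ p ∈ X, ∀ q ∈ X, p.1 ≤ q.1 → σ p ≤ σ q)
    (pt : ℝ → τ) (hconv : ∀ x ∈ X, ∀ y ∈ X, ∀ z ∈ X, x.1 ≤ y.1 → y.1 ≤ z.1 →
      pt x.1 = pt z.1 → pt y.1 = pt x.1)
    (hT : ((X.image fun p => pt p.1).card : ℝ) ≤ T)
    (htop : ∀ p ∈ X, ((tA P u J p (m p)).card : ℝ) < C0 * 8 ^ J) :
    ∃ Bd : Finset (ℝ × ℝ), (Bd.card : ℝ) * u ≤ (S + 102) * K ∧
      ∀ p ∈ X, p ∉ Bd → ∃ j < J, K < 4 * C0 * 4 ^ j ∧
        C0 * 8 ^ j ≤ ((tA P u j p (m p)).card : ℝ) ∧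
        ((tB P u j p (m p)).card : ℝ) ≤ 8 * (C0 * 8 ^ j) ∧
        (∀ q ∈ X, cel u j σ q = cel u j σ p → q ∈ tA P u j p (m p)) ∧
        K * 2 ^ j ≤ ((X.filter fun q => cel u j σ q = cel u j σ p).card : ℝ) ∧
        ((∀ q ∈ X, ∀ q' ∈ X, cel u j σ q = cel u j σ p → cel u j σ q' = cel u j σ p →
            pt q.1 = pt q'.1) ∨
          K * Y ≤ ((X.filter fun q => cel u j σ q = cel u j σ p).card : ℝ)) := by
  have hK0 : 0 ≤ K := by linarith
  let f : ℝ × ℝ → ℕ := fun p => ⌊σ p / u⌋₊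
  set M : ℕ := ⌊S / u / 2 ^ J⌋₊ + 1 with hM
  have hMr : (M : ℝ) = (⌊S / u / 2 ^ J⌋₊ : ℝ) + 1 := by rw [hM, Nat.cast_add, Nat.cast_one]
  have h2J : (0 : ℝ) < 2 ^ J := by positivity
  have hf : ∀ x ∈ X, f x < M * 2 ^ J := by
    intro x hx
    obtain ⟨⟨-, h0, h1⟩, -⟩ := hL x (hXU x hx)
    have h2 : 0 ≤ σ x / u := div_nonneg h0 hu.le
    have h3 : (f x : ℝ) ≤ σ x / u := Nat.floor_le h2
    have h4 : σ x / u ≤ S / u := div_le_div_of_nonneg_right h1 hu.le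
    have h5 : S / u / 2 ^ J < M := by
      rw [hMr]
      exact Nat.lt_floor_add_one _
    have h6 : S / u < M * 2 ^ J := (div_lt_iff₀ h2J).1 h5
    have h8 : (f x : ℝ) < (M : ℝ) * 2 ^ J := by linarith
    exact_mod_cast h8
  have hbad := bad_card X f J M hf K hK0
  have hmono : ∀ x ∈ X, ∀ y ∈ X, x.1 ≤ y.1 → f x ≤ f y := fun x hx y hy hxy =>
    Nat.floor_le_floor (div_le_div_of_nonneg_right (hσ x hx y hy hxy) hu.le)
  have himp := imp_card X (fun p => p.1) f (fun p => pt p.1) hmono hconv T (K * Y) hT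
    (mul_nonneg hK0 hY) J
  set B1 := X.filter fun x => ∃ j ≤ J,
      ((X.filter fun y => f y / 2 ^ j = f x / 2 ^ j).card : ℝ) < K * 2 ^ j with hB1
  set B2 := X.filter fun x => ∃ j ≤ J, (∃ y ∈ X, ∃ z ∈ X, f y / 2 ^ j = f x / 2 ^ j ∧
      f z / 2 ^ j = f x / 2 ^ j ∧ pt y.1 ≠ pt z.1) ∧
      ((X.filter fun y => f y / 2 ^ j = f x / 2 ^ j).card : ℝ) < K * Y with hB2
  refine ⟨B1 ∪ B2, ?_, ?_⟩
  · have h1 : ((B1 ∪ B2).card : ℝ) ≤ (B1.card : ℝ) + B2.card := by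
      exact_mod_cast card_union_le _ _
    have h2 : (B1.card : ℝ) * u ≤ (S + 2) * K := by
      have h3 : (M : ℝ) ≤ S / u / 2 ^ J + 1 := by
        rw [hMr]
        have h4 : 0 ≤ S / u / 2 ^ J := by positivity
        have := Nat.floor_le h4
        linarith
      have h5 : (M : ℝ) * 2 ^ J * u ≤ S + 2 := by
        have h6 : (M : ℝ) * (2 ^ J * u) ≤ (S / u / 2 ^ J + 1) * (2 ^ J * u) :=
          mul_le_mul_of_nonneg_right h3 (by positivity)
        have h7 : (S / u / 2 ^ J + 1) * (2 ^ J * u) = S + 2 ^ J * u := by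
          field_simp
        rw [h7] at h6
        linarith
      calc (B1.card : ℝ) * u ≤ M * (K * 2 ^ J) * u := mul_le_mul_of_nonneg_right hbad hu.le
        _ = (M * 2 ^ J * u) * K := by ring
        _ ≤ (S + 2) * K := mul_le_mul_of_nonneg_right h5 hK0
    have h3 : (B2.card : ℝ) * u ≤ 100 * K := by
      calc (B2.card : ℝ) * u ≤ T * (K * Y) * u := mul_le_mul_of_nonneg_right himp hu.le
        _ = (T * Y * u) * K := by ring
        _ ≤ 100 * K := mul_le_mul_of_nonneg_right hTY hK0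
    calc ((B1 ∪ B2).card : ℝ) * u ≤ ((B1.card : ℝ) + B2.card) * u :=
          mul_le_mul_of_nonneg_right h1 hu.le
      _ = (B1.card : ℝ) * u + B2.card * u := by ring
      _ ≤ (S + 2) * K + 100 * K := add_le_add h2 h3
      _ = (S + 102) * K := by ring
  · intro p hp hpB
    rw [mem_union, not_or] at hpB
    obtain ⟨hpB1, hpB2⟩ := hpB
    have hpU := hXU p hp
    obtain ⟨⟨hm1, hσ0, hσ1⟩, hLp⟩ := hL p hpU
    have hrich : ∀ j ≤ J, K * 2 ^ j ≤ ((X.filter fun y => f y / 2 ^ j = f p / 2 ^ j).card : ℝ) := by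
      intro j hj
      by_contra hc
      push Not at hc
      exact hpB1 (Finset.mem_filter.mpr ⟨hp, j, hj, hc⟩)
    have hcell : ∀ j : ℕ, ∀ q ∈ X, f q / 2 ^ j = f p / 2 ^ j → q ∈ tA P u j p (m p) := by
      intro j q hqX hqf
      obtain ⟨⟨-, hσq0, hσq1⟩, -⟩ := hL q (hXU q hqX)
      have hcl : |σ q - σ p| < 2 ^ j * u := OneD_close u hu (σ q) (σ p) hσq0 hσ0 j hqf
      obtain ⟨k1, -, k3⟩ := hLp q (hXU q hqX)
      have hcl' : |σ p - σ q| < 2 ^ j * u := by rw [abs_sub_comm]; exact hcl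
      have hd : 0 < 2 ^ j * u := mul_pos (pow_pos two_pos j) hu
      unfold tA tub
      rw [Finset.mem_filter]
      refine ⟨hXP hqX, ?_, ?_⟩
      · rw [abs_sub_comm]; linarith
      · have h5 : (σ p - σ q) ^ 2 ≤ (2 ^ j * u) ^ 2 := by
          rw [← sq_abs (σ p - σ q)]
          exact pow_le_pow_left₀ (abs_nonneg _) hcl'.le 2
        nlinarith [sq_nonneg (2 ^ j * u)]
    have hsub : ∀ j : ℕ, (X.filter fun y => f y / 2 ^ j = f p / 2 ^ j) ⊆ tA P u j p (m p) :=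
      fun j q hq => hcell j q (Finset.mem_filter.mp hq).1 (Finset.mem_filter.mp hq).2
    let t : ℕ → ℝ := fun j => ((tA P u j p (m p)).card : ℝ)
    have ht : ∀ j ≤ J, K * 2 ^ j ≤ t j := by
      intro j hj
      refine (hrich j hj).trans ?_
      exact Nat.cast_le.mpr (Finset.card_le_card (hsub j))
    have ht0 : C0 ≤ t 0 := by
      have := ht 0 (Nat.zero_le _)
      simp only [pow_zero, mul_one] at this
      linarith
    obtain ⟨j, hjJ, hj1, hj2⟩ := crossing t C0 J ht0 (htop p hp)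
    refine ⟨j, hjJ, ?_, hj1, ?_, fun q hq hqc => hcell j q hq hqc, hrich j hjJ.le, ?_⟩
    · have h1 := ht (j + 1) hjJ
      have h2 : K * 2 ^ (j + 1) < C0 * 8 ^ (j + 1) := lt_of_le_of_lt h1 hj2
      have h3 : (8 : ℝ) ^ (j + 1) = 4 * 4 ^ j * 2 ^ (j + 1) := by
        rw [show (8 : ℝ) = 4 * 2 by norm_num, mul_pow]; ring
      have h4 : (0 : ℝ) < 2 ^ (j + 1) := by positivity
      rw [h3] at h2
      have h5 : K * 2 ^ (j + 1) < (4 * C0 * 4 ^ j) * 2 ^ (j + 1) := by linarith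
      exact lt_of_mul_lt_mul_right h5 h4.le
    · have h1 : t (j + 1) = ((tB P u j p (m p)).card : ℝ) := by
        have e1 : 2 * ((2 : ℝ) ^ (j + 1) * u) = 4 * (2 ^ j * u) := by ring
        have e2 : 3 * ((2 : ℝ) ^ (j + 1) * u) ^ 2 = 12 * (2 ^ j * u) ^ 2 := by ring
        show ((tub P (2 * ((2 : ℝ) ^ (j + 1) * u)) (3 * ((2 : ℝ) ^ (j + 1) * u) ^ 2) p.1 p.2
          (m p)).card : ℝ) = _
        rw [e1, e2]
        rfl
      rw [← h1]
      have h2 : C0 * 8 ^ (j + 1) = 8 * (C0 * 8 ^ j) := by ring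
      rw [← h2]
      exact hj2.le
    · by_cases hpure : ∀ q ∈ X, ∀ q' ∈ X, cel u j σ q = cel u j σ p →
          cel u j σ q' = cel u j σ p → pt q.1 = pt q'.1
      · exact Or.inl hpure
      · right
        by_contra hc
        push Not at hc hpure
        obtain ⟨q, hq, q', hq', h1, h2, h3⟩ := hpure
        exact hpB2 (Finset.mem_filter.mpr ⟨hp, j, hjJ.le, ⟨q, hq, q', hq', h1, h2, h3⟩, hc⟩)

end Pool.Agent.H39.HA
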