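import Mathlib

/-!
# Disjoint open intervals around consecutive groups of points

Let `F` be the finite set of all abscissas of points of all the `X j` together with all `a j`, `b j`. There is `ε > 0` with `2 ε < |x - y|` for all `x ≠ y` in `F` (minimum of the positive
differences over the finite set `F.offDiag`, `Finset.exists_min_image`; if it is empty take `ε = 1`). If `X j` is not empty let `lo`, `hi` be the minimal and maximal abscissa of `X j` and
`a' j = lo - ε`, `b' j = hi + ε`; if `X j` is empty put `a' j = b' j = 0`. Then `Ioo (a' j) (b' j) ⊆ Ioo (a j) (b j)` (`a j < lo` and both are in `F`, so `a j < lo - 2 ε`), and for two indices whose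
sets are separated (all abscissas of `X i` smaller than all of `X j`) the intervals are disjoint (`hi_i + 2 ε < lo_j`).
-/

set_option autoImplicit false

namespace Pool.Agent.H39.HA

open Finset
open scoped Classical

theorem gap {J : Type} [Fintype J] (a b : J → ℝ) (X : J → Finset (ℝ × ℝ))
    (hX : ∀ j, ∀ p ∈ X j, a j < p.1 ∧ p.1 < b j) :
    ∃ a' b' : J → ℝ, (∀ j, Set.Ioo (a' j) (b' j) ⊆ Set.Ioo (a j) (b j)) ∧
      (∀ j, ∀ p ∈ X j, a' j < p.1 ∧ p.1 < b' j) ∧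
      ∀ i j, ((∀ p ∈ X i, ∀ q ∈ X j, p.1 < q.1) ∨ ∀ p ∈ X i, ∀ q ∈ X j, q.1 < p.1) →
        Disjoint (Set.Ioo (a' i) (b' i)) (Set.Ioo (a' j) (b' j)) := by
  obtain ⟨F, hFX, hFa, hFb⟩ : ∃ F : Finset ℝ, (∀ j, ∀ p ∈ X j, p.1 ∈ F) ∧ (∀ j, a j ∈ F) ∧ ∀ j, b j ∈ F := by
    refine ⟨((univ : Finset J).biUnion fun j => (X j).image Prod.fst) ∪ (univ.image a ∪ univ.image b), ?_, ?_, ?_⟩
    · intro j p hp
      exact mem_union_left _ (mem_biUnion.mpr ⟨j, mem_univ j, mem_image_of_mem _ hp⟩)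
    · intro j
      exact mem_union_right _ (mem_union_left _ (mem_image_of_mem _ (mem_univ j)))
    · intro j
      exact mem_union_right _ (mem_union_right _ (mem_image_of_mem _ (mem_univ j)))
  obtain ⟨ε, hε, hsep⟩ : ∃ ε : ℝ, 0 < ε ∧ ∀ x ∈ F, ∀ y ∈ F, x < y → 2 * ε < y - x := by
    by_cases hne : (F.offDiag).Nonempty
    · obtain ⟨⟨u, v⟩, huv, hmin⟩ := Finset.exists_min_image F.offDiag (fun p => |p.1 - p.2|) hne
      rw [mem_offDiag] at huv
      have hpos : 0 < |u - v| := abs_pos.mpr (sub_ne_zero.mpr huv.2.2)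
      refine ⟨|u - v| / 3, by positivity, fun x hx y hy hxy => ?_⟩
      have h1 : |u - v| ≤ |x - y| := hmin (x, y) (mem_offDiag.mpr ⟨hx, hy, hxy.ne⟩)
      rw [abs_sub_comm x y, abs_of_pos (sub_pos.mpr hxy)] at h1
      linarith
    · exact ⟨1, one_pos, fun x hx y hy hxy => (hne ⟨(x, y), mem_offDiag.mpr ⟨hx, hy, hxy.ne⟩⟩).elim⟩
  have hdata : ∀ j, ∃ c d : ℝ, Set.Ioo c d ⊆ Set.Ioo (a j) (b j) ∧ (∀ p ∈ X j, c < p.1 ∧ p.1 < d) ∧
      ((c = 0 ∧ d = 0) ∨ ∃ lo ∈ X j, ∃ hi ∈ X j, c = lo.1 - ε ∧ d = hi.1 + ε) := by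
    intro j
    by_cases hj : (X j).Nonempty
    · obtain ⟨lo, hlo, hlo'⟩ := Finset.exists_min_image (X j) (fun p => p.1) hj
      obtain ⟨hi, hhi, hhi'⟩ := Finset.exists_max_image (X j) (fun p => p.1) hj
      have h1 := hsep (a j) (hFa j) lo.1 (hFX j lo hlo) (hX j lo hlo).1
      have h2 := hsep hi.1 (hFX j hi hhi) (b j) (hFb j) (hX j hi hhi).2
      refine ⟨lo.1 - ε, hi.1 + ε, ?_, ?_, Or.inr ⟨lo, hlo, hi, hhi, rfl, rfl⟩⟩
      · intro x hx
        exact ⟨by linarith [hx.1], by linarith [hx.2]⟩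
      · intro p hp
        exact ⟨by linarith [hlo' p hp], by linarith [hhi' p hp]⟩
    · refine ⟨0, 0, by simp, fun p hp => (hj ⟨p, hp⟩).elim, Or.inl ⟨rfl, rfl⟩⟩
  choose a' b' h1 h2 h3 using hdata
  refine ⟨a', b', h1, h2, fun i j hij => ?_⟩
  rcases h3 i with ⟨hc, hd⟩ | ⟨li, hli, hi, hhi, hc, hd⟩
  · rw [hc, hd, Set.Ioo_self]
    exact Set.empty_disjoint _
  rcases h3 j with ⟨hc', hd'⟩ | ⟨lj, hlj, hj, hhj, hc', hd'⟩
  · rw [hc', hd', Set.Ioo_self]
    exact Set.disjoint_empty _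
  rw [Set.disjoint_left]
  rintro x ⟨hx1, hx2⟩ ⟨hx3, hx4⟩
  rcases hij with hij | hij
  · have h4 := hsep hi.1 (hFX i hi hhi) lj.1 (hFX j lj hlj) (hij hi hhi lj hlj)
    linarith
  · have h4 := hsep hj.1 (hFX j hj hhj) li.1 (hFX i li hli) (hij li hli hj hhj)
    linarith

end Pool.Agent.H39.HA
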