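import Pool.Agent.H39.HA.ArcsT
import Pool.Agent.H39.HG.Opt
/-!
# Rich form for sub-incidences of arcs

`arcs_t` for the index type `{j // j ∈ Λ}`, the points `Q` and `tr p = univ.filter (p ∈ X ·)`, then `opt` (`I = ∑_{j ∈ Λ} #(X j ∩ Q)`, `N = #Λ`, `N κ ≤ I`, `m = #Q`), as in the second half
of `ps_rich` in `Pool/Agent/H39/HG/Rich.lean` (read it). Sums are exchanged by `Finset.sum_card_bipartiteAbove_eq_sum_card_bipartiteBelow`.
-/

set_option autoImplicit false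

namespace Pool.Agent.H39.HA

open Finset Pool.Agent.H22.PS Pool.Agent.H39.HG
open scoped Classical

theorem rich_sub (s t μ : ℕ) (hs : 2 ≤ s) : ∃ C κ0 : ℝ, 1 ≤ C ∧ 1 ≤ κ0 ∧
    ∀ (J : Type) [Fintype J] (a b : J → ℝ) (f : J → ℝ → ℝ) (X : J → Finset (ℝ × ℝ)),
    (∀ j, ContinuousOn (f j) (Set.Ioo (a j) (b j))) →
    (∀ i j, i ≠ j → ∃ Z : Finset ℝ, Z.card ≤ μ ∧ ∀ x ∈ Set.Ioo (a i) (b i),
      x ∈ Set.Ioo (a j) (b j) → f i x = f j x → x ∈ Z) →
    (∀ j, ∀ p ∈ X j, (a j < p.1 ∧ p.1 < b j) ∧ f j p.1 = p.2) →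
    (∀ S : Finset (ℝ × ℝ), S.card = s → (univ.filter fun j => S ⊆ X j).card < t) →
    ∀ Q : Finset (ℝ × ℝ), ∀ κ : ℝ, κ0 ≤ κ → ∀ Λ : Finset J,
    (∀ j ∈ Λ, κ ≤ ((X j ∩ Q).card : ℝ)) →
    (∑ j ∈ Λ, ((X j ∩ Q).card : ℝ)) * κ ^ (2 * s - 2) ≤
      C * ((Q.card : ℝ) ^ s + Q.card * κ ^ (2 * s - 2)) := by
  obtain ⟨C1, hC1, harc⟩ := arcs_t s t μ hs
  obtain ⟨C', κ0, hC', hκ0, hopt⟩ := opt s C1 hs hC1
  refine ⟨C', κ0, hC', hκ0, ?_⟩
  intro J _ a b f X h1 h2 h3 h4 Q κ hκ Λ hΛ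
  set I : ℝ := ∑ j ∈ Λ, ((X j ∩ Q).card : ℝ) with hI
  have hI0 : 0 ≤ I := Finset.sum_nonneg fun i _ => Nat.cast_nonneg _
  have hIarc : ∀ A : ℕ, 1 ≤ A → I ≤ C1 * (Q.card * (A : ℝ) ^ (s - 1) + (Λ.card : ℝ) + (A : ℝ) ^ s +
      (Λ.card : ℝ) ^ 2 / (A : ℝ) ^ s) := by
    intro A hA
    have h5 := harc {j // j ∈ Λ} (fun j => a j.1) (fun j => b j.1) (fun j => f j.1) Q
      (fun p => univ.filter fun j : {j // j ∈ Λ} => p ∈ X j.1)
      (fun j => h1 j.1)
      (fun i j hij => h2 i.1 j.1 (fun h => hij (Subtype.ext h)))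
      (fun q hq j hj => by
        have hj' := (Finset.mem_filter.mp hj).2
        have h6 := h3 j.1 q hj'
        unfold thrA
        simp only [Finset.mem_filter, Finset.mem_univ, true_and]
        exact ⟨⟨h6.1.1, h6.1.2⟩, h6.2⟩)
      (fun S hS hSc => by
        refine lt_of_le_of_lt ?_ (h4 S hSc)
        apply Finset.card_le_card_of_injOn (fun j => j.1)
        · intro j hj
          simp only [Finset.coe_filter, Finset.mem_univ, true_and, Set.mem_setOf_eq, Finset.mem_filter] at hj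
          refine Finset.mem_coe.mpr (Finset.mem_filter.mpr ⟨Finset.mem_univ _, ?_⟩)
          intro p hp
          exact hj p hp
        · intro i _ j _ hij
          exact Subtype.ext hij) A hA
    have h6 : ((∑ p ∈ Q, (univ.filter fun j : {j // j ∈ Λ} => p ∈ X j.1).card : ℕ) : ℝ) = I := by
      have h7 : (∑ p ∈ Q, (univ.filter fun j : {j // j ∈ Λ} => p ∈ X j.1).card) =
          ∑ j ∈ Λ, (X j ∩ Q).card := by
        have h8 := Finset.sum_card_bipartiteAbove_eq_sum_card_bipartiteBelow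
          (s := Q) (t := (univ : Finset {j // j ∈ Λ})) (fun p j => p ∈ X j.1)
        unfold Finset.bipartiteAbove Finset.bipartiteBelow at h8
        rw [h8, ← Finset.sum_coe_sort Λ]
        apply Finset.sum_congr rfl
        intro j _
        congr 1
        ext p
        simp only [Finset.mem_filter, Finset.mem_inter]
        exact and_comm
      rw [h7, hI]
      push_cast
      rfl
    rw [h6, Fintype.card_coe] at h5
    exact h5
  have hNκ : (Λ.card : ℝ) * κ ≤ I := by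
    have h7 : (∑ j ∈ Λ, κ) ≤ I := Finset.sum_le_sum fun i hi => hΛ i hi
    rw [Finset.sum_const, nsmul_eq_mul] at h7
    exact h7
  have hm : Q.card = 0 → I = 0 := by
    intro h
    have hQ0 : Q = ∅ := Finset.card_eq_zero.mp h
    rw [hI]
    apply Finset.sum_eq_zero
    intro i _
    rw [hQ0]
    simp
  exact hopt I (Λ.card : ℝ) κ Q.card hI0 (Nat.cast_nonneg _) hκ hNκ hm hIarc

end Pool.Agent.H39.HA
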