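import Pool.Agent.H39.HA.Defs
import Pool.Agent.H39.HA.RichT
import Pool.Agent.H39.HA.GapE
/-!
# Rich form for the pure cells

The family `X (i, l)` indexed by `ι × Fin Mc`: the points of `Pl i` with cell index `l` if they all lie in one piece (`pt i`), the empty set otherwise. Arcs: `gap` for `a (i,l) = a i`, `b (i,l) = b i` (for `X (i,l)`), functions
`f (i,l) = f i`. Two different indices with the same `i` have separated sets (the cell index is monotone in the abscissa: if `l < l'`, `p ∈ X (i,l)`, `q ∈ X (i,l')` then `p.1 < q.1`, otherwise `c i q ≤ c i p`), so disjoint intervals: `Z = ∅`; with different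
`i`: the `Z` of the arcs. If `#S = 4` then the map `(i, l) ↦ i` is injective on the indices with `S ⊆ X (i, l)` (`S` is not empty and the cell index of a point of `S` is `l`) and its image is in the set of `hfree`. `rich_sub 4 t μ`.
-/

set_option autoImplicit false

namespace Pool.Agent.H39.HA

open Finset Pool.Agent.H39.HG
open scoped Classical

private lemma PurR_mem {ι τ : Type} {Pl : ι → Finset (ℝ × ℝ)} {pt : ι → ℝ → τ}
    {c : ι → ℝ × ℝ → ℕ} {i : ι} {l : ℕ} {p : ℝ × ℝ} (hp : p ∈ pur Pl pt c i l) :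
    p ∈ Pl i ∧ c i p = l ∧
      ∀ p ∈ Pl i, ∀ q ∈ Pl i, c i p = l → c i q = l → pt i p.1 = pt i q.1 := by
  unfold pur at hp
  split_ifs at hp with h
  · exact ⟨(Finset.mem_filter.1 hp).1, (Finset.mem_filter.1 hp).2, h⟩
  · exact absurd hp (Finset.notMem_empty p)

theorem pure_rich (t μ : ℕ) : ∃ C κ0 : ℝ, 1 ≤ C ∧ 1 ≤ κ0 ∧
    ∀ (ι τ : Type) [Fintype ι] (a b : ι → ℝ) (f : ι → ℝ → ℝ) (Pl : ι → Finset (ℝ × ℝ))
    (pt : ι → ℝ → τ) (c : ι → ℝ × ℝ → ℕ) (Mc : ℕ),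
    (∀ i, ContinuousOn (f i) (Set.Ioo (a i) (b i))) →
    (∀ i j, i ≠ j → ∃ Z : Finset ℝ, Z.card ≤ μ ∧ ∀ x ∈ Set.Ioo (a i) (b i),
      x ∈ Set.Ioo (a j) (b j) → f i x = f j x → x ∈ Z) →
    (∀ i, ∀ p ∈ Pl i, (a i < p.1 ∧ p.1 < b i) ∧ f i p.1 = p.2) →
    (∀ S : Finset (ℝ × ℝ), S.card = 4 → (univ.filter fun i => S ⊆ Pl i ∧
      ∀ p ∈ S, ∀ q ∈ S, pt i p.1 = pt i q.1).card < t) →
    (∀ i, ∀ p ∈ Pl i, ∀ q ∈ Pl i, p.1 ≤ q.1 → c i p ≤ c i q) →
    ∀ P : Finset (ℝ × ℝ), PSR P (fun j : ι × Fin Mc => pur Pl pt c j.1 j.2) 4 C κ0 := by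
  obtain ⟨C, κ0, hC, hκ0, h⟩ := rich_sub 4 t μ (by norm_num)
  refine ⟨C, κ0, hC, hκ0, ?_⟩
  intro ι τ _ a b f Pl pt c Mc hf hZ hP hS hc P
  obtain ⟨a', b', g1, g2, g3⟩ := gap (J := ι × Fin Mc) (fun j => a j.1) (fun j => b j.1)
    (fun j => pur Pl pt c j.1 j.2) (fun j p hp => (hP j.1 p (PurR_mem hp).1).1)
  have key : ∀ i j : ι × Fin Mc, i.1 = j.1 → (i.2 : ℕ) < j.2 →
      ∀ p ∈ pur Pl pt c i.1 i.2, ∀ q ∈ pur Pl pt c j.1 j.2, p.1 < q.1 := by
    intro i j hij hl p hp q hq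
    by_contra hcon
    have h1 := PurR_mem hp
    have h2 := PurR_mem hq
    rw [← hij] at h2
    have h3 := hc i.1 q h2.1 p h1.1 (not_lt.1 hcon)
    rw [h1.2.1, h2.2.1] at h3
    omega
  intro Q _ κ hκ Λ hΛ
  refine h (ι × Fin Mc) a' b' (fun j => f j.1) (fun j => pur Pl pt c j.1 j.2)
    (fun j => (hf j.1).mono (g1 j)) ?_
    (fun j p hp => ⟨g2 j p hp, (hP j.1 p (PurR_mem hp).1).2⟩) ?_ Q κ hκ Λ hΛ
  · intro i j hij
    by_cases h1 : i.1 = j.1
    · have h2 : (i.2 : ℕ) ≠ j.2 := fun h2 => hij (Prod.ext h1 (Fin.ext h2))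
      have h3 : Disjoint (Set.Ioo (a' i) (b' i)) (Set.Ioo (a' j) (b' j)) := by
        apply g3
        rcases lt_or_gt_of_ne h2 with h2 | h2
        · exact Or.inl (key i j h1 h2)
        · exact Or.inr fun p hp q hq => key j i h1.symm h2 q hq p hp
      refine ⟨∅, by simp, fun x hx hx' _ => ?_⟩
      exact absurd hx' (Set.disjoint_left.1 h3 hx)
    · obtain ⟨Z, hZ1, hZ2⟩ := hZ i.1 j.1 h1
      exact ⟨Z, hZ1, fun x hx hx' he => hZ2 x (g1 i hx) (g1 j hx') he⟩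
  · intro S hS4
    refine lt_of_le_of_lt ?_ (hS S hS4)
    apply Finset.card_le_card_of_injOn (fun j => j.1)
    · intro j hj
      have hj' : S ⊆ pur Pl pt c j.1 j.2 := (Finset.mem_filter.1 (Finset.mem_coe.1 hj)).2
      refine Finset.mem_coe.2 (Finset.mem_filter.2 ⟨Finset.mem_univ _, ?_, ?_⟩)
      · intro p hp
        exact (PurR_mem (hj' hp)).1
      · intro p hp q hq
        have h1 := PurR_mem (hj' hp)
        have h2 := PurR_mem (hj' hq)
        exact h1.2.2 p h1.1 q h2.1 h1.2.1 h2.2.1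
    · intro i hi j hj hij
      have hi' : S ⊆ pur Pl pt c i.1 i.2 := (Finset.mem_filter.1 (Finset.mem_coe.1 hi)).2
      have hj' : S ⊆ pur Pl pt c j.1 j.2 := (Finset.mem_filter.1 (Finset.mem_coe.1 hj)).2
      obtain ⟨p, hp⟩ : S.Nonempty := Finset.card_pos.1 (by omega)
      have h1 := (PurR_mem (hi' hp)).2.1
      have h2 := (PurR_mem (hj' hp)).2.1
      have hij' : i.1 = j.1 := hij
      rw [← hij', h1] at h2
      exact Prod.ext hij' (Fin.ext h2)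

end Pool.Agent.H39.HA
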