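import Pool.Agent.H39.HG.Geo

/-!
# Sum over the levels

`K ≥ 1`. `∑_{j < J} 1 / (2 ^ j K ^ 6) ≤ 2 / K ^ 6 ≤ 2 / K ^ 2` (`geo1`) and `∑ 1 / (2 ^ j) ^ 4 ≤ 2 c ^ 2 / K ^ 2` over `j` with `K < c 4 ^ j` (`geo4`).
-/

set_option autoImplicit false

namespace Pool.Agent.H39.HA

open Finset
open scoped Classical

theorem sum_levels (J : ℕ) (c K : ℝ) (hc : 1 ≤ c) (hK : 1 ≤ K) :
    ∑ j ∈ (range J).filter (fun j => K < c * 4 ^ j),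
      (1 / (2 ^ j * K ^ 6) + 3 / ((2 : ℝ) ^ j) ^ 4) ≤ (2 + 6 * c ^ 2) / K ^ 2 := by
  have h1 := Pool.Agent.H39.HG.geo4 J c K hc hK
  have h2 := Pool.Agent.H39.HG.geo1 J K hK
  have hK0 : 0 < K := by linarith
  have e1 : ∑ j ∈ (range J).filter (fun j => K < c * 4 ^ j), 1 / ((2 : ℝ) ^ j * K ^ 6) ≤
      ∑ j ∈ range J, ((2 : ℝ) ^ j) ^ 6 / (((2 : ℝ) ^ j) ^ 7 * K ^ 6) := by
    have e2 : ∀ j : ℕ, ((2 : ℝ) ^ j) ^ 6 / (((2 : ℝ) ^ j) ^ 7 * K ^ 6) =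
        1 / ((2 : ℝ) ^ j * K ^ 6) := by
      intro j
      have : (2 : ℝ) ^ j ≠ 0 := by positivity
      field_simp
    simp only [e2]
    refine sum_le_sum_of_subset_of_nonneg (filter_subset _ _) fun j _ _ => by positivity
  rw [sum_add_distrib]
  have e3 : ∑ j ∈ (range J).filter (fun j => K < c * 4 ^ j), 3 / ((2 : ℝ) ^ j) ^ 4 =
      3 * ∑ j ∈ (range J).filter (fun j => K < c * 4 ^ j), 1 / ((2 : ℝ) ^ j) ^ 4 := by
    rw [mul_sum]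
    refine sum_congr rfl fun j _ => ?_
    ring
  rw [e3]
  have e4 : (2 + 6 * c ^ 2) / K ^ 2 = 2 / K ^ 2 + 3 * (2 * c ^ 2 / K ^ 2) := by
    field_simp
    ring
  rw [e4]
  exact add_le_add (e1.trans h2) (mul_le_mul_of_nonneg_left h1 (by norm_num))

end Pool.Agent.H39.HA
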