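import Pool.Agent.H39.HA.LevC
import Pool.Agent.H39.HA.LevP
import Pool.Agent.H39.HA.LevI
import Pool.Agent.H39.HA.OneD
import Pool.Agent.H39.HA.PurR
import Pool.Agent.H39.HA.LigA
import Pool.Agent.H39.HA.LabM
import Pool.Agent.H39.HA.SumJ
import Pool.Agent.H39.HA.BalD
import Pool.Agent.H39.HA.Par

/-!
# The main estimate for one system of arcs

Constants: `C0`, `htop`, `hlev` from `level_twoC`; `C`, `M` from `light s`; `Cp`, `κp` from `pure_rich M μ`; `CP, CstP` from `hlev 4 Cp κp`; `CI, CstI` from `hlev s C1 κ0`. `R`, `Y` from `par`, `J` from `top_exists`, `m i`, `σ i` from `lab_mono` (`S = 3`), `Pl` from `light`, `n = #P`, `N = #ι`. For `K ≥ Cst h ^ (1/6)`,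
`Cst = max` of `C0, CstP, CstI`: `one_curveD` for every `i` (`T = 100 R`, `T Y u = 100`, `pt x = pc R (φ i 3) x`, `hconv` from `pc_conv`, `htop`) gives `Bd i` and for `p ∈ Pl i \ Bd i` a level `j < J`. For `j < J` let `GP j`, `GI j` be the sets of `(i, p)` with this level which satisfy the first, resp. the second
alternative. `lev_pure` and `lev_imp` bound them.
-/

set_option autoImplicit false

namespace Pool.Agent.H39.HA

open Finset Pool.Agent.H39.HG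
open scoped Classical

private theorem corD_img {α β : Type} (I J : DecidableEq β) (f : α → β) (s : Finset α) :
    (@Finset.image α β I f s).card = (@Finset.image α β J f s).card := by
  rw [Subsingleton.elim I J]

private theorem corD_fil {α : Type} (p : α → Prop) (I J : DecidablePred p) (s : Finset α) :
    (@Finset.filter α p I s).card = (@Finset.filter α p J s).card := by
  rw [Subsingleton.elim I J]

/-- counting of the incidences by levels -/
private theorem corD_count {ι : Type} [Fintype ι] (P : Finset (ℝ × ℝ)) (Pl Bd : ι → Finset (ℝ × ℝ))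
    (hPl : ∀ i, Pl i ⊆ P) (F : Finset ℕ) (GP GI : ℕ → Finset (ι × (ℝ × ℝ)))
    (hcov : ∀ i, ∀ p ∈ Pl i, p ∉ Bd i → ∃ j ∈ F, (i, p) ∈ GP j ∨ (i, p) ∈ GI j) :
    (∑ i, ((Pl i).card : ℝ)) ≤ (∑ i, ((Bd i).card : ℝ)) +
      ∑ j ∈ F, (((GP j).card : ℝ) + ((GI j).card : ℝ)) := by
  have h1 : ∑ i, (Pl i).card ≤ (∑ i, (Bd i).card) + ∑ j ∈ F, ((GP j).card + (GI j).card) := by
    have e1 : ∑ i, (Pl i).card = ((univ : Finset ι).sigma Pl).card := by
      rw [card_sigma]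
    have e2 : ∑ i, (Bd i).card = ((univ : Finset ι).sigma Bd).card := by
      rw [card_sigma]
    rw [e1, e2]
    have hinj : Function.Injective (fun x : (_ : ι) × (ℝ × ℝ) => ((x.1, x.2) : ι × (ℝ × ℝ))) := by
      rintro ⟨i, p⟩ ⟨i', p'⟩ h
      simp only [Prod.mk.injEq] at h
      obtain ⟨h1, h2⟩ := h
      subst h1
      subst h2
      rfl
    rw [← card_image_of_injective _ hinj, ← card_image_of_injective ((univ : Finset ι).sigma Bd) hinj]
    refine le_trans (card_le_card (t := ((univ : Finset ι).sigma Bd).image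
      (fun x : (_ : ι) × (ℝ × ℝ) => ((x.1, x.2) : ι × (ℝ × ℝ))) ∪
      F.biUnion fun j => GP j ∪ GI j) ?_) ?_
    · intro e he
      obtain ⟨⟨i, p⟩, hip, rfl⟩ := mem_image.1 he
      have hip' : p ∈ Pl i := (mem_sigma.1 hip).2
      by_cases hb : p ∈ Bd i
      · exact mem_union_left _ (mem_image.2 ⟨⟨i, p⟩, mem_sigma.2 ⟨mem_univ _, hb⟩, rfl⟩)
      · obtain ⟨j, hj, h⟩ := hcov i p hip' hb
        refine mem_union_right _ (mem_biUnion.2 ⟨j, hj, ?_⟩)
        rcases h with h | h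
        · exact mem_union_left _ h
        · exact mem_union_right _ h
    · refine (card_union_le _ _).trans (Nat.add_le_add_left ?_ _)
      refine card_biUnion_le.trans (sum_le_sum fun j _ => card_union_le _ _)
  exact_mod_cast h1

theorem coreD (s μ : ℕ) (hs : 2 ≤ s) (C1 κ0 : ℝ) (hC1 : 0 ≤ C1) (hκ0 : 0 ≤ κ0) :
    ∃ C : ℝ, 0 ≤ C ∧
    ∀ (h : ℕ) (r u : ℝ), 1 ≤ h → 0 < r → 0 < u → r ^ 2 = h * u ^ 3 → h * u ≤ 1 →
    ∀ (P : Finset (ℝ × ℝ)) (ι : Type) [Fintype ι] (a b : ι → ℝ) (φ : ι → ℕ → ℝ → ℝ),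
    Hom h r P → (∀ i, Tame (a i) (b i) (φ i)) →
    (∀ i j, i ≠ j → ∃ Z : Finset ℝ, Z.card ≤ μ ∧ ∀ x ∈ Set.Ioo (a i) (b i),
      x ∈ Set.Ioo (a j) (b j) → φ i 0 x = φ j 0 x → x ∈ Z) →
    PSR P (fun i => P.filter fun p => p ∈ crv (a i) (b i) (φ i 0)) s C1 κ0 →
    (∑ i, ((P.filter fun p => p ∈ crv (a i) (b i) (φ i 0)).card : ℝ)) * u ≤
      C * GA h P.card (Fintype.card ι) := by
  obtain ⟨C0, hC0, htop, hlev⟩ := level_twoC
  obtain ⟨CL, M, hCL, hlight⟩ := light s hs C1 κ0 hC1 hκ0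
  obtain ⟨Cp, κp, hCp, hκp, hpure⟩ := pure_rich M μ
  obtain ⟨CP, CstP, hCP, hCstP, hLP⟩ := hlev 4 Cp κp (by norm_num) (by linarith)
  obtain ⟨CI, CstI, hCI, hCstI, hLI⟩ := hlev s C1 κ0 hs hC1
  obtain ⟨Cst, hCst1, hCstC0, hCstCP, hCstCI⟩ : ∃ Cst : ℝ, 1 ≤ Cst ∧ C0 ≤ Cst ∧ CstP ≤ Cst ∧
      CstI ≤ Cst :=
    ⟨max C0 (max CstP CstI), (by linarith : (1 : ℝ) ≤ C0).trans (le_max_left _ _), le_max_left _ _,
      (le_max_left _ _).trans (le_max_right _ _), (le_max_right _ _).trans (le_max_right _ _)⟩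
  refine ⟨CL + 105 * Cst + (CP + CI) * (2 + 96 * C0 ^ 2), by positivity, ?_⟩
  intro h r u hh hr hu hru hhu P ι _ a b φ hHom hT hties hPS
  have hGA0 := GA_nonneg h P.card (Fintype.card ι)
  have hCtot : 0 ≤ CL + 105 * Cst + (CP + CI) * (2 + 96 * C0 ^ 2) := by positivity
  rcases P.eq_empty_or_nonempty with hP0 | hPne
  · have h0 : (∑ i, ((P.filter fun p => p ∈ crv (a i) (b i) (φ i 0)).card : ℝ)) = 0 := by
      refine sum_eq_zero fun i _ => ?_
      rw [hP0, filter_empty, card_empty, Nat.cast_zero]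
    rw [h0, zero_mul]
    exact mul_nonneg hCtot hGA0
  rcases Nat.eq_zero_or_pos (Fintype.card ι) with hN0 | hNpos
  · have hemp : IsEmpty ι := Fintype.card_eq_zero_iff.1 hN0
    rw [Fintype.sum_empty, zero_mul]
    exact mul_nonneg hCtot hGA0
  have hn1 : 1 ≤ P.card := hPne.card_pos
  have hh1 : (1 : ℝ) ≤ h := by exact_mod_cast hh
  obtain ⟨R, Y, hR, hRr, hY, hRY, hRu, hpar⟩ := par h r u hh hr hu hru hhu
  obtain ⟨J, hJ1, hJ2, hJ3⟩ := top_exists h u hh hu hhu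
  obtain ⟨Pl, hPlP, hPlc, hsum, hcnt, hfree⟩ := hlight R r u hR hRr hu h hh hhu hRu P hHom ι a b φ hT hPS
  obtain ⟨K, hK1, hK2, hK3⟩ := balD h P.card (Fintype.card ι) hh hn1 hNpos Cst hCst1
  choose m σ hLab hσ using fun i => lab_mono (a i) (b i) (φ i) (hT i)
  have hh6 : 1 ≤ (h : ℝ) ^ (1 / 6 : ℝ) := Real.one_le_rpow hh1 (by norm_num)
  have hKCst : Cst ≤ K := (le_mul_of_one_le_right (by linarith) hh6).trans hK1
  have hKh6 : (h : ℝ) ^ (1 / 6 : ℝ) ≤ K :=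
    (le_mul_of_one_le_left (by positivity) hCst1).trans hK1
  have hK0 : 0 < K := by linarith
  have hR0 : 0 < R := by linarith
  -- one curve
  have hone : ∀ i, ∃ Bd : Finset (ℝ × ℝ), (Bd.card : ℝ) * u ≤ (3 + 102) * K ∧
      ∀ p ∈ Pl i, p ∉ Bd → ∃ j < J, K < 4 * C0 * 4 ^ j ∧
        C0 * 8 ^ j ≤ ((tA P u j p (m i p)).card : ℝ) ∧
        ((tB P u j p (m i p)).card : ℝ) ≤ 8 * (C0 * 8 ^ j) ∧
        (∀ q ∈ Pl i, cel u j (σ i) q = cel u j (σ i) p → q ∈ tA P u j p (m i p)) ∧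
        K * 2 ^ j ≤ (((Pl i).filter fun q => cel u j (σ i) q = cel u j (σ i) p).card : ℝ) ∧
        ((∀ q ∈ Pl i, ∀ q' ∈ Pl i, cel u j (σ i) q = cel u j (σ i) p →
            cel u j (σ i) q' = cel u j (σ i) p → pc R (φ i 3) q.1 = pc R (φ i 3) q'.1) ∨
          K * Y ≤ (((Pl i).filter fun q => cel u j (σ i) q = cel u j (σ i) p).card : ℝ)) := by
    intro i
    refine one_curveD 3 C0 K Y (100 * R) u (by norm_num) (by linarith) (hCstC0.trans hKCst) hu
      hY.le ?_ J hJ2 P (Pl i) (hPlP i) (crv (a i) (b i) (φ i 0)) (hPlc i) (m i) (σ i) (hLab i)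
      (fun p hp q hq hpq => hσ i p (hPlc i p hp) q (hPlc i q hq) hpq) (pc R (φ i 3)) ?_ ?_ ?_
    · have : 100 * R * Y * u = 100 * (R * Y * u) := by ring
      rw [this, hRY, mul_one]
    · intro x hx y hy z hz hxy hyz hp
      exact pc_conv (a i) (b i) R hR0 (φ i) (hT i) x.1 y.1 z.1 (hPlc i x hx).1 (hPlc i z hz).1
        hxy hyz hp
    · have h1 := hcnt i
      exact (Nat.cast_inj.2 (corD_img _ _ _ _)).trans_le h1
    · intro p hp
      exact htop h r u hh hr hu hru hhu P hHom J hJ1 p (m i p) ((hLab i) p (hPlc i p hp)).1.1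
  choose Bd hBd1 hBd2 using hone
  -- the sets of good incidences of level `j`
  obtain ⟨good, hgood⟩ : ∃ good : ℕ → ι → ℝ × ℝ → Prop, ∀ j i p, good j i p ↔
      (p ∈ Pl i ∧ C0 * 8 ^ j ≤ ((tA P u j p (m i p)).card : ℝ) ∧
        ((tB P u j p (m i p)).card : ℝ) ≤ 8 * (C0 * 8 ^ j) ∧
        (∀ q ∈ Pl i, cel u j (σ i) q = cel u j (σ i) p → q ∈ tA P u j p (m i p)) ∧
        K * 2 ^ j ≤ (((Pl i).filter fun q => cel u j (σ i) q = cel u j (σ i) p).card : ℝ)) :=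
    ⟨_, fun _ _ _ => Iff.rfl⟩
  obtain ⟨GP, hGP⟩ : ∃ GP : ℕ → Finset (ι × (ℝ × ℝ)), ∀ j e, e ∈ GP j ↔
      (good j e.1 e.2 ∧ ∀ q ∈ Pl e.1, ∀ q' ∈ Pl e.1, cel u j (σ e.1) q = cel u j (σ e.1) e.2 →
        cel u j (σ e.1) q' = cel u j (σ e.1) e.2 →
        pc R (φ e.1 3) q.1 = pc R (φ e.1 3) q'.1) := by
    refine ⟨fun j => ((univ : Finset ι) ×ˢ P).filter fun e => good j e.1 e.2 ∧
      ∀ q ∈ Pl e.1, ∀ q' ∈ Pl e.1, cel u j (σ e.1) q = cel u j (σ e.1) e.2 →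
        cel u j (σ e.1) q' = cel u j (σ e.1) e.2 →
        pc R (φ e.1 3) q.1 = pc R (φ e.1 3) q'.1, fun j e => ?_⟩
    rw [mem_filter, mem_product]
    refine ⟨fun h => h.2, fun h => ⟨⟨mem_univ _, ?_⟩, h⟩⟩
    exact hPlP e.1 ((hgood _ _ _).1 h.1).1
  obtain ⟨GI, hGI⟩ : ∃ GI : ℕ → Finset (ι × (ℝ × ℝ)), ∀ j e, e ∈ GI j ↔
      (good j e.1 e.2 ∧ K * Y ≤
        (((Pl e.1).filter fun q => cel u j (σ e.1) q = cel u j (σ e.1) e.2).card : ℝ)) := by
    refine ⟨fun j => ((univ : Finset ι) ×ˢ P).filter fun e => good j e.1 e.2 ∧ K * Y ≤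
      (((Pl e.1).filter fun q => cel u j (σ e.1) q = cel u j (σ e.1) e.2).card : ℝ),
      fun j e => ?_⟩
    rw [mem_filter, mem_product]
    refine ⟨fun h => h.2, fun h => ⟨⟨mem_univ _, ?_⟩, h⟩⟩
    exact hPlP e.1 ((hgood _ _ _).1 h.1).1
  have hcount := corD_count P Pl Bd hPlP
    ((range J).filter fun j => K < 4 * C0 * 4 ^ j) GP GI (by
      intro i p hp hpB
      obtain ⟨j, hj, g0, g1, g2, g3, g4, g5⟩ := hBd2 i p hp hpB
      refine ⟨j, mem_filter.2 ⟨mem_range.2 hj, g0⟩, ?_⟩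
      have hg : good j i p := (hgood _ _ _).2 ⟨hp, g1, g2, g3, g4⟩
      rcases g5 with g5 | g5
      · left
        exact (hGP j (i, p)).2 ⟨hg, g5⟩
      · right
        exact (hGI j (i, p)).2 ⟨hg, g5⟩)
  have hlevj : ∀ j ∈ (range J).filter (fun j => K < 4 * C0 * 4 ^ j),
      (((GP j).card : ℝ) + ((GI j).card : ℝ)) * u ≤ (CP + CI) * (h * P.card *
        (1 / (2 ^ j * K ^ 6) + 3 / ((2 : ℝ) ^ j) ^ 4)) := by
    intro j hj
    obtain ⟨hjJ, -⟩ := mem_filter.1 hj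
    obtain ⟨hj16, hj1⟩ := hJ3 j (mem_range.1 hjJ)
    obtain ⟨hY2, hKY⟩ := hpar K j hKh6 hj16
    have hm1 : ∀ i, ∀ p ∈ Pl i, |m i p| ≤ 1 := fun i p hp => ((hLab i) p (hPlc i p hp)).1.1
    have b1 := lev_pure C0 Cp κp CP CstP hLP h r u hh hr hu hru hhu P hHom ι (ℤ × ℤ) Pl hPlP m σ
      (fun i => pc R (φ i 3)) K (hCstCP.trans hKCst) j hj1 (by
        intro Mc
        refine hpure ι (ℤ × ℤ) a b (fun i => φ i 0) Pl (fun i => pc R (φ i 3))
          (fun i => cel u j (σ i)) Mc ?_ hties ?_ ?_ ?_ P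
        · intro i x hx
          exact (((hT i).1 0 (by norm_num) x hx).continuousAt).continuousWithinAt
        · intro i p hp
          exact ⟨(hPlc i p hp).1, (hPlc i p hp).2.2⟩
        · intro S hS
          have h1 := hfree S hS
          exact (corD_fil _ _ _ _).trans_lt h1
        · intro i p hp q hq hpq
          have h1 := hσ i p (hPlc i p hp) q (hPlc i q hq) hpq
          rw [cel, cel]
          exact Nat.div_le_div_right (Nat.floor_mono (div_le_div_of_nonneg_right h1 hu.le)))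
      (GP j) (fun e he => ⟨((hgood _ _ _).1 ((hGP j e).1 he).1).1,
        hm1 _ _ ((hgood _ _ _).1 ((hGP j e).1 he).1).1⟩)
      (fun e he => ((hgood _ _ _).1 ((hGP j e).1 he).1).2.1)
      (fun e he => ((hgood _ _ _).1 ((hGP j e).1 he).1).2.2.1)
      (fun e he => ((hgood _ _ _).1 ((hGP j e).1 he).1).2.2.2.1)
      (fun e he => ((hgood _ _ _).1 ((hGP j e).1 he).1).2.2.2.2)
      (fun e he => ((hGP j e).1 he).2)
    have b2 := lev_imp s hs C0 C1 κ0 CI CstI (by linarith) hCstI hLI h r u hh hr hu hru hhu P hHom ι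
      (fun i => P.filter fun p => p ∈ crv (a i) (b i) (φ i 0)) Pl
      (fun i => filter_subset _ _) (fun i p hp => mem_filter.2 ⟨hPlP i hp, hPlc i p hp⟩)
      m σ K Y (hCstCI.trans hKCst) j hj1 hY2 hKY hPS
      (GI j) (fun e he => ⟨((hgood _ _ _).1 ((hGI j e).1 he).1).1,
        hm1 _ _ ((hgood _ _ _).1 ((hGI j e).1 he).1).1⟩)
      (fun e he => ((hgood _ _ _).1 ((hGI j e).1 he).1).2.1)
      (fun e he => ((hgood _ _ _).1 ((hGI j e).1 he).1).2.2.1)
      (fun e he => ((hgood _ _ _).1 ((hGI j e).1 he).1).2.2.2.1)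
      (fun e he => ((hGI j e).1 he).2)
    have hA : 0 ≤ 1 / ((2 : ℝ) ^ j * K ^ 6) := by positivity
    have hB : 0 ≤ 1 / ((2 : ℝ) ^ j) ^ 4 := by positivity
    have hhn : (0 : ℝ) ≤ h * P.card := by positivity
    have e3 : 3 / ((2 : ℝ) ^ j) ^ 4 = 3 * (1 / ((2 : ℝ) ^ j) ^ 4) := by ring
    have e2 : 2 / ((2 : ℝ) ^ j) ^ 4 = 2 * (1 / ((2 : ℝ) ^ j) ^ 4) := by ring
    rw [e2] at b2
    rw [e3]
    set A := 1 / ((2 : ℝ) ^ j * K ^ 6) with hAdef
    set B := 1 / ((2 : ℝ) ^ j) ^ 4 with hBdef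
    have c1 : CP * (h * P.card * (A + B)) ≤ CP * (h * P.card * (A + 3 * B)) :=
      mul_le_mul_of_nonneg_left (mul_le_mul_of_nonneg_left (by linarith) hhn) (by linarith)
    have c2 : CI * (h * P.card * (2 * B)) ≤ CI * (h * P.card * (A + 3 * B)) :=
      mul_le_mul_of_nonneg_left (mul_le_mul_of_nonneg_left (by linarith) hhn) (by linarith)
    calc (((GP j).card : ℝ) + ((GI j).card : ℝ)) * u = (GP j).card * u + (GI j).card * u := by ring
      _ ≤ CP * (h * P.card * (A + 3 * B)) + CI * (h * P.card * (A + 3 * B)) :=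
          add_le_add (b1.trans c1) (b2.trans c2)
      _ = (CP + CI) * (h * P.card * (A + 3 * B)) := by ring
  have hsl := sum_levels J (4 * C0) K (by linarith) (by linarith)
  have hhn : (0 : ℝ) ≤ h * P.card := by positivity
  have hBdsum : (∑ i, ((Bd i).card : ℝ)) * u ≤ 105 * (K * Fintype.card ι) := by
    rw [sum_mul]
    refine (sum_le_sum fun i _ => hBd1 i).trans ?_
    rw [sum_const, card_univ, nsmul_eq_mul]
    apply le_of_eq
    ring
  have hlevsum : (∑ j ∈ (range J).filter (fun j => K < 4 * C0 * 4 ^ j),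
      (((GP j).card : ℝ) + ((GI j).card : ℝ))) * u ≤
      (CP + CI) * (2 + 96 * C0 ^ 2) * (h * P.card / K ^ 2) := by
    rw [sum_mul]
    refine (sum_le_sum hlevj).trans ?_
    rw [← mul_sum, ← mul_sum]
    have e1 : (CP + CI) * (2 + 96 * C0 ^ 2) * (h * P.card / K ^ 2) =
        (CP + CI) * (h * P.card * ((2 + 6 * (4 * C0) ^ 2) / K ^ 2)) := by
      field_simp
      ring
    rw [e1]
    exact mul_le_mul_of_nonneg_left (mul_le_mul_of_nonneg_left hsl hhn) (by linarith)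
  have hPlsum : (∑ i, ((Pl i).card : ℝ)) * u ≤ 105 * (K * Fintype.card ι) +
      (CP + CI) * (2 + 96 * C0 ^ 2) * (h * P.card / K ^ 2) := by
    refine (mul_le_mul_of_nonneg_right hcount hu.le).trans ?_
    rw [add_mul]
    exact add_le_add hBdsum hlevsum
  have hG6 := GA_ge' h P.card (Fintype.card ι)
  have hC96 : 0 ≤ (CP + CI) * (2 + 96 * C0 ^ 2) := by positivity
  have f1 : 105 * (K * Fintype.card ι) ≤ 105 * (Cst * GA h P.card (Fintype.card ι)) :=
    mul_le_mul_of_nonneg_left hK2 (by norm_num)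
  have f2 := mul_le_mul_of_nonneg_left hK3 hC96
  have f3 := mul_le_mul_of_nonneg_left hG6 hCL
  calc (∑ i, ((P.filter fun p => p ∈ crv (a i) (b i) (φ i 0)).card : ℝ)) * u
      ≤ (∑ i, ((Pl i).card : ℝ)) * u + CL * ((h : ℝ) ^ (1 / 6 : ℝ) * Fintype.card ι) := hsum
    _ ≤ (CL + 105 * Cst + (CP + CI) * (2 + 96 * C0 ^ 2)) * GA h P.card (Fintype.card ι) := by
        linarith
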