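import Pool.Agent.H39.HG.Cov
/-!
# Covering a thin set with bounded slope

Cut `v ≤ x ≤ v + L` into strips `v + i r ≤ x ≤ v + (i + 1) r`, `i = 0 .. ⌊L / r⌋` (at most `L / r + 1` strips). If a strip contains a point `q` of `X` then
all the points `p ∈ X` of the strip have `|p.2 - q.2| ≤ 2 c r`, so they are in a rectangle `r × 4 c r`: at most `h * (1 + 1) * (4 c + 1) ≤ 10 c h` points (`rect_card`).
(`X` is the union over `i` of the strips: `Finset.card_le_mul_card_image` or `card_biUnion_le`, `i = ⌊(p.1 - v) / r⌋₊`.)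
-/

set_option autoImplicit false

namespace Pool.Agent.H39.HA

open Finset Pool.Agent.H39.HG
open scoped Classical

theorem cov_slope (h : ℕ) (r : ℝ) (hr : 0 < r) (P : Finset (ℝ × ℝ)) (hP : Hom h r P)
    (X : Finset (ℝ × ℝ)) (hX : X ⊆ P) (v L c : ℝ) (hL : 0 ≤ L) (hc : 1 ≤ c)
    (h1 : ∀ p ∈ X, v ≤ p.1 ∧ p.1 ≤ v + L)
    (h2 : ∀ p ∈ X, ∀ q ∈ X, |p.2 - q.2| ≤ c * r + c * |p.1 - q.1|) :
    (X.card : ℝ) ≤ 10 * c * h * (L / r + 1) := by
  set g : ℝ × ℝ → ℕ := fun p => ⌊(p.1 - v) / r⌋₊ with hg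
  have hmaps : ∀ p ∈ X, g p ∈ range (⌊L / r⌋₊ + 1) := by
    intro p hp
    rw [mem_range]
    refine Nat.lt_succ_of_le (Nat.floor_mono ?_)
    exact (div_le_div_iff_of_pos_right hr).2 (by linarith [(h1 p hp).2])
  have hfl : ∀ p ∈ X, v + (g p : ℝ) * r ≤ p.1 ∧ p.1 ≤ v + (g p : ℝ) * r + r := by
    intro p hp
    have n1 : 0 ≤ (p.1 - v) / r := div_nonneg (by linarith [(h1 p hp).1]) hr.le
    have a1 := Nat.floor_le n1
    have b1 := Nat.lt_floor_add_one ((p.1 - v) / r)
    rw [le_div_iff₀ hr] at a1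
    rw [div_lt_iff₀ hr] at b1
    constructor <;> simp only [hg] <;> nlinarith
  have hfib : ∀ b ∈ range (⌊L / r⌋₊ + 1), ((X.filter fun p => g p = b).card : ℝ) ≤ 10 * c * h := by
    intro b _
    have hh : (0 : ℝ) ≤ h := Nat.cast_nonneg h
    rcases (X.filter fun p => g p = b).eq_empty_or_nonempty with he | ⟨q, hq⟩
    · rw [he, card_empty, Nat.cast_zero]
      have : 0 ≤ c := by linarith
      positivity
    · rw [mem_filter] at hq
      obtain ⟨hqX, hqb⟩ := hq
      have hR := rect_card h r hr P hP (v + (b : ℝ) * r) (q.2 - 2 * c * r) r (4 * c * r) hr.le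
        (by have : 0 ≤ c := by linarith
            positivity)
      have hsub : (X.filter fun p => g p = b) ⊆ P.filter fun p =>
          (v + (b : ℝ) * r ≤ p.1 ∧ p.1 ≤ v + (b : ℝ) * r + r) ∧
            q.2 - 2 * c * r ≤ p.2 ∧ p.2 ≤ q.2 - 2 * c * r + 4 * c * r := by
        intro p hp
        rw [mem_filter] at hp
        obtain ⟨hpX, hpb⟩ := hp
        have e1 := hfl p hpX
        have e2 := hfl q hqX
        rw [hpb] at e1
        rw [hqb] at e2
        rw [mem_filter]
        refine ⟨hX hpX, e1, ?_⟩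
        have e3 : |p.1 - q.1| ≤ r := by
          rw [abs_le]
          constructor <;> linarith [e1.1, e1.2, e2.1, e2.2]
        have e4 := h2 p hpX q hqX
        have e5 : c * |p.1 - q.1| ≤ c * r := mul_le_mul_of_nonneg_left e3 (by linarith)
        have e6 : |p.2 - q.2| ≤ 2 * c * r := by linarith
        rw [abs_le] at e6
        constructor <;> linarith [e6.1, e6.2]
      have e7 : ((X.filter fun p => g p = b).card : ℝ) ≤ ((P.filter fun p =>
          (v + (b : ℝ) * r ≤ p.1 ∧ p.1 ≤ v + (b : ℝ) * r + r) ∧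
            q.2 - 2 * c * r ≤ p.2 ∧ p.2 ≤ q.2 - 2 * c * r + 4 * c * r).card : ℝ) := by
        exact_mod_cast card_le_card hsub
      refine e7.trans (hR.trans ?_)
      have e8 : r / r = 1 := div_self hr.ne'
      have e9 : 4 * c * r / r = 4 * c := by field_simp
      rw [e8, e9]
      nlinarith
  have hsum : (X.card : ℝ) = ∑ b ∈ range (⌊L / r⌋₊ + 1), ((X.filter fun p => g p = b).card : ℝ) := by
    rw [card_eq_sum_card_fiberwise hmaps]
    push_cast
    rfl
  have hA' : (⌊L / r⌋₊ : ℝ) ≤ L / r := Nat.floor_le (div_nonneg hL hr.le)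
  rw [hsum]
  refine (sum_le_sum hfib).trans ?_
  rw [sum_const, card_range, nsmul_eq_mul]
  push_cast
  have hh : (0 : ℝ) ≤ 10 * c * h := by
    have : 0 ≤ c := by linarith
    positivity
  rw [mul_comm]
  exact mul_le_mul_of_nonneg_left (by linarith) hh

end Pool.Agent.H39.HA
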