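import Pool.Agent.H39.HG.Defs

/-!
# Definitions: tame arcs, levels, pieces, keys

Paper: h39_alls.md in the team store. An arc is the graph of `φ 0` over `Ioo a b`; `φ 1`, `φ 2`, `φ 3` are the first three derivatives.
`lv v` is the signed level of a real number, `pc R g x` the piece of `x` (`g` is the third derivative), `key R φ τ z` the key of
the piece `τ` computed with the base point `z`: the coefficients at the left end of the piece of the quadratic Taylor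
polynomial of `φ 0` at `z`, divided by `B λ ^ 3`, `B λ ^ 2`, `B λ` (`λ = 1 / (R * 4 ^ l)`, `B = 64 ^ l`), rounded down.
-/

set_option autoImplicit false

namespace Pool.Agent.H39.HA

open Finset Pool.Agent.H39.HG
open scoped Classical

/-- `φ 1`, `φ 2`, `φ 3` are the derivatives of `φ 0`, the slope is at most `1`, the first and the third derivative are monotone -/
def Tame (a b : ℝ) (φ : ℕ → ℝ → ℝ) : Prop :=
  (∀ l < 3, ∀ x ∈ Set.Ioo a b, HasDerivAt (φ l) (φ (l + 1) x) x) ∧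
  (∀ x ∈ Set.Ioo a b, |φ 1 x| ≤ 1) ∧
  (MonotoneOn (φ 1) (Set.Ioo a b) ∨ AntitoneOn (φ 1) (Set.Ioo a b)) ∧
  (MonotoneOn (φ 3) (Set.Ioo a b) ∨ AntitoneOn (φ 3) (Set.Ioo a b))

/-- the points with abscissa in `[0, 1]` of the graph over `Ioo a b` -/
def crv (a b : ℝ) (f : ℝ → ℝ) : Set (ℝ × ℝ) :=
  {p | (a < p.1 ∧ p.1 < b) ∧ (0 ≤ p.1 ∧ p.1 ≤ 1) ∧ f p.1 = p.2}

/-- the signed level: `0` if `|v| < 1`, `b` if `64 ^ (b - 1) ≤ v < 64 ^ b`, `-b` if `64 ^ (b - 1) ≤ -v < 64 ^ b` -/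
noncomputable def lv (v : ℝ) : ℤ :=
  if 1 ≤ v then Int.log 64 v + 1 else if v ≤ -1 then -(Int.log 64 (-v) + 1) else 0

/-- the piece of `x` -/
noncomputable def pc (R : ℝ) (g : ℝ → ℝ) (x : ℝ) : ℤ × ℤ :=
  (lv (g x), ⌊x * (R * 4 ^ (lv (g x)).natAbs)⌋)

/-- the left end of the piece `τ` -/
noncomputable def lend (R : ℝ) (τ : ℤ × ℤ) : ℝ := τ.2 / (R * 4 ^ τ.1.natAbs)

/-- value at `v` of the quadratic Taylor polynomial at `z` -/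
noncomputable def al (φ : ℕ → ℝ → ℝ) (z v : ℝ) : ℝ :=
  φ 0 z + φ 1 z * (v - z) + φ 2 z * (v - z) ^ 2 / 2

/-- derivative at `v` of the quadratic Taylor polynomial at `z` -/
noncomputable def be (φ : ℕ → ℝ → ℝ) (z v : ℝ) : ℝ := φ 1 z + φ 2 z * (v - z)

/-- the key; `B λ ^ 3 = 1 / R ^ 3`, `B λ ^ 2 = 4 ^ l / R ^ 2`, `B λ = 16 ^ l / R` with `l = τ.1.natAbs` -/
noncomputable def key (R : ℝ) (φ : ℕ → ℝ → ℝ) (τ : ℤ × ℤ) (z : ℝ) : (ℤ × ℤ) × ℤ × ℤ × ℤ :=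
  (τ, ⌊al φ z (lend R τ) * R ^ 3⌋, ⌊be φ z (lend R τ) * (R ^ 2 / 4 ^ τ.1.natAbs)⌋,
    ⌊φ 2 z * (R / 16 ^ τ.1.natAbs)⌋)

/-- two keys are near -/
def near (κ κ' : (ℤ × ℤ) × ℤ × ℤ × ℤ) : Prop :=
  κ.1 = κ'.1 ∧ |κ.2.1 - κ'.2.1| ≤ 13 ∧ |κ.2.2.1 - κ'.2.2.1| ≤ 13 ∧ |κ.2.2.2 - κ'.2.2.2| ≤ 13

/-- the final bound: for `u` times the number of incidences -/
noncomputable def GA (h n N : ℕ) : ℝ :=
  ((h : ℝ) * n) ^ (1 / 3 : ℝ) * (N : ℝ) ^ (2 / 3 : ℝ) + (h : ℝ) ^ (1 / 6 : ℝ) * N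

/-- the index of the cell of level `j` of `p` -/
noncomputable def cel (u : ℝ) (j : ℕ) (σ : ℝ × ℝ → ℝ) (p : ℝ × ℝ) : ℕ := ⌊σ p / u⌋₊ / 2 ^ j

/-- the points of the tube of level `j` around the incidence with slope `m` at `p` -/
noncomputable def tA (P : Finset (ℝ × ℝ)) (u : ℝ) (j : ℕ) (p : ℝ × ℝ) (m : ℝ) :
    Finset (ℝ × ℝ) :=
  tub P (2 * (2 ^ j * u)) (3 * (2 ^ j * u) ^ 2) p.1 p.2 m

/-- the points of the tube of level `j + 1` -/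
noncomputable def tB (P : Finset (ℝ × ℝ)) (u : ℝ) (j : ℕ) (p : ℝ × ℝ) (m : ℝ) :
    Finset (ℝ × ℝ) :=
  tub P (4 * (2 ^ j * u)) (12 * (2 ^ j * u) ^ 2) p.1 p.2 m

/-- the family `X` of point sets satisfies the rich form of the theorem of Pach and Sharir -/
def PSR (P : Finset (ℝ × ℝ)) {ι : Type} [Fintype ι] (X : ι → Finset (ℝ × ℝ)) (s : ℕ)
    (C1 κ0 : ℝ) : Prop :=
  ∀ Q ⊆ P, ∀ κ : ℝ, κ0 ≤ κ → ∀ Λ : Finset ι, (∀ i ∈ Λ, κ ≤ ((X i ∩ Q).card : ℝ)) →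
    (∑ i ∈ Λ, ((X i ∩ Q).card : ℝ)) * κ ^ (2 * s - 2) ≤
      C1 * ((Q.card : ℝ) ^ s + Q.card * κ ^ (2 * s - 2))

/-- the bound for one level -/
def LevProp (C0 : ℝ) (s : ℕ) (C1 κ0 C Cst : ℝ) : Prop :=
  ∀ (h : ℕ) (r u : ℝ), 1 ≤ h → 0 < r → 0 < u → r ^ 2 = h * u ^ 3 → h * u ≤ 1 →
    ∀ (P : Finset (ℝ × ℝ)) (ι : Type) [Fintype ι] (Pg : ι → Finset (ℝ × ℝ))
    (m : ι → ℝ × ℝ → ℝ), Hom h r P → (∀ g, Pg g ⊆ P) → PSR P Pg s C1 κ0 →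
    ∀ K : ℝ, Cst ≤ K → ∀ (j : ℕ), 2 ^ j * u ≤ 1 →
    ∀ 𝒢 : Finset (ι × (ℝ × ℝ)), (∀ e ∈ 𝒢, e.2 ∈ Pg e.1 ∧ |m e.1 e.2| ≤ 1) →
    (∀ e ∈ 𝒢, C0 * 8 ^ j ≤ ((tA P u j e.2 (m e.1 e.2)).card : ℝ)) →
    (∀ e ∈ 𝒢, ((tB P u j e.2 (m e.1 e.2)).card : ℝ) ≤ 8 * (C0 * 8 ^ j)) →
    (∀ e ∈ 𝒢, K * 2 ^ j ≤ ((Pg e.1 ∩ tA P u j e.2 (m e.1 e.2)).card : ℝ)) →
    (𝒢.card : ℝ) * u ≤ C * (h * P.card *
      (((2 : ℝ) ^ j) ^ (s + 2) / (((2 : ℝ) ^ j) ^ 7 * K ^ (2 * s - 2)) +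
        1 / ((2 : ℝ) ^ j) ^ 4))

/-- the points of a pure cell: all the points of `Pl i` with cell index `l` lie in one piece (`pt i`) -/
noncomputable def pur {ι τ : Type} (Pl : ι → Finset (ℝ × ℝ)) (pt : ι → ℝ → τ)
    (c : ι → ℝ × ℝ → ℕ) (i : ι) (l : ℕ) : Finset (ℝ × ℝ) :=
  if ∀ p ∈ Pl i, ∀ q ∈ Pl i, c i p = l → c i q = l → pt i p.1 = pt i q.1 then
    (Pl i).filter fun p => c i p = l else ∅

/-- the points of `P` on the arc of level at most `bm` -/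
noncomputable def rt (P : Finset (ℝ × ℝ)) (bm : ℕ) (a b : ℝ) (φ : ℕ → ℝ → ℝ) :
    Finset (ℝ × ℝ) :=
  P.filter fun p => p ∈ crv a b (φ 0) ∧ (lv (φ 3 p.1)).natAbs ≤ bm

/-- the arcs `i'` through `p` with the same piece at `p` as the arc `i` and with a near key; `z i τ` is the base point of the
piece `τ` of the arc `i` -/
noncomputable def nbr (P : Finset (ℝ × ℝ)) (bm : ℕ) (R : ℝ) {ι : Type} [Fintype ι]
    (a b : ι → ℝ) (φ : ι → ℕ → ℝ → ℝ) (z : ι → ℤ × ℤ → ℝ) (i : ι) (p : ℝ × ℝ) : Finset ι :=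
  univ.filter fun i' => p ∈ rt P bm (a i') (b i') (φ i') ∧
    pc R (φ i' 3) p.1 = pc R (φ i 3) p.1 ∧
    near (key R (φ i') (pc R (φ i 3) p.1) (z i' (pc R (φ i 3) p.1)))
      (key R (φ i) (pc R (φ i 3) p.1) (z i (pc R (φ i 3) p.1)))

/-- the light points of the arc `i` -/
noncomputable def lit (P : Finset (ℝ × ℝ)) (bm : ℕ) (R : ℝ) {ι : Type} [Fintype ι]
    (a b : ι → ℝ) (φ : ι → ℕ → ℝ → ℝ) (z : ι → ℤ × ℤ → ℝ) (M : ℝ) (i : ι) : Finset (ℝ × ℝ) :=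
  (rt P bm (a i) (b i) (φ i)).filter fun p => ((nbr P bm R a b φ z i p).card : ℝ) ≤ M

end Pool.Agent.H39.HA
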