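import Pool.Agent.H39.HA.MainD

/-!
# The bound in terms of `r` and `h`

`u = (r ^ 2 / h) ^ (1/3)`, `mainD` and division by `u`, as in `Pool/Agent/H39/HG/FinB.lean`.
-/

set_option autoImplicit false

namespace Pool.Agent.H39.HA

open Finset MvPolynomial Pool.Agent.H22.PS Pool.Agent.H39.HG
open scoped Classical

private lemma finD_u (h : ℕ) (r : ℝ) (hh : 1 ≤ h) (hr : 0 < r) (hhr : h * r ≤ 1) :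
    ∃ u : ℝ, 0 < u ∧ r ^ 2 = h * u ^ 3 ∧ h * u ≤ 1 ∧
      (1 / u = (h : ℝ) ^ (1 / 3 : ℝ) * r ^ (-(2 / 3) : ℝ)) := by
  have hh0 : (0 : ℝ) < h := by exact_mod_cast (show 0 < h by omega)
  refine ⟨(h : ℝ) ^ (-(1 / 3) : ℝ) * r ^ (2 / 3 : ℝ), by positivity, ?_, ?_, ?_⟩
  · have e1 : ((h : ℝ) ^ (-(1 / 3) : ℝ)) ^ 3 = (h : ℝ)⁻¹ := by
      rw [← Real.rpow_natCast ((h : ℝ) ^ (-(1 / 3) : ℝ)), ← Real.rpow_mul hh0.le,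
        show (-(1 / 3) : ℝ) * ((3 : ℕ) : ℝ) = -1 by norm_num, Real.rpow_neg_one]
    have e2 : (r ^ (2 / 3 : ℝ)) ^ 3 = r ^ 2 := by
      rw [← Real.rpow_natCast (r ^ (2 / 3 : ℝ)), ← Real.rpow_mul hr.le,
        show (2 / 3 : ℝ) * ((3 : ℕ) : ℝ) = ((2 : ℕ) : ℝ) by norm_num, Real.rpow_natCast]
    rw [mul_pow, e1, e2]
    field_simp
  · have e : (h : ℝ) * ((h : ℝ) ^ (-(1 / 3) : ℝ) * r ^ (2 / 3 : ℝ)) = ((h : ℝ) * r) ^ (2 / 3 : ℝ) := by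
      rw [Real.mul_rpow hh0.le hr.le, ← mul_assoc]
      congr 1
      have : (h : ℝ) * (h : ℝ) ^ (-(1 / 3) : ℝ) = (h : ℝ) ^ (1 : ℝ) * (h : ℝ) ^ (-(1 / 3) : ℝ) := by
        rw [Real.rpow_one]
      rw [this, ← Real.rpow_add hh0]; norm_num
    rw [e]
    exact Real.rpow_le_one (by positivity) hhr (by norm_num)
  · rw [one_div, mul_inv, ← Real.rpow_neg hh0.le, ← Real.rpow_neg hr.le]
    norm_num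

theorem finD (s t k : ℕ) (hs : 4 ≤ s) : ∃ C : ℝ, 0 ≤ C ∧
    ∀ (h : ℕ) (r : ℝ), 1 ≤ h → 0 < r → h * r ≤ 1 →
    ∀ (P : Finset (ℝ × ℝ)) (Γ : Finset (Set (ℝ × ℝ))),
    (∀ p ∈ P, (0 ≤ p.1 ∧ p.1 ≤ 1) ∧ 0 ≤ p.2 ∧ p.2 ≤ 1) → Hom h r P →
    (∀ γ ∈ Γ, ∃ f : MvPolynomial (Fin 2) ℝ, f ≠ 0 ∧ f.totalDegree ≤ k ∧ γ = Zs f) →
    (¬ ∃ S ⊆ P, ∃ T ⊆ Γ, S.card = s ∧ T.card = t ∧ ∀ p ∈ S, ∀ γ ∈ T, p ∈ γ) →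
    ((∑ γ ∈ Γ, (P.filter fun p => p ∈ γ).card : ℕ) : ℝ) ≤
      C * ((h : ℝ) ^ (1 / 3 : ℝ) * r ^ (-(2 / 3) : ℝ) *
        (((h : ℝ) * P.card) ^ (1 / 3 : ℝ) * (Γ.card : ℝ) ^ (2 / 3 : ℝ) +
          (h : ℝ) ^ (1 / 6 : ℝ) * Γ.card)) := by
  obtain ⟨C, hC, H⟩ := mainD s t k hs
  refine ⟨C, hC, fun h r hh hr hhr P Γ hP hom hΓ hK => ?_⟩
  obtain ⟨u, hu, h1, h2, h3⟩ := finD_u h r hh hr hhr
  have h4 := H h r u hh hr hu h1 h2 P Γ hP hom hΓ hK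
  rw [GA] at h4
  have h5 : ((∑ γ ∈ Γ, (P.filter fun p => p ∈ γ).card : ℕ) : ℝ) ≤ C *
      (((h : ℝ) * P.card) ^ (1 / 3 : ℝ) * (Γ.card : ℝ) ^ (2 / 3 : ℝ) +
        (h : ℝ) ^ (1 / 6 : ℝ) * Γ.card) * (1 / u) := by
    rw [mul_one_div, le_div_iff₀ hu]; exact h4
  refine h5.trans (le_of_eq ?_)
  rw [h3]; ring

end Pool.Agent.H39.HA
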