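import Mathlib

/-!
# Monotonicity from the zeros of the derivative

If `g' = 0` on the interval then `g` is constant there (`is_const`-type lemma, or `monotoneOn_of_deriv_nonneg` on the convex set
`Set.Ioo a b`, with `interior_Ioo`). If `g'` has no zero then by continuity (intermediate value theorem, `isPreconnected_Ioo`, see
`arc1_alt` in `Pool/Agent/H39/HG/Arc1.lean`) `g' > 0` everywhere or `g' < 0` everywhere; then `monotoneOn_of_deriv_nonneg`,
`antitoneOn_of_deriv_nonpos` (`HasDerivAt.deriv`).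
-/

set_option autoImplicit false

namespace Pool.Agent.H39.HA

open Finset
open scoped Classical

private lemma MonS_sign {a b : ℝ} {f : ℝ → ℝ} (hc : ContinuousOn f (Set.Ioo a b))
    (h : ∀ x ∈ Set.Ioo a b, f x ≠ 0) : (∀ x ∈ Set.Ioo a b, 0 < f x) ∨ ∀ x ∈ Set.Ioo a b, f x < 0 := by
  by_contra hcon
  rw [not_or] at hcon
  obtain ⟨h1, h2⟩ := hcon
  push Not at h1 h2
  obtain ⟨x, hx, hx0⟩ := h1
  obtain ⟨y, hy, hy0⟩ := h2
  have h3 := isPreconnected_Ioo.intermediate_value hx hy hc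
  obtain ⟨z, hz, hz0⟩ := h3 ⟨hx0, hy0⟩
  exact h z hz hz0

theorem mon_of_sign (a b : ℝ) (g g' : ℝ → ℝ) (hd : ∀ x ∈ Set.Ioo a b, HasDerivAt g (g' x) x)
    (hc : ContinuousOn g' (Set.Ioo a b))
    (h : (∀ x ∈ Set.Ioo a b, g' x = 0) ∨ ∀ x ∈ Set.Ioo a b, g' x ≠ 0) :
    MonotoneOn g (Set.Ioo a b) ∨ AntitoneOn g (Set.Ioo a b) := by
  have hcg : ContinuousOn g (Set.Ioo a b) := fun x hx => (hd x hx).continuousAt.continuousWithinAt
  have hdg : DifferentiableOn ℝ g (interior (Set.Ioo a b)) := by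
    rw [interior_Ioo]
    exact fun x hx => (hd x hx).differentiableAt.differentiableWithinAt
  have hup : (∀ x ∈ Set.Ioo a b, 0 ≤ g' x) → MonotoneOn g (Set.Ioo a b) := by
    intro h1
    refine monotoneOn_of_deriv_nonneg (convex_Ioo a b) hcg hdg ?_
    intro x hx
    rw [interior_Ioo] at hx
    rw [(hd x hx).deriv]
    exact h1 x hx
  have hdn : (∀ x ∈ Set.Ioo a b, g' x ≤ 0) → AntitoneOn g (Set.Ioo a b) := by
    intro h1
    refine antitoneOn_of_deriv_nonpos (convex_Ioo a b) hcg hdg ?_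
    intro x hx
    rw [interior_Ioo] at hx
    rw [(hd x hx).deriv]
    exact h1 x hx
  rcases h with h | h
  · exact Or.inl (hup fun x hx => (h x hx).ge)
  · rcases MonS_sign hc h with h1 | h1
    · exact Or.inl (hup fun x hx => (h1 x hx).le)
    · exact Or.inr (hdn fun x hx => (h1 x hx).le)

private lemma MonS_le {x y : ℝ} (h : (x + y) * (x - y) ≤ 0) : |x| ≤ |y| := by
  rw [← sq_le_sq]
  nlinarith

private lemma MonS_lt {x y : ℝ} (h : 0 < (x + y) * (x - y)) : |y| < |x| := by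
  rw [← sq_lt_sq]
  nlinarith

theorem abs_alt (a b : ℝ) (g h : ℝ → ℝ) (hg : ContinuousOn g (Set.Ioo a b))
    (hh : ContinuousOn h (Set.Ioo a b))
    (h1 : (∀ x ∈ Set.Ioo a b, g x + h x = 0) ∨ ∀ x ∈ Set.Ioo a b, g x + h x ≠ 0)
    (h2 : (∀ x ∈ Set.Ioo a b, g x - h x = 0) ∨ ∀ x ∈ Set.Ioo a b, g x - h x ≠ 0) :
    (∀ x ∈ Set.Ioo a b, |g x| ≤ |h x|) ∨ ∀ x ∈ Set.Ioo a b, |h x| < |g x| := by
  rcases h1 with h1 | h1
  · refine Or.inl fun x hx => MonS_le ?_
    rw [h1 x hx, zero_mul]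
  rcases h2 with h2 | h2
  · refine Or.inl fun x hx => MonS_le ?_
    rw [h2 x hx, mul_zero]
  rcases MonS_sign (hg.add hh) h1 with h3 | h3 <;> rcases MonS_sign (hg.sub hh) h2 with h4 | h4
  · exact Or.inr fun x hx => MonS_lt (mul_pos (h3 x hx) (h4 x hx))
  · exact Or.inl fun x hx => MonS_le (mul_nonpos_of_nonneg_of_nonpos (h3 x hx).le (h4 x hx).le)
  · exact Or.inl fun x hx => MonS_le (mul_nonpos_of_nonpos_of_nonneg (h3 x hx).le (h4 x hx).le)
  · exact Or.inr fun x hx => MonS_lt (mul_pos_of_neg_of_neg (h3 x hx) (h4 x hx))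

end Pool.Agent.H39.HA
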