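import Pool.Agent.H39.HA.Nx
import Pool.Agent.H39.HA.ArcG
import Pool.Agent.H39.HA.MonS
import Pool.Agent.H39.HG.Imp
import Pool.Agent.H39.HG.Slo
/-!
# Tame arcs

Case `pderiv 1 f = 0`: then `pderiv 0 f ≠ 0` (`ne_both`), the points with `|f_x| ≤ |f_y| = 0` are zeros of `f` and `pderiv 0 f`, at most
`k * k` (`slope_fin k f hf hk 0`): all arcs empty (`a = b = 0`, `φ = 0`), `E` = these points. Otherwise `arc_gen k (10 k) 4` with
`G = ![f_x + f_y, f_x - f_y, R2, R4]`, `R1 = - pderiv 0 f`, `R2 = nx f 1 R1`, `R3 = nx f 3 R2`, `R4 = nx f 5 R3` (degrees `≤ k, 4 k, 7 k, 10 k`, `nx_deg`).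
For an arc with the alternative `|f_x| ≤ |f_y|` (`abs_alt`; `Pool.Agent.H19.RD.cont_eval` for continuity, see `arc1_cont` in
`Pool/Agent/H39/HG/Arc1.lean`) put `φ 0` = the arc, `φ l = R_l / f_y ^ (2 l - 1)` along it: derivatives by `hasDeriv_imp` and `nx_deriv`
(`e = 1, 3, 5`), monotone by `mon_of_sign` (the derivative of `φ 1` is `R2 / f_y ^ 3`, that of `φ 3` is `R4 / f_y ^ 7`). For an arc with the
alternative `|f_y| < |f_x|` take the empty arc (`a = b = 0`, `φ = 0`). Points with `|f_x| ≤ |f_y|` outside `E` are on arcs of the first kind.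
Compare with `labels` in `Pool/Agent/H39/HG/Labs.lean`.
-/

set_option autoImplicit false

namespace Pool.Agent.H39.HA

open Finset MvPolynomial Pool.Agent.H22.PS Pool.Agent.H39.HG
open scoped Classical

/-- numerators of the derivatives -/
private noncomputable def TamA_R (f : MvPolynomial (Fin 2) ℝ) : ℕ → MvPolynomial (Fin 2) ℝ
  | 0 => -pderiv 0 f
  | l + 1 => nx f (2 * l + 1) (TamA_R f l)

/-- the derivatives of `φ` -/
private noncomputable def TamA_phi (f : MvPolynomial (Fin 2) ℝ) (φ : ℝ → ℝ) : ℕ → ℝ → ℝ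
  | 0 => φ
  | l + 1 => fun x => eval ![x, φ x] (TamA_R f l) / eval ![x, φ x] (pderiv 1 f) ^ (2 * l + 1)

private theorem TamA_deg (k : ℕ) (f : MvPolynomial (Fin 2) ℝ) (hk : f.totalDegree ≤ k) (l : ℕ) :
    (TamA_R f l).totalDegree ≤ (3 * l + 1) * k := by
  induction l with
  | zero =>
    show (-pderiv 0 f).totalDegree ≤ _
    rw [totalDegree_neg]
    have := Pool.Agent.H19.RD.pderiv_deg f 0
    omega
  | succ l ih =>
    have h := nx_deg k ((3 * l + 1) * k) (2 * l + 1) f (TamA_R f l) hk ih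
    have e : (3 * (l + 1) + 1) * k = (3 * l + 1) * k + 3 * k := by ring
    rw [e]
    exact h

private theorem TamA_cont (p : MvPolynomial (Fin 2) ℝ) (φ : ℝ → ℝ) (S : Set ℝ)
    (h : ContinuousOn φ S) : ContinuousOn (fun x => eval ![x, φ x] p) S := by
  have h3 : ContinuousOn (fun x : ℝ => ((x, φ x) : ℝ × ℝ)) S := continuousOn_id.prodMk h
  have h4 := Continuous.comp_continuousOn (Pool.Agent.H19.RD.cont_eval p) h3
  exact h4

private theorem TamA_one (f : MvPolynomial (Fin 2) ℝ) (a b : ℝ) (φ : ℝ → ℝ)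
    (hφ : ContinuousOn φ (Set.Ioo a b))
    (h0 : ∀ x ∈ Set.Ioo a b, (x, φ x) ∈ Zs f ∧ eval ![x, φ x] (pderiv 1 f) ≠ 0)
    (h1 : ∀ x ∈ Set.Ioo a b, |eval ![x, φ x] (pderiv 0 f)| ≤ |eval ![x, φ x] (pderiv 1 f)|)
    (h2 : (∀ x ∈ Set.Ioo a b, eval ![x, φ x] (TamA_R f 1) = 0) ∨
      ∀ x ∈ Set.Ioo a b, eval ![x, φ x] (TamA_R f 1) ≠ 0)
    (h3 : (∀ x ∈ Set.Ioo a b, eval ![x, φ x] (TamA_R f 3) = 0) ∨
      ∀ x ∈ Set.Ioo a b, eval ![x, φ x] (TamA_R f 3) ≠ 0) :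
    Tame a b (TamA_phi f φ) := by
  have hz : ∀ x ∈ Set.Ioo a b, eval ![x, φ x] f = 0 := fun x hx => (h0 x hx).1
  have hd := hasDeriv_imp f φ a b hφ hz fun x hx => (h0 x hx).2
  have hder : ∀ l, ∀ x ∈ Set.Ioo a b, HasDerivAt (TamA_phi f φ l) (TamA_phi f φ (l + 1) x) x := by
    intro l x hx
    rcases l with _ | l
    · have e : TamA_phi f φ (0 + 1) x =
          -(eval ![x, φ x] (pderiv 0 f)) / eval ![x, φ x] (pderiv 1 f) := by
        show eval ![x, φ x] (-pderiv 0 f) / eval ![x, φ x] (pderiv 1 f) ^ (2 * 0 + 1) = _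
        rw [map_neg, Nat.mul_zero, Nat.zero_add, pow_one]
      rw [e]
      exact hd x hx
    · exact nx_deriv f (TamA_R f l) (2 * l + 1) φ x (h0 x hx).2 (hd x hx)
  have hcont : ∀ l, ContinuousOn (TamA_phi f φ (l + 1)) (Set.Ioo a b) := by
    intro l
    exact (TamA_cont (TamA_R f l) φ _ hφ).div ((TamA_cont (pderiv 1 f) φ _ hφ).pow _)
      fun x hx => pow_ne_zero _ (h0 x hx).2
  have halt : ∀ l, ((∀ x ∈ Set.Ioo a b, eval ![x, φ x] (TamA_R f l) = 0) ∨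
      ∀ x ∈ Set.Ioo a b, eval ![x, φ x] (TamA_R f l) ≠ 0) →
      ((∀ x ∈ Set.Ioo a b, TamA_phi f φ (l + 1) x = 0) ∨
        ∀ x ∈ Set.Ioo a b, TamA_phi f φ (l + 1) x ≠ 0) := by
    intro l h
    rcases h with h | h
    · left
      intro x hx
      show eval ![x, φ x] (TamA_R f l) / eval ![x, φ x] (pderiv 1 f) ^ (2 * l + 1) = 0
      rw [h x hx, zero_div]
    · right
      intro x hx
      exact div_ne_zero (h x hx) (pow_ne_zero _ (h0 x hx).2)
  refine ⟨fun l _ => hder l, ?_, ?_, ?_⟩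
  · intro x hx
    show |eval ![x, φ x] (-pderiv 0 f) / eval ![x, φ x] (pderiv 1 f) ^ (2 * 0 + 1)| ≤ 1
    rw [map_neg, Nat.mul_zero, Nat.zero_add, pow_one, abs_div, abs_neg]
    exact div_le_one_of_le₀ (h1 x hx) (abs_nonneg _)
  · exact mon_of_sign a b (TamA_phi f φ 1) (TamA_phi f φ 2) (hder 1) (hcont 1) (halt 1 h2)
  · exact mon_of_sign a b (TamA_phi f φ 3) (TamA_phi f φ 4) (hder 3) (hcont 3) (halt 3 h3)

private theorem TamA_empty (ψ : ℕ → ℝ → ℝ) : Tame 0 0 ψ := by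
  have h : ∀ x : ℝ, x ∉ Set.Ioo (0 : ℝ) 0 := by
    intro x hx
    exact absurd (hx.1.trans hx.2) (lt_irrefl _)
  refine ⟨fun l _ x hx => absurd hx (h x), fun x hx => absurd hx (h x), Or.inl ?_, Or.inl ?_⟩
  · intro x hx
    exact absurd hx (h x)
  · intro x hx
    exact absurd hx (h x)

private theorem TamA_arc (f : MvPolynomial (Fin 2) ℝ) (a b : ℝ) (φ : ℝ → ℝ)
    (hφ : ContinuousOn φ (Set.Ioo a b))
    (h0 : ∀ x ∈ Set.Ioo a b, (x, φ x) ∈ Zs f ∧ eval ![x, φ x] (pderiv 1 f) ≠ 0)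
    (g1 : (∀ x ∈ Set.Ioo a b, eval ![x, φ x] (pderiv 0 f + pderiv 1 f) = 0) ∨
      ∀ x ∈ Set.Ioo a b, eval ![x, φ x] (pderiv 0 f + pderiv 1 f) ≠ 0)
    (g2 : (∀ x ∈ Set.Ioo a b, eval ![x, φ x] (pderiv 0 f - pderiv 1 f) = 0) ∨
      ∀ x ∈ Set.Ioo a b, eval ![x, φ x] (pderiv 0 f - pderiv 1 f) ≠ 0)
    (h2 : (∀ x ∈ Set.Ioo a b, eval ![x, φ x] (TamA_R f 1) = 0) ∨
      ∀ x ∈ Set.Ioo a b, eval ![x, φ x] (TamA_R f 1) ≠ 0)
    (h3 : (∀ x ∈ Set.Ioo a b, eval ![x, φ x] (TamA_R f 3) = 0) ∨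
      ∀ x ∈ Set.Ioo a b, eval ![x, φ x] (TamA_R f 3) ≠ 0) :
    ∃ (a' b' : ℝ) (ψ : ℕ → ℝ → ℝ), Tame a' b' ψ ∧ (∀ x ∈ Set.Ioo a' b', (x, ψ 0 x) ∈ Zs f) ∧
      ∀ p : ℝ × ℝ, (0 ≤ p.1 ∧ p.1 ≤ 1) →
        |eval ![p.1, p.2] (pderiv 0 f)| ≤ |eval ![p.1, p.2] (pderiv 1 f)| →
        (a < p.1 ∧ p.1 < b) → φ p.1 = p.2 → p ∈ crv a' b' (ψ 0) := by
  have hsum : ∀ x, eval ![x, φ x] (pderiv 0 f + pderiv 1 f) =
      eval ![x, φ x] (pderiv 0 f) + eval ![x, φ x] (pderiv 1 f) := fun x => map_add _ _ _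
  have hsub : ∀ x, eval ![x, φ x] (pderiv 0 f - pderiv 1 f) =
      eval ![x, φ x] (pderiv 0 f) - eval ![x, φ x] (pderiv 1 f) := fun x => map_sub _ _ _
  have halt := abs_alt a b (fun x => eval ![x, φ x] (pderiv 0 f))
    (fun x => eval ![x, φ x] (pderiv 1 f)) (TamA_cont _ φ _ hφ) (TamA_cont _ φ _ hφ)
    (by simpa only [hsum] using g1) (by simpa only [hsub] using g2)
  rcases halt with h1 | h1
  · refine ⟨a, b, TamA_phi f φ, TamA_one f a b φ hφ h0 h1 h2 h3, fun x hx => (h0 x hx).1, ?_⟩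
    intro p hp _ h5 h6
    exact ⟨h5, hp, h6⟩
  · refine ⟨0, 0, fun _ _ => 0, TamA_empty _, ?_, ?_⟩
    · intro x hx
      exact absurd (hx.1.trans hx.2) (lt_irrefl _)
    · intro p hp h4 h5 h6
      exfalso
      have h7 := h1 p.1 h5
      rw [h6] at h7
      exact absurd h7 (not_lt.2 h4)

theorem tame_arcs (k : ℕ) : ∃ N : ℕ, ∀ f : MvPolynomial (Fin 2) ℝ,
    Irreducible f → f.totalDegree ≤ k →
    ∃ (a b : Fin N → ℝ) (φ : Fin N → ℕ → ℝ → ℝ) (E : Finset (ℝ × ℝ)), E.card ≤ N ∧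
      (∀ j, Tame (a j) (b j) (φ j)) ∧
      (∀ j, ∀ x ∈ Set.Ioo (a j) (b j), (x, φ j 0 x) ∈ Zs f) ∧
      (∀ p ∈ Zs f, (0 ≤ p.1 ∧ p.1 ≤ 1) →
        |eval ![p.1, p.2] (pderiv 0 f)| ≤ |eval ![p.1, p.2] (pderiv 1 f)| →
        p ∉ E → ∃ j, p ∈ crv (a j) (b j) (φ j 0)) := by
  obtain ⟨N0, hN0⟩ := arc_gen k (10 * k) 4
  refine ⟨max N0 (k * k), fun f hf hk => ?_⟩
  by_cases hy : pderiv 1 f = 0
  · have hx : pderiv 0 f ≠ 0 := (ne_both f hf).resolve_right fun h => h hy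
    rcases slope_fin k f hf hk 0 with h | ⟨T, hT, hmem⟩
    · exfalso
      rw [C_0, zero_mul, add_zero] at h
      exact hx h
    · refine ⟨fun _ => 0, fun _ => 0, fun _ _ _ => 0, T, hT.trans (le_max_right _ _),
        fun _ => TamA_empty _, ?_, ?_⟩
      · intro j x hx
        exact absurd (hx.1.trans hx.2) (lt_irrefl _)
      · intro p hp _ h2 h3
        exfalso
        apply h3
        refine hmem p hp ?_
        rw [hy, map_zero, abs_zero] at h2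
        have h4 : eval ![p.1, p.2] (pderiv 0 f) = 0 := by
          have := abs_nonneg (eval ![p.1, p.2] (pderiv 0 f))
          exact abs_eq_zero.1 (le_antisymm h2 this)
        rw [hy, mul_zero, add_zero]
        exact h4
  · have hdeg : ∀ l : Fin 4, ((![pderiv 0 f + pderiv 1 f, pderiv 0 f - pderiv 1 f, TamA_R f 1,
        TamA_R f 3] : Fin 4 → MvPolynomial (Fin 2) ℝ) l).totalDegree ≤ 10 * k := by
      have d0 : (pderiv 0 f).totalDegree ≤ 10 * k := by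
        have := Pool.Agent.H19.RD.pderiv_deg f 0
        omega
      have d1 : (pderiv 1 f).totalDegree ≤ 10 * k := by
        have := Pool.Agent.H19.RD.pderiv_deg f 1
        omega
      have d2 := TamA_deg k f hk 1
      have d3 := TamA_deg k f hk 3
      intro l
      fin_cases l
      · exact (totalDegree_add _ _).trans (max_le d0 d1)
      · exact (totalDegree_sub _ _).trans (max_le d0 d1)
      · show (TamA_R f 1).totalDegree ≤ 10 * k
        omega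
      · show (TamA_R f 3).totalDegree ≤ 10 * k
        omega
    obtain ⟨a, b, φ, E, hE, hc, hz, hs, hcov⟩ := hN0 f hf hk hy _ hdeg
    have key : ∀ j : Fin N0, ∃ (a' b' : ℝ) (ψ : ℕ → ℝ → ℝ), Tame a' b' ψ ∧
        (∀ x ∈ Set.Ioo a' b', (x, ψ 0 x) ∈ Zs f) ∧
        ∀ p : ℝ × ℝ, (0 ≤ p.1 ∧ p.1 ≤ 1) →
          |eval ![p.1, p.2] (pderiv 0 f)| ≤ |eval ![p.1, p.2] (pderiv 1 f)| →
          (a j < p.1 ∧ p.1 < b j) → φ j p.1 = p.2 → p ∈ crv a' b' (ψ 0) :=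
      fun j => TamA_arc f (a j) (b j) (φ j) (hc j) (hz j) (hs j 0) (hs j 1) (hs j 2) (hs j 3)
    choose a' b' ψ k1 k2 k3 using key
    refine ⟨fun j => if h : j.1 < N0 then a' ⟨j.1, h⟩ else 0,
      fun j => if h : j.1 < N0 then b' ⟨j.1, h⟩ else 0,
      fun j => if h : j.1 < N0 then ψ ⟨j.1, h⟩ else fun _ _ => 0, E,
      hE.trans (le_max_left _ _), ?_, ?_, ?_⟩
    · intro j
      by_cases h : j.1 < N0
      · simp only [dif_pos h]
        exact k1 _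
      · simp only [dif_neg h]
        exact TamA_empty _
    · intro j x hx
      by_cases h : j.1 < N0
      · simp only [dif_pos h] at hx ⊢
        exact k2 _ x hx
      · simp only [dif_neg h] at hx
        exact absurd (hx.1.trans hx.2) (lt_irrefl _)
    · intro p hp h1 h2 h3
      obtain ⟨j, h4, h5⟩ := hcov p hp h1 h3
      refine ⟨⟨j.1, lt_of_lt_of_le j.2 (le_max_left _ _)⟩, ?_⟩
      have h6 := k3 j p h1 h2 h4 h5
      simp only [j.2, dif_pos]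
      exact h6

end Pool.Agent.H39.HA
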