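import Pool.Agent.H39.HA.CorD
import Pool.Agent.H39.HA.TamA
import Pool.Agent.H39.HG.Rich
/-!
# One half of the incidences

Compare with `halfB` in `Pool/Agent/H39/HG/HalfB.lean` (finished proof). `tame_arcs k` gives `N` arcs for every curve `g i`; for every `j < N` apply `coreD s μ` to the arcs `(i, j)`, `i ∈ ι`: `PSR` from `ps_rich s t k μ` (constants `C1`, `κ0 ≥ 1`; the points of `P` on the arc are on the curve: for `i ∈ Λ`,
`κ ≤ #(X i ∩ Q) ≤ #(Q.filter (∈ Zs (g i)))`), the intersections from `T` (image of the abscissas, `(x, φ 0 x) ∈ Zs (g i)` on the whole arc), exceptional points `≤ N` per curve (times `u ≤ 1`, `GA_ge`).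
-/

set_option autoImplicit false

namespace Pool.Agent.H39.HA

open Finset MvPolynomial Pool.Agent.H22.PS Pool.Agent.H39.HG
open scoped Classical

theorem halfD (s t k μ : ℕ) (hs : 4 ≤ s) : ∃ C : ℝ, 0 ≤ C ∧
    ∀ (h : ℕ) (r u : ℝ), 1 ≤ h → 0 < r → 0 < u → r ^ 2 = h * u ^ 3 → h * u ≤ 1 →
    ∀ (P : Finset (ℝ × ℝ)) (ι : Type) [Fintype ι] (g : ι → MvPolynomial (Fin 2) ℝ),
    (∀ p ∈ P, 0 ≤ p.1 ∧ p.1 ≤ 1) → Hom h r P →
    (∀ i, Irreducible (g i) ∧ (g i).totalDegree ≤ k) →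
    (∀ i j, i ≠ j → ∃ T : Finset (ℝ × ℝ), T.card ≤ μ ∧ Zs (g i) ∩ Zs (g j) ⊆ T) →
    (∀ S ⊆ P, S.card = s → (univ.filter fun i => ∀ p ∈ S, p ∈ Zs (g i)).card < t) →
    (∑ i, ((P.filter fun p => p ∈ Zs (g i) ∧ |eval ![p.1, p.2] (pderiv 0 (g i))| ≤
      |eval ![p.1, p.2] (pderiv 1 (g i))|).card : ℝ)) * u ≤
      C * GA h P.card (Fintype.card ι) := by
  obtain ⟨N0, htame⟩ := tame_arcs k
  obtain ⟨C1, κ0, hC1, hκ0, hrich⟩ := ps_rich s t k μ (by omega)
  obtain ⟨C, hC, hcore⟩ := coreD s μ (by omega) C1 κ0 (by linarith) (by linarith)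
  refine ⟨N0 + N0 * C, by positivity, ?_⟩
  intro h r u hh hr hu hru hhu P ι _ g hP hHom hg hinter hcomb
  have hh1 : (1 : ℝ) ≤ h := by exact_mod_cast hh
  have hu1 : u ≤ 1 := by nlinarith
  choose a b φ E hE hTame hZ hcov using fun i => htame (g i) (hg i).1 (hg i).2
  have hj : ∀ j : Fin N0, (∑ i, ((P.filter fun p => p ∈ crv (a i j) (b i j) (φ i j 0)).card : ℝ)) * u ≤
      C * GA h P.card (Fintype.card ι) := by
    intro j
    refine hcore h r u hh hr hu hru hhu P ι (fun i => a i j) (fun i => b i j) (fun i => φ i j) hHom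
      (fun i => hTame i j) ?_ ?_
    · intro i i' hii
      obtain ⟨T, hT, hsub⟩ := hinter i i' hii
      refine ⟨T.image Prod.fst, card_image_le.trans hT, ?_⟩
      intro x hx hx' hxx
      have h1 : (x, φ i j 0 x) ∈ Zs (g i) := hZ i j x hx
      have h2 : (x, φ i j 0 x) ∈ Zs (g i') := by
        rw [hxx]
        exact hZ i' j x hx'
      exact mem_image.2 ⟨(x, φ i j 0 x), hsub ⟨h1, h2⟩, rfl⟩
    · intro Q hQ κ hκ Λ hΛ
      have hle : ∀ i, (((P.filter fun p => p ∈ crv (a i j) (b i j) (φ i j 0)) ∩ Q).card : ℝ) ≤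
          ((Q.filter fun p => p ∈ Zs (g i)).card : ℝ) := by
        intro i
        have hsub : ((P.filter fun p => p ∈ crv (a i j) (b i j) (φ i j 0)) ∩ Q) ⊆
            (Q.filter fun p => p ∈ Zs (g i)) := by
          intro p hp
          obtain ⟨hp1, hp2⟩ := mem_inter.1 hp
          obtain ⟨-, hp3⟩ := mem_filter.1 hp1
          refine mem_filter.2 ⟨hp2, ?_⟩
          have h3 := hZ i j p.1 hp3.1
          rw [hp3.2.2] at h3
          exact h3
        exact_mod_cast card_le_card hsub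
      have h1 := hrich ι g P hg hinter hcomb Q hQ κ hκ Λ (fun i hi => (hΛ i hi).trans (hle i))
      have hκ1 : 0 ≤ κ := by linarith
      exact le_trans (mul_le_mul_of_nonneg_right (sum_le_sum fun i _ => hle i) (by positivity)) h1
  have hi : ∀ i, ((P.filter fun p => p ∈ Zs (g i) ∧ |eval ![p.1, p.2] (pderiv 0 (g i))| ≤
      |eval ![p.1, p.2] (pderiv 1 (g i))|).card : ℝ) ≤
      N0 + ∑ j, ((P.filter fun p => p ∈ crv (a i j) (b i j) (φ i j 0)).card : ℝ) := by
    intro i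
    have hsub : (P.filter fun p => p ∈ Zs (g i) ∧ |eval ![p.1, p.2] (pderiv 0 (g i))| ≤
        |eval ![p.1, p.2] (pderiv 1 (g i))|) ⊆
        E i ∪ (univ : Finset (Fin N0)).biUnion fun j =>
          P.filter fun p => p ∈ crv (a i j) (b i j) (φ i j 0) := by
      intro p hp
      rw [mem_filter] at hp
      obtain ⟨hpP, hpZ, hpd⟩ := hp
      by_cases hpE : p ∈ E i
      · exact mem_union_left _ hpE
      · obtain ⟨j, hpj⟩ := hcov i p hpZ (hP p hpP) hpd hpE
        exact mem_union_right _ (mem_biUnion.2 ⟨j, mem_univ _, mem_filter.2 ⟨hpP, hpj⟩⟩)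
    have h1 := (card_le_card hsub).trans (card_union_le _ _)
    have h2 : ((univ : Finset (Fin N0)).biUnion fun j =>
        P.filter fun p => p ∈ crv (a i j) (b i j) (φ i j 0)).card ≤
        ∑ j, (P.filter fun p => p ∈ crv (a i j) (b i j) (φ i j 0)).card := card_biUnion_le
    have h3 := hE i
    have h4 : (P.filter fun p => p ∈ Zs (g i) ∧ |eval ![p.1, p.2] (pderiv 0 (g i))| ≤
        |eval ![p.1, p.2] (pderiv 1 (g i))|).card ≤
        N0 + ∑ j, (P.filter fun p => p ∈ crv (a i j) (b i j) (φ i j 0)).card := by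
      omega
    exact_mod_cast h4
  have hGA := GA_ge h P.card (Fintype.card ι) hh
  have hGA0 : 0 ≤ GA h P.card (Fintype.card ι) := le_trans (Nat.cast_nonneg _) hGA
  calc (∑ i, ((P.filter fun p => p ∈ Zs (g i) ∧ |eval ![p.1, p.2] (pderiv 0 (g i))| ≤
      |eval ![p.1, p.2] (pderiv 1 (g i))|).card : ℝ)) * u
      ≤ (∑ i, ((N0 : ℝ) + ∑ j, ((P.filter fun p => p ∈ crv (a i j) (b i j) (φ i j 0)).card : ℝ))) * u :=
        mul_le_mul_of_nonneg_right (sum_le_sum fun i _ => hi i) hu.le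
    _ = N0 * ((Fintype.card ι : ℝ) * u) +
        ∑ j, (∑ i, ((P.filter fun p => p ∈ crv (a i j) (b i j) (φ i j 0)).card : ℝ)) * u := by
        rw [sum_add_distrib, sum_const, card_univ, nsmul_eq_mul, sum_comm, add_mul, sum_mul]
        ring
    _ ≤ N0 * GA h P.card (Fintype.card ι) + ∑ _j : Fin N0, C * GA h P.card (Fintype.card ι) := by
        refine add_le_add (mul_le_mul_of_nonneg_left ?_ (Nat.cast_nonneg _)) (sum_le_sum fun j _ => hj j)
        have h5 : (Fintype.card ι : ℝ) * u ≤ (Fintype.card ι : ℝ) * 1 :=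
          mul_le_mul_of_nonneg_left hu1 (Nat.cast_nonneg _)
        linarith
    _ = (N0 + N0 * C) * GA h P.card (Fintype.card ι) := by
        rw [sum_const, card_univ, Fintype.card_fin, nsmul_eq_mul]
        ring

end Pool.Agent.H39.HA
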