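import Pool.Agent.H39.HA.KeyQ
import Pool.Agent.H39.HA.CovQ
/-!
# Few points on the pieces with near keys

`v = lend R κ.1`, `q1 x = A + B (x - v) + G (x - v) ^ 2 / 2` with `A, B, G` from `key_quad`; for `p ∈ X`: `|p.2 - q1 p.1| ≤ 36 / R ^ 3 = 36 r`, `|B + G (p.1 - v)| ≤ 465`, `v ≤ p.1 ≤ v + 1 / (R * 4 ^ l)` (`pc_loc`). For
`p, q ∈ X`: `q1 p.1 - q1 q.1 = ((B + G (p.1 - v)) + (B + G (q.1 - v))) / 2 * (p.1 - q.1)` (`ring`), so `|p.2 - q.2| ≤ 72 r + 465 |p.1 - q.1|`. `cov_slope` with `c = 465`, `L = 1 / (R * 4 ^ l) ≤ 1 / R`,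
`L / r ≤ R ^ 2` (as `1 / r = R ^ 3`): `#X ≤ 4650 h (R ^ 2 + 1) ≤ 9300 h R ^ 2`.
-/

set_option autoImplicit false

namespace Pool.Agent.H39.HA

open Finset Pool.Agent.H39.HG
open scoped Classical

theorem near_count (R r : ℝ) (hR : 1 ≤ R) (hr : R ^ 3 * r = 1) (bm : ℕ)
    (hbm : (2 : ℝ) ^ bm ≤ 4 * R) (h : ℕ) (P : Finset (ℝ × ℝ)) (hP : Hom h r P)
    (κ : (ℤ × ℤ) × ℤ × ℤ × ℤ) (hκ : κ.1.1.natAbs ≤ bm) (X : Finset (ℝ × ℝ)) (hX : X ⊆ P)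
    (hall : ∀ p ∈ X, ∃ (a b : ℝ) (φ : ℕ → ℝ → ℝ) (z : ℝ), Tame a b φ ∧ p ∈ crv a b (φ 0) ∧
      z ∈ Set.Ioo a b ∧ pc R (φ 3) p.1 = κ.1 ∧ pc R (φ 3) z = κ.1 ∧ near (key R φ κ.1 z) κ) :
    (X.card : ℝ) ≤ 9300 * h * R ^ 2 := by
  have hR0 : (0 : ℝ) < R := by linarith
  have hR3 : (0 : ℝ) < R ^ 3 := by positivity
  have hr0 : 0 < r := by
    by_contra hn
    have : R ^ 3 * r ≤ 0 := mul_nonpos_of_nonneg_of_nonpos hR3.le (not_lt.1 hn)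
    linarith
  have hrR : r = 1 / R ^ 3 := by
    rw [eq_div_iff hR3.ne']
    linarith
  set l : ℕ := κ.1.1.natAbs with hl
  set v : ℝ := lend R κ.1 with hv
  have h4 : (1 : ℝ) ≤ 4 ^ l := one_le_pow₀ (by norm_num)
  have hloc : ∀ p ∈ X, 0 ≤ p.1 - v ∧ p.1 - v ≤ 1 / (R * 4 ^ l) := by
    intro p hp
    obtain ⟨a, b, φ, z, hT, hc, hz, h1, h2, h3⟩ := hall p hp
    exact pc_loc R hR0 (φ 3) p.1 κ.1 h1
  obtain ⟨A, hA⟩ : ∃ A : ℝ, A = κ.2.1 / R ^ 3 := ⟨_, rfl⟩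
  obtain ⟨B, hB⟩ : ∃ B : ℝ, B = κ.2.2.1 * (4 ^ l / R ^ 2) := ⟨_, rfl⟩
  obtain ⟨G, hG⟩ : ∃ G : ℝ, G = κ.2.2.2 * (16 ^ l / R) := ⟨_, rfl⟩
  have hquad : ∀ p ∈ X, |p.2 - (A + B * (p.1 - v) + G * (p.1 - v) ^ 2 / 2)| ≤ 36 * r ∧
      |B + G * (p.1 - v)| ≤ 465 := by
    intro p hp
    obtain ⟨a, b, φ, z, hT, hc, hz, h1, h2, h3⟩ := hall p hp
    have h4 := key_quad a b R hR bm hbm κ hκ φ hT p.1 z ⟨hc.1.1, hc.1.2⟩ hz h1 h2 h3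
    have h5 : φ 0 p.1 = p.2 := hc.2.2
    rw [h5] at h4
    have h6 : (36 : ℝ) * r = 36 / R ^ 3 := by rw [hrR]; ring
    rw [h6, hA, hB, hG]
    exact h4
  have hcov := cov_slope h r hr0 P hP X hX v (1 / (R * 4 ^ l)) 465 (by positivity) (by norm_num)
    (fun p hp => ⟨by linarith [(hloc p hp).1], by linarith [(hloc p hp).2]⟩) ?_
  · have hL : 1 / (R * 4 ^ l) / r ≤ R ^ 2 := by
      rw [div_le_iff₀ hr0, div_le_iff₀ (by positivity)]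
      have e1 : R ^ 2 * r * (R * 4 ^ l) = R ^ 3 * r * 4 ^ l := by ring
      rw [e1, hr, one_mul]
      exact h4
    have hR2 : (1 : ℝ) ≤ R ^ 2 := one_le_pow₀ hR
    refine hcov.trans ?_
    have hh : (0 : ℝ) ≤ h := Nat.cast_nonneg h
    calc 10 * 465 * (h : ℝ) * (1 / (R * 4 ^ l) / r + 1)
        ≤ 10 * 465 * (h : ℝ) * (R ^ 2 + R ^ 2) :=
          mul_le_mul_of_nonneg_left (add_le_add hL hR2) (by positivity)
      _ = 9300 * h * R ^ 2 := by ring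
  · intro p hp q hq
    obtain ⟨p1, p2⟩ := hquad p hp
    obtain ⟨q1, q2⟩ := hquad q hq
    have e1 : p.2 - q.2 = (p.2 - (A + B * (p.1 - v) + G * (p.1 - v) ^ 2 / 2)) -
        (q.2 - (A + B * (q.1 - v) + G * (q.1 - v) ^ 2 / 2)) +
        ((B + G * (p.1 - v)) + (B + G * (q.1 - v))) / 2 * (p.1 - q.1) := by ring
    have e2 : |((B + G * (p.1 - v)) + (B + G * (q.1 - v))) / 2 * (p.1 - q.1)| ≤
        465 * |p.1 - q.1| := by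
      rw [abs_mul]
      refine mul_le_mul_of_nonneg_right ?_ (abs_nonneg _)
      rw [abs_le] at p2 q2 ⊢
      constructor <;> linarith [p2.1, p2.2, q2.1, q2.2]
    rw [abs_le] at p1 q1
    have e3 := abs_le.1 e2
    have h0 : 0 ≤ |p.1 - q.1| := abs_nonneg _
    rw [e1, abs_le]
    constructor <;> linarith [p1.1, p1.2, q1.1, q1.2, e3.1, e3.2]

end Pool.Agent.H39.HA
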