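import Pool.Agent.H39.HA.Defs
/-!
# Number of near keys

The map `κ' ↦ (κ'.2.1 - κ.2.1, κ'.2.2.1 - κ.2.2.1, κ'.2.2.2 - κ.2.2.2)` is injective on the near keys and has values in `Icc (-13) 13 ×ˢ Icc (-13) 13 ×ˢ Icc (-13) 13`, which has `27 ^ 3 = 19683`
elements (`Int.card_Icc`).
-/

set_option autoImplicit false

namespace Pool.Agent.H39.HA

open Finset
open scoped Classical

theorem near_refl (κ : (ℤ × ℤ) × ℤ × ℤ × ℤ) : near κ κ := by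
  refine ⟨rfl, ?_, ?_, ?_⟩ <;> simp

theorem near_few (κ : (ℤ × ℤ) × ℤ × ℤ × ℤ) (F : Finset ((ℤ × ℤ) × ℤ × ℤ × ℤ)) :
    (F.filter fun κ' => near κ κ').card ≤ 19683 := by
  have hc : ((Icc (-13 : ℤ) 13) ×ˢ ((Icc (-13 : ℤ) 13) ×ˢ (Icc (-13 : ℤ) 13))).card = 19683 := by
    rw [card_product, card_product, Int.card_Icc]
    rfl
  rw [← hc]
  refine card_le_card_of_injOn
    (fun κ' => (κ'.2.1 - κ.2.1, κ'.2.2.1 - κ.2.2.1, κ'.2.2.2 - κ.2.2.2)) ?_ ?_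
  · intro κ' hκ'
    rw [mem_coe, mem_filter] at hκ'
    obtain ⟨-, -, h1, h2, h3⟩ := hκ'
    rw [abs_le] at h1 h2 h3
    rw [mem_coe, mem_product, mem_product, mem_Icc, mem_Icc, mem_Icc]
    refine ⟨⟨?_, ?_⟩, ⟨?_, ?_⟩, ⟨?_, ?_⟩⟩
    · change -13 ≤ κ'.2.1 - κ.2.1
      omega
    · change κ'.2.1 - κ.2.1 ≤ 13
      omega
    · change -13 ≤ κ'.2.2.1 - κ.2.2.1
      omega
    · change κ'.2.2.1 - κ.2.2.1 ≤ 13
      omega
    · change -13 ≤ κ'.2.2.2 - κ.2.2.2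
      omega
    · change κ'.2.2.2 - κ.2.2.2 ≤ 13
      omega
  · intro κ₁ h₁ κ₂ h₂ h
    rw [mem_coe, mem_filter] at h₁ h₂
    have e0 : κ₁.1 = κ₂.1 := h₁.2.1.symm.trans h₂.2.1
    rw [Prod.mk.injEq, Prod.mk.injEq] at h
    obtain ⟨e1, e2, e3⟩ := h
    refine Prod.ext e0 (Prod.ext ?_ (Prod.ext ?_ ?_))
    · exact sub_left_injective e1
    · exact sub_left_injective e2
    · exact sub_left_injective e3

end Pool.Agent.H39.HA
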