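import Pool.Agent.H39.HA.Prune
import Pool.Agent.H39.HA.Hon
import Pool.Agent.H39.HA.CntP
import Pool.Agent.H39.HA.NearF
/-!
# Number of heavy incidences

The pieces: `F` = the image of `{(i, p) : p ∈ rt i}` (`rt i = rt P bm (a i) (b i) (φ i)`) under `(i, p) ↦ (i, pc R (φ i 3) p.1)`, a finite set of pairs `(i, τ)`; `#F ≤ ∑ i, #((rt i).image (fun p => pc R (φ i 3) p.1)) ≤ 100 R #ι` (`pc_count` for the set of the abscissas of `rt i`). `prune` for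
`ρ = {x // x ∈ F}`, `Q (i, τ) = (rt i).filter (pc R (φ i 3) p.1 = τ)`, `key (i, τ) = key R (φ i) τ (z i τ)`, `nr = near`, `A3 = 19683` (`near_few`), `C = 2 C1`, `κ' = (κ0 + 97) √h R` (so `κ' ≥ κ0` and `κ' ^ 2 ≥ 9300 h R ^ 2`). `hPS`: near keys have the same `τ`, so
the indices `(i, τ)` in `Λ` have different `i`; the set `X` has at most `9300 h R ^ 2 ≤ κ' ^ 2` points by `near_count` (`κ` = the key of `ρ0`, `X ⊆ P`; level of `τ` at most `bm` as there is a point of `rt i` in the piece; `z` from `hz`), and `Q ρ' ∩ X ⊆` the points of the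
arc `i` in `X`, so the hypothesis `PSR` for `X` and `κ'` gives `∑ #(Q ρ' ∩ X) ≤ C1 (#X ^ s / κ' ^ (2 s - 2) + #X) ≤ 2 C1 #X`. Conclusion: the number of pairs `(i, p)` with `p ∈ rt i` and more than `4 C1` near
pieces through `p` is `≤ 2 κ' * 19683 * 100 R #ι ≤ C √h R ^ 2 #ι` with `C = 4000000 (κ0 + 97)`. (Each `p ∈ rt i` is in exactly one piece `(i, τ)`, and `nbr` counts the same `i'`.)
-/

set_option autoImplicit false

namespace Pool.Agent.H39.HA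

open Finset Pool.Agent.H39.HG
open scoped Classical

private lemma hevc_rt {P : Finset (ℝ × ℝ)} {bm : ℕ} {a b : ℝ} {φ : ℕ → ℝ → ℝ} {p : ℝ × ℝ} :
    p ∈ rt P bm a b φ ↔ p ∈ P ∧ p ∈ crv a b (φ 0) ∧ (lv (φ 3 p.1)).natAbs ≤ bm := by
  unfold rt
  rw [mem_filter]

/-- the set of the pieces -/
private noncomputable def hevc_F (P : Finset (ℝ × ℝ)) (bm : ℕ) (R : ℝ) {ι : Type} [Fintype ι]
    (a b : ι → ℝ) (φ : ι → ℕ → ℝ → ℝ) : Finset (ι × (ℤ × ℤ)) :=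
  univ.biUnion fun i => (rt P bm (a i) (b i) (φ i)).image fun p => (i, pc R (φ i 3) p.1)

private lemma hevc_mem {P : Finset (ℝ × ℝ)} {bm : ℕ} {R : ℝ} {ι : Type} [Fintype ι]
    {a b : ι → ℝ} {φ : ι → ℕ → ℝ → ℝ} {x : ι × (ℤ × ℤ)} :
    x ∈ hevc_F P bm R a b φ ↔ ∃ p ∈ rt P bm (a x.1) (b x.1) (φ x.1), pc R (φ x.1 3) p.1 = x.2 := by
  unfold hevc_F
  rw [mem_biUnion]
  constructor
  · rintro ⟨i, -, h⟩
    rw [mem_image] at h
    obtain ⟨p, hp, rfl⟩ := h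
    exact ⟨p, hp, rfl⟩
  · rintro ⟨p, hp, h⟩
    refine ⟨x.1, mem_univ _, ?_⟩
    rw [mem_image]
    exact ⟨p, hp, by rw [h]⟩

private lemma hevc_card {P : Finset (ℝ × ℝ)} {bm : ℕ} {R : ℝ} (hR : 1 ≤ R) (hbm : (2 : ℝ) ^ bm ≤ 4 * R)
    {ι : Type} [Fintype ι] {a b : ι → ℝ} {φ : ι → ℕ → ℝ → ℝ} (hT : ∀ i, Tame (a i) (b i) (φ i)) :
    ((hevc_F P bm R a b φ).card : ℝ) ≤ 100 * R * Fintype.card ι := by
  have h1 : ((hevc_F P bm R a b φ).card : ℝ) ≤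
      ∑ i : ι, (((rt P bm (a i) (b i) (φ i)).image fun p => (i, pc R (φ i 3) p.1)).card : ℝ) := by
    unfold hevc_F
    exact_mod_cast card_biUnion_le
  have h2 : ∀ i : ι, (((rt P bm (a i) (b i) (φ i)).image fun p => (i, pc R (φ i 3) p.1)).card : ℝ) ≤
      100 * R := by
    intro i
    have h3 := pc_count (a i) (b i) R hR (φ i) (hT i) bm hbm ((rt P bm (a i) (b i) (φ i)).image Prod.fst)
      (by
        intro x hx
        rw [mem_image] at hx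
        obtain ⟨p, hp, rfl⟩ := hx
        obtain ⟨-, ⟨h4, h5, -⟩, h6⟩ := hevc_rt.1 hp
        exact ⟨h4, h5, h6⟩)
    refine le_trans ?_ h3
    have h7 : ((rt P bm (a i) (b i) (φ i)).image fun p => (i, pc R (φ i 3) p.1)) =
        (((rt P bm (a i) (b i) (φ i)).image Prod.fst).image (pc R (φ i 3))).image (Prod.mk i) := by
      rw [image_image, image_image]
      rfl
    rw [h7]
    exact_mod_cast card_image_le
  calc ((hevc_F P bm R a b φ).card : ℝ) ≤ _ := h1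
    _ ≤ ∑ _i : ι, 100 * R := sum_le_sum fun i _ => h2 i
    _ = 100 * R * Fintype.card ι := by
      rw [sum_const, nsmul_eq_mul, card_univ]
      ring

private lemma hevc_psr {s : ℕ} (hs : 2 ≤ s) {C1 κ n : ℝ} (hC1 : 0 ≤ C1) (hκ : 0 < κ) (hn0 : 0 ≤ n)
    (hn : n ≤ κ ^ 2) {T : ℝ} (hT : T * κ ^ (2 * s - 2) ≤ C1 * (n ^ s + n * κ ^ (2 * s - 2))) :
    T ≤ 2 * C1 * n := by
  have h1 : n ^ s ≤ n * κ ^ (2 * s - 2) := by
    obtain ⟨k, rfl⟩ : ∃ k, s = k + 1 := ⟨s - 1, by omega⟩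
    rw [pow_succ, mul_comm, show 2 * (k + 1) - 2 = 2 * k by omega, pow_mul]
    exact mul_le_mul_of_nonneg_left (pow_le_pow_left₀ hn0 hn k) hn0
  have h2 : T * κ ^ (2 * s - 2) ≤ 2 * C1 * n * κ ^ (2 * s - 2) := by
    refine hT.trans ?_
    have h3 := mul_le_mul_of_nonneg_left h1 hC1
    linarith
  exact le_of_mul_le_mul_right h2 (pow_pos hκ _)

theorem heavy_count (s : ℕ) (hs : 2 ≤ s) (C1 κ0 : ℝ) (hC1 : 0 ≤ C1) (hκ0 : 0 ≤ κ0) :
    ∃ C : ℝ, 0 ≤ C ∧ ∀ (R r : ℝ), 1 ≤ R → R ^ 3 * r = 1 → ∀ bm : ℕ, (2 : ℝ) ^ bm ≤ 4 * R →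
    ∀ (h : ℕ), 1 ≤ h → ∀ (P : Finset (ℝ × ℝ)), Hom h r P → ∀ (ι : Type) [Fintype ι]
    (a b : ι → ℝ) (φ : ι → ℕ → ℝ → ℝ) (z : ι → ℤ × ℤ → ℝ), (∀ i, Tame (a i) (b i) (φ i)) →
    (∀ i, ∀ p ∈ rt P bm (a i) (b i) (φ i), z i (pc R (φ i 3) p.1) ∈ Set.Ioo (a i) (b i) ∧
      pc R (φ i 3) (z i (pc R (φ i 3) p.1)) = pc R (φ i 3) p.1) →
    PSR P (fun i => P.filter fun p => p ∈ crv (a i) (b i) (φ i 0)) s C1 κ0 →
    (∑ i, (((rt P bm (a i) (b i) (φ i)).filter fun p =>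
      4 * C1 < ((nbr P bm R a b φ z i p).card : ℝ)).card : ℝ)) ≤
      C * (Real.sqrt h * R ^ 2 * Fintype.card ι) := by
  refine ⟨4000000 * (κ0 + 97), by positivity, ?_⟩
  intro R r hR hr bm hbm h hh P hP ι _ a b φ z hT hz hPSR
  have hh1 : (1 : ℝ) ≤ Real.sqrt h := by
    rw [Real.one_le_sqrt]
    exact_mod_cast hh
  have hh2 : Real.sqrt h ^ 2 = h := Real.sq_sqrt (Nat.cast_nonneg h)
  obtain ⟨κ', hκ'⟩ : ∃ κ' : ℝ, κ' = (κ0 + 97) * Real.sqrt h * R := ⟨_, rfl⟩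
  have hhR : 1 ≤ Real.sqrt h * R := one_le_mul_of_one_le_of_one_le hh1 hR
  have hκ1 : κ0 ≤ κ' := by
    rw [hκ', mul_assoc]
    nlinarith
  have hκ2 : 0 < κ' := by
    rw [hκ']
    positivity
  have hκ3 : 9300 * (h : ℝ) * R ^ 2 ≤ κ' ^ 2 := by
    have h1 : κ' ^ 2 = (κ0 + 97) ^ 2 * (h * R ^ 2) := by
      rw [hκ', mul_pow, mul_pow, hh2]
      ring
    have h2 : (9300 : ℝ) ≤ (κ0 + 97) ^ 2 := by nlinarith
    rw [h1, mul_assoc]
    exact mul_le_mul_of_nonneg_right h2 (by positivity)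
  -- the pieces
  obtain ⟨Q, hQ⟩ : ∃ Q : {x // x ∈ hevc_F P bm R a b φ} → Finset (ℝ × ℝ), Q = fun x =>
      (rt P bm (a x.1.1) (b x.1.1) (φ x.1.1)).filter fun p => pc R (φ x.1.1 3) p.1 = x.1.2 := ⟨_, rfl⟩
  have hQm : ∀ x p, p ∈ Q x ↔ p ∈ rt P bm (a x.1.1) (b x.1.1) (φ x.1.1) ∧
      pc R (φ x.1.1 3) p.1 = x.1.2 := by
    intro x p
    rw [hQ, mem_filter]
  obtain ⟨ky, hky⟩ : ∃ ky : {x // x ∈ hevc_F P bm R a b φ} → (ℤ × ℤ) × ℤ × ℤ × ℤ, ky = fun x =>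
      key R (φ x.1.1) x.1.2 (z x.1.1 x.1.2) := ⟨_, rfl⟩
  have hky1 : ∀ x, (ky x).1 = x.1.2 := by
    intro x
    rw [hky]
    rfl
  have hlv : ∀ x : {x // x ∈ hevc_F P bm R a b φ}, x.1.2.1.natAbs ≤ bm := by
    intro x
    obtain ⟨p, hp, hpx⟩ := hevc_mem.1 x.2
    rw [← hpx]
    exact (hevc_rt.1 hp).2.2
  have hpr := prune Q ky near near_refl 19683 near_few (2 * C1) κ' (by positivity) hκ2.le (by
    intro ρ0 X hX Λ hΛ
    have hQX : ∀ x, (@Inter.inter (Finset (ℝ × ℝ)) (@Finset.instInter (ℝ × ℝ) fun a b =>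
        Classical.propDecidable (a = b)) (Q x) X) = Q x ∩ X := by
      intro x
      ext p
      exact (@mem_inter _ (_) _ _ _).trans (@mem_inter _ (_) _ _ _).symm
    have hΛ2 : ∀ x ∈ Λ, κ' ≤ ((Q x ∩ X).card : ℝ) := by
      intro x hx
      have h1 := (hΛ x hx).2
      rw [hQX] at h1
      exact h1
    have hΛ1 : ∀ x ∈ Λ, (ky x).1 = (ky ρ0).1 := fun x hx => (hΛ x hx).1.1
    clear hΛ
    have hXP : X ⊆ P := by
      intro p hp
      obtain ⟨ρ', -, h2⟩ := hX p hp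
      exact (hevc_rt.1 ((hQm _ _).1 h2).1).1
    have hXc : (X.card : ℝ) ≤ 9300 * h * R ^ 2 := by
      refine near_count R r hR hr bm hbm h P hP (ky ρ0) ?_ X hXP ?_
      · rw [hky1]
        exact hlv ρ0
      · intro p hp
        obtain ⟨ρ', h1, h2⟩ := hX p hp
        obtain ⟨h3, h4⟩ := (hQm _ _).1 h2
        have h5 : ρ'.1.2 = (ky ρ0).1 := by
          rw [← h1.1, hky1]
        have h6 := hz ρ'.1.1 p h3
        rw [h4, h5] at h6
        refine ⟨a ρ'.1.1, b ρ'.1.1, φ ρ'.1.1, z ρ'.1.1 (ky ρ0).1, hT _, (hevc_rt.1 h3).2.1, h6.1,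
          h4.trans h5, h6.2, ?_⟩
        rw [← h5]
        rw [hky] at h1 ⊢
        exact h1
    have hinj : ∀ x ∈ Λ, ∀ y ∈ Λ, x.1.1 = y.1.1 → x = y := by
      intro x hx y hy hxy
      have h1 : x.1.2 = y.1.2 := by
        rw [← hky1 x, ← hky1 y, hΛ1 x hx, hΛ1 y hy]
      exact Subtype.ext (Prod.ext hxy h1)
    have hsub : ∀ x ∈ Λ, (((Q x) ∩ X).card : ℝ) ≤
        (((P.filter fun p => p ∈ crv (a x.1.1) (b x.1.1) (φ x.1.1 0)) ∩ X).card : ℝ) := by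
      intro x _
      have : (((Q x) ∩ X).card) ≤
          (((P.filter fun p => p ∈ crv (a x.1.1) (b x.1.1) (φ x.1.1 0)) ∩ X).card) := by
        refine card_le_card fun p hp => ?_
        rw [mem_inter] at hp ⊢
        obtain ⟨h1, h2⟩ := hp
        have h3 := hevc_rt.1 ((hQm _ _).1 h1).1
        exact ⟨mem_filter.2 ⟨h3.1, h3.2.1⟩, h2⟩
      exact_mod_cast this
    have h1 := hPSR X hXP κ' hκ1 (Λ.image fun x => x.1.1) (by
      intro i hi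
      rw [mem_image] at hi
      obtain ⟨x, hx, rfl⟩ := hi
      exact (hΛ2 x hx).trans (hsub x hx))
    rw [sum_image (fun x hx y hy hxy => hinj x hx y hy hxy)] at h1
    have h2 := hevc_psr hs hC1 hκ2 (Nat.cast_nonneg X.card) (hXc.trans hκ3) h1
    refine le_trans (sum_le_sum fun x hx => ?_) h2
    rw [hQX]
    exact hsub x hx)
  rw [Fintype.card_coe] at hpr
  have hcard := hevc_card (P := P) hR hbm hT
  -- compare the sums
  have hcomp : ∀ T : {x // x ∈ hevc_F P bm R a b φ} → Finset (ℝ × ℝ),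
      (∀ ρ0 p, p ∈ Q ρ0 → 4 * C1 < ((nbr P bm R a b φ z ρ0.1.1 p).card : ℝ) → p ∈ T ρ0) →
      (∑ i, (((rt P bm (a i) (b i) (φ i)).filter fun p =>
      4 * C1 < ((nbr P bm R a b φ z i p).card : ℝ)).card : ℝ)) ≤ ∑ ρ0, ((T ρ0).card : ℝ) := by
    intro T hTm
    have h1 : (univ.sigma fun i => (rt P bm (a i) (b i) (φ i)).filter fun p =>
        4 * C1 < ((nbr P bm R a b φ z i p).card : ℝ)).card ≤ (univ.sigma T).card := by
      refine card_le_card_of_surjOn (fun y => ⟨y.1.1.1, y.2⟩) ?_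
      rintro ⟨i, p⟩ hip
      rw [mem_coe, mem_sigma, mem_filter] at hip
      obtain ⟨-, hp, hlt⟩ := hip
      have hmem : (i, pc R (φ i 3) p.1) ∈ hevc_F P bm R a b φ := hevc_mem.2 ⟨p, hp, rfl⟩
      refine ⟨⟨⟨(i, pc R (φ i 3) p.1), hmem⟩, p⟩, ?_, rfl⟩
      rw [mem_coe, mem_sigma]
      exact ⟨mem_univ _, hTm _ _ ((hQm _ _).2 ⟨hp, rfl⟩) hlt⟩
    rw [card_sigma, card_sigma] at h1
    exact_mod_cast h1
  have hnbr : ∀ (ρ0 : {x // x ∈ hevc_F P bm R a b φ}) p, p ∈ Q ρ0 →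
      ∀ U : Finset {x // x ∈ hevc_F P bm R a b φ},
      (∀ ρ', near (ky ρ') (ky ρ0) ∧ p ∈ Q ρ' → ρ' ∈ U) → (nbr P bm R a b φ z ρ0.1.1 p).card ≤ U.card := by
    rintro ⟨⟨i, τ⟩, hiτ⟩ p hp U hU
    obtain ⟨hp1, hp2⟩ := (hQm _ _).1 hp
    replace hp2 : pc R (φ i 3) p.1 = τ := hp2
    subst hp2
    refine card_le_card_of_surjOn (fun y => y.1.1) ?_
    intro i' hi'
    rw [mem_coe] at hi'
    unfold nbr at hi'
    rw [mem_filter] at hi'
    obtain ⟨-, h3, h4, h5⟩ := hi'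
    have hmem' : (i', pc R (φ i 3) p.1) ∈ hevc_F P bm R a b φ := hevc_mem.2 ⟨p, h3, h4⟩
    refine ⟨⟨(i', pc R (φ i 3) p.1), hmem'⟩, ?_, rfl⟩
    rw [mem_coe]
    refine hU _ ⟨?_, (hQm _ _).2 ⟨h3, h4⟩⟩
    rw [hky]
    exact h5
  refine (hcomp _ ?_).trans (hpr.trans ?_)
  · intro ρ0 p hp hlt
    rw [mem_filter]
    refine ⟨hp, lt_of_le_of_lt (by linarith) (hlt.trans_le ?_)⟩
    refine Nat.cast_le.2 (hnbr ρ0 p hp _ ?_)
    intro ρ' h1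
    exact (@mem_filter _ _ (_) _ _).2 ⟨mem_univ _, h1⟩
  have h3 : 2 * κ' * 19683 * ((hevc_F P bm R a b φ).card : ℝ) ≤
      2 * κ' * 19683 * (100 * R * Fintype.card ι) :=
    mul_le_mul_of_nonneg_left hcard (by positivity)
  have h4 : 0 ≤ (κ0 + 97) * (Real.sqrt h * R ^ 2 * Fintype.card ι) := by positivity
  have h5 : 2 * κ' * 19683 * (100 * R * Fintype.card ι) =
      3936600 * ((κ0 + 97) * (Real.sqrt h * R ^ 2 * Fintype.card ι)) := by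
    rw [hκ']
    ring
  rw [h5] at h3
  push_cast
  refine h3.trans ?_
  linarith

end Pool.Agent.H39.HA
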