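import Pool.Agent.H39.HA.HalfD
import Pool.Agent.H39.HG.Sw
import Pool.Agent.H39.HG.Cov

/-!
# All incidences with irreducible curves

Copy of `Pool/Agent/H39/HG/IrrB.lean` for the bound `GA`: apply `halfD` to the curves and to the curves with exchanged coordinates.
-/

set_option autoImplicit false

namespace Pool.Agent.H39.HA

open Finset MvPolynomial Pool.Agent.H22.PS Pool.Agent.H39.HG
open scoped Classical

private theorem irrD_swap_card (P : Finset (ℝ × ℝ)) : (P.image Prod.swap).card = P.card :=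
  card_image_of_injective _ Prod.swap_injective

private theorem irrD_swap_hom {h : ℕ} {r : ℝ} {P : Finset (ℝ × ℝ)} (hP : Hom h r P) :
    Hom h r (P.image Prod.swap) := by
  intro u v
  refine le_trans ?_ (hP v u)
  rw [← irrD_swap_card (P.filter fun p => (v ≤ p.1 ∧ p.1 ≤ v + r) ∧ u ≤ p.2 ∧ p.2 ≤ u + r)]
  refine card_le_card fun q hq => ?_
  rw [mem_filter, mem_image] at hq
  obtain ⟨⟨p, hp, rfl⟩, ⟨h1, h2⟩, h3, h4⟩ := hq
  exact mem_image.2 ⟨p, mem_filter.2 ⟨hp, ⟨h3, h4⟩, h1, h2⟩, rfl⟩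

private theorem irrD_swap_mem (f : MvPolynomial (Fin 2) ℝ) (p : ℝ × ℝ) :
    p.swap ∈ Zs (sw f) ↔ p ∈ Zs f := by
  rw [sw_mem]
  rfl

private theorem irrD_swap_inter {μ : ℕ} {f g : MvPolynomial (Fin 2) ℝ}
    (h : ∃ T : Finset (ℝ × ℝ), T.card ≤ μ ∧ Zs f ∩ Zs g ⊆ T) :
    ∃ T : Finset (ℝ × ℝ), T.card ≤ μ ∧ Zs (sw f) ∩ Zs (sw g) ⊆ T := by
  obtain ⟨T, hT, hsub⟩ := h
  refine ⟨T.image Prod.swap, (irrD_swap_card T).le.trans hT, ?_⟩
  rintro p ⟨hp1, hp2⟩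
  have h1 : p.swap ∈ Zs f := by
    rw [← irrD_swap_mem, Prod.swap_swap]
    exact hp1
  have h2 : p.swap ∈ Zs g := by
    rw [← irrD_swap_mem, Prod.swap_swap]
    exact hp2
  have h3 : p.swap ∈ T := by exact_mod_cast hsub ⟨h1, h2⟩
  rw [mem_coe, mem_image]
  exact ⟨p.swap, h3, Prod.swap_swap p⟩

private theorem irrD_swap_comb {ι : Type} [Fintype ι] {s t : ℕ} {P : Finset (ℝ × ℝ)}
    {g : ι → MvPolynomial (Fin 2) ℝ}
    (h : ∀ S ⊆ P, S.card = s → (univ.filter fun i => ∀ p ∈ S, p ∈ Zs (g i)).card < t) :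
    ∀ S ⊆ P.image Prod.swap, S.card = s →
      (univ.filter fun i => ∀ p ∈ S, p ∈ Zs (sw (g i))).card < t := by
  intro S hS hc
  have h1 : S.image Prod.swap ⊆ P := by
    intro p hp
    obtain ⟨q, hq, rfl⟩ := mem_image.1 hp
    obtain ⟨p', hp', h2⟩ := mem_image.1 (hS hq)
    rw [← h2, Prod.swap_swap]
    exact hp'
  refine lt_of_le_of_lt (card_le_card ?_) (h (S.image Prod.swap) h1 ((irrD_swap_card S).trans hc))
  intro i hi
  rw [mem_filter] at hi ⊢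
  refine ⟨hi.1, fun p hp => ?_⟩
  obtain ⟨q, hq, rfl⟩ := mem_image.1 hp
  have h2 := hi.2 q hq
  rw [← irrD_swap_mem, Prod.swap_swap]
  exact h2

private theorem irrD_swap_flat (P : Finset (ℝ × ℝ)) (f : MvPolynomial (Fin 2) ℝ) :
    (P.filter fun p => p ∈ Zs f).card ≤
      (P.filter fun p => p ∈ Zs f ∧ |eval ![p.1, p.2] (pderiv 0 f)| ≤
        |eval ![p.1, p.2] (pderiv 1 f)|).card +
      ((P.image Prod.swap).filter fun p => p ∈ Zs (sw f) ∧
        |eval ![p.1, p.2] (pderiv 0 (sw f))| ≤ |eval ![p.1, p.2] (pderiv 1 (sw f))|).card := by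
  have h2 : (P.filter fun p => p ∈ Zs f ∧ |eval ![p.1, p.2] (pderiv 1 f)| ≤
      |eval ![p.1, p.2] (pderiv 0 f)|).card ≤
      ((P.image Prod.swap).filter fun p => p ∈ Zs (sw f) ∧
        |eval ![p.1, p.2] (pderiv 0 (sw f))| ≤ |eval ![p.1, p.2] (pderiv 1 (sw f))|).card := by
    rw [← irrD_swap_card (P.filter fun p => p ∈ Zs f ∧ |eval ![p.1, p.2] (pderiv 1 f)| ≤
      |eval ![p.1, p.2] (pderiv 0 f)|)]
    refine card_le_card fun q hq => ?_
    obtain ⟨p, hp, rfl⟩ := mem_image.1 hq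
    rw [mem_filter] at hp
    refine mem_filter.2 ⟨mem_image_of_mem _ hp.1, (irrD_swap_mem f p).2 hp.2.1, ?_⟩
    rw [sw_pd0, sw_pd1, sw_eval, sw_eval]
    exact hp.2.2
  refine le_trans ?_ (Nat.add_le_add_left h2 _)
  refine le_trans (card_le_card ?_) (card_union_le _ _)
  intro p hp
  rw [mem_filter] at hp
  rcases le_total |eval ![p.1, p.2] (pderiv 0 f)| |eval ![p.1, p.2] (pderiv 1 f)| with h | h
  · exact mem_union_left _ (mem_filter.2 ⟨hp.1, hp.2, h⟩)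
  · exact mem_union_right _ (mem_filter.2 ⟨hp.1, hp.2, h⟩)

theorem irrD (s t k μ : ℕ) (hs : 4 ≤ s) : ∃ C : ℝ, 0 ≤ C ∧
    ∀ (h : ℕ) (r u : ℝ), 1 ≤ h → 0 < r → 0 < u → r ^ 2 = h * u ^ 3 → h * u ≤ 1 →
    ∀ (P : Finset (ℝ × ℝ)) (ι : Type) [Fintype ι] (g : ι → MvPolynomial (Fin 2) ℝ),
    (∀ p ∈ P, (0 ≤ p.1 ∧ p.1 ≤ 1) ∧ 0 ≤ p.2 ∧ p.2 ≤ 1) → Hom h r P →
    (∀ i, Irreducible (g i) ∧ (g i).totalDegree ≤ k) →
    (∀ i j, i ≠ j → ∃ T : Finset (ℝ × ℝ), T.card ≤ μ ∧ Zs (g i) ∩ Zs (g j) ⊆ T) →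
    (∀ S ⊆ P, S.card = s → (univ.filter fun i => ∀ p ∈ S, p ∈ Zs (g i)).card < t) →
    (∑ i, ((P.filter fun p => p ∈ Zs (g i)).card : ℝ)) * u ≤
      C * GA h P.card (Fintype.card ι) := by
  obtain ⟨C, hC, hmain⟩ := halfD s t k μ hs
  refine ⟨2 * C, by positivity, ?_⟩
  intro h r u hh hr hu hru hhu P ι _ g hP hHom hg hinter hcomb
  have a1 := hmain h r u hh hr hu hru hhu P ι g (fun p hp => (hP p hp).1) hHom hg hinter hcomb
  have a2 := hmain h r u hh hr hu hru hhu (P.image Prod.swap) ι (fun i => sw (g i)) (by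
      intro p hp
      obtain ⟨q, hq, rfl⟩ := mem_image.1 hp
      exact (hP q hq).2) (irrD_swap_hom hHom)
      (fun i => ⟨sw_irr _ (hg i).1, (sw_deg _).trans_le (hg i).2⟩)
    (fun i j hij => irrD_swap_inter (hinter i j hij)) (irrD_swap_comb hcomb)
  rw [irrD_swap_card] at a2
  calc (∑ i, ((P.filter fun p => p ∈ Zs (g i)).card : ℝ)) * u
      ≤ (∑ i, (((P.filter fun p => p ∈ Zs (g i) ∧ |eval ![p.1, p.2] (pderiv 0 (g i))| ≤
          |eval ![p.1, p.2] (pderiv 1 (g i))|).card : ℝ) +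
        (((P.image Prod.swap).filter fun p => p ∈ Zs (sw (g i)) ∧
          |eval ![p.1, p.2] (pderiv 0 (sw (g i)))| ≤
            |eval ![p.1, p.2] (pderiv 1 (sw (g i)))|).card : ℝ))) * u :=
        mul_le_mul_of_nonneg_right
          (sum_le_sum fun i _ => by exact_mod_cast irrD_swap_flat P (g i)) hu.le
    _ ≤ C * GA h P.card (Fintype.card ι) + C * GA h P.card (Fintype.card ι) := by
        rw [sum_add_distrib, add_mul]
        exact add_le_add a1 a2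
    _ = 2 * C * GA h P.card (Fintype.card ι) := by ring

end Pool.Agent.H39.HA
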