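import Mathlib

/-!
# Taylor estimates for three derivatives

On the segment from `z` to `x` (length `≤ w`) the third derivative is at most `M` in absolute value. Mean value inequality three
times: `|φ 2 y - φ 2 z| ≤ M w` for all `y` in the segment (`Convex.norm_image_sub_le_of_norm_hasDerivWithin_le` on `Set.uIcc z x`, which is convex), then
for `y ↦ φ 1 y - (φ 1 z + φ 2 z (y - z))` with derivative `φ 2 y - φ 2 z`, then for `y ↦ φ 0 y - (φ 0 z + φ 1 z (y - z) + φ 2 z (y - z) ^ 2 / 2)`.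
-/

set_option autoImplicit false

namespace Pool.Agent.H39.HA

open Finset
open scoped Classical

private theorem tay_mv (g g' : ℝ → ℝ) (z x C : ℝ)
    (hd : ∀ y ∈ Set.uIcc z x, HasDerivAt g (g' y) y) (hb : ∀ y ∈ Set.uIcc z x, |g' y| ≤ C) :
    ∀ y ∈ Set.uIcc z x, |g y - g z| ≤ C * |y - z| := by
  intro y hy
  have h := Convex.norm_image_sub_le_of_norm_hasDerivWithin_le (f := g) (f' := g') (C := C)
    (s := Set.uIcc z x) (x := z) (y := y) (fun t ht => (hd t ht).hasDerivWithinAt)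
    (fun t ht => by rw [Real.norm_eq_abs]; exact hb t ht) (convex_uIcc z x) Set.left_mem_uIcc hy
  rw [Real.norm_eq_abs, Real.norm_eq_abs] at h
  exact h

theorem taylor3 (φ : ℕ → ℝ → ℝ) (z x M w : ℝ) (hM : 0 ≤ M) (hw : |x - z| ≤ w)
    (hd : ∀ l < 3, ∀ y ∈ Set.uIcc z x, HasDerivAt (φ l) (φ (l + 1) y) y)
    (h3 : ∀ y ∈ Set.uIcc z x, |φ 3 y| ≤ M) :
    |φ 2 x - φ 2 z| ≤ M * w ∧ |φ 1 x - (φ 1 z + φ 2 z * (x - z))| ≤ M * w ^ 2 ∧
      |φ 0 x - (φ 0 z + φ 1 z * (x - z) + φ 2 z * (x - z) ^ 2 / 2)| ≤ M * w ^ 3 := by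
  have hw0 : 0 ≤ w := (abs_nonneg _).trans hw
  have hyw : ∀ y ∈ Set.uIcc z x, |y - z| ≤ w := fun y hy =>
    (Set.abs_sub_left_of_mem_uIcc hy).trans hw
  have h2 : ∀ y ∈ Set.uIcc z x, |φ 2 y - φ 2 z| ≤ M * w := by
    intro y hy
    have h := tay_mv (φ 2) (φ 3) z x M (hd 2 (by norm_num)) h3 y hy
    exact h.trans (mul_le_mul_of_nonneg_left (hyw y hy) hM)
  have h1 : ∀ y ∈ Set.uIcc z x, |φ 1 y - (φ 1 z + φ 2 z * (y - z))| ≤ M * w ^ 2 := by
    intro y hy
    have h := tay_mv (fun y => φ 1 y - (φ 1 z + φ 2 z * (y - z))) (fun y => φ 2 y - φ 2 z) z x (M * w)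
      (fun t ht => by
        have e1 := hd 1 (by norm_num) t ht
        have e2 : HasDerivAt (fun y => φ 1 z + φ 2 z * (y - z)) (φ 2 z) t := by
          have := (((hasDerivAt_id t).sub_const z).const_mul (φ 2 z)).const_add (φ 1 z)
          simpa using this
        exact e1.sub e2) h2 y hy
    have e3 : φ 1 z - (φ 1 z + φ 2 z * (z - z)) = 0 := by ring
    rw [e3, sub_zero] at h
    refine h.trans ?_
    calc M * w * |y - z| ≤ M * w * w := mul_le_mul_of_nonneg_left (hyw y hy) (mul_nonneg hM hw0)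
      _ = M * w ^ 2 := by ring
  have h0 : ∀ y ∈ Set.uIcc z x,
      |φ 0 y - (φ 0 z + φ 1 z * (y - z) + φ 2 z * (y - z) ^ 2 / 2)| ≤ M * w ^ 3 := by
    intro y hy
    have h := tay_mv (fun y => φ 0 y - (φ 0 z + φ 1 z * (y - z) + φ 2 z * (y - z) ^ 2 / 2))
      (fun y => φ 1 y - (φ 1 z + φ 2 z * (y - z))) z x (M * w ^ 2)
      (fun t ht => by
        have e1 := hd 0 (by norm_num) t ht
        have e2 : HasDerivAt (fun y => φ 0 z + φ 1 z * (y - z) + φ 2 z * (y - z) ^ 2 / 2)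
            (φ 1 z + φ 2 z * (t - z)) t := by
          have a1 := (((hasDerivAt_id t).sub_const z).const_mul (φ 1 z)).const_add (φ 0 z)
          have a2 := ((((hasDerivAt_id t).sub_const z).pow 2).const_mul (φ 2 z)).div_const 2
          have a3 := a1.add a2
          refine a3.congr_deriv ?_
          simp
          ring
        exact e1.sub e2) h1 y hy
    have e3 : φ 0 z - (φ 0 z + φ 1 z * (z - z) + φ 2 z * (z - z) ^ 2 / 2) = 0 := by ring
    rw [e3, sub_zero] at h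
    refine h.trans ?_
    calc M * w ^ 2 * |y - z| ≤ M * w ^ 2 * w :=
          mul_le_mul_of_nonneg_left (hyw y hy) (mul_nonneg hM (by positivity))
      _ = M * w ^ 3 := by ring
  exact ⟨h2 x Set.right_mem_uIcc, h1 x Set.right_mem_uIcc, h0 x Set.right_mem_uIcc⟩

end Pool.Agent.H39.HA
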