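import Pool.Agent.H39.HA.PcL
import Pool.Agent.H39.HA.Tay
/-!
# The Taylor polynomial of a piece

`z` and `x` in the same piece `τ` of a tame arc, `v = lend R τ`, `l = τ.1.natAbs`, `w = 1 / (R * 4 ^ l)`, `M = 64 ^ l`: `|x - z| ≤ w` (`pc_loc`, both in an interval of length `w`),
`|φ 3| ≤ M` between (`pc_bd`), so `taylor3` gives the three bounds with `M w ^ 3 = 1 / R ^ 3`, `M w ^ 2 = 4 ^ l / R ^ 2`, `M w = 16 ^ l / R`. The quadratic
polynomial with value `al φ z v`, derivative `be φ z v` at `v` and second derivative `φ 2 z` is the Taylor polynomial at `z`: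
`al φ z v + be φ z v (x - v) + φ 2 z (x - v) ^ 2 / 2 = φ 0 z + φ 1 z (x - z) + φ 2 z (x - z) ^ 2 / 2`, `be φ z v + φ 2 z (x - v) = φ 1 z + φ 2 z (x - z)` (`ring`).
-/

set_option autoImplicit false

namespace Pool.Agent.H39.HA

open Finset
open scoped Classical

private lemma JetC_w1 {R : ℝ} (hR : 0 < R) (l : ℕ) :
    (64 : ℝ) ^ l * (1 / (R * 4 ^ l)) = 16 ^ l / R := by
  have h : (64 : ℝ) ^ l = 16 ^ l * 4 ^ l := by rw [← mul_pow]; norm_num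
  rw [h]
  field_simp

private lemma JetC_w2 {R : ℝ} (hR : 0 < R) (l : ℕ) :
    (64 : ℝ) ^ l * (1 / (R * 4 ^ l)) ^ 2 = 4 ^ l / R ^ 2 := by
  have h : (64 : ℝ) ^ l = 4 ^ l * (4 ^ l) ^ 2 := by
    rw [← pow_mul, mul_comm l 2, pow_mul, ← mul_pow]; norm_num
  rw [h]
  field_simp

private lemma JetC_w3 {R : ℝ} (hR : 0 < R) (l : ℕ) :
    (64 : ℝ) ^ l * (1 / (R * 4 ^ l)) ^ 3 = 1 / R ^ 3 := by
  have h : (64 : ℝ) ^ l = (4 ^ l) ^ 3 := by
    rw [← pow_mul, mul_comm l 3, pow_mul]; norm_num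
  rw [h]
  field_simp

theorem jet_close (a b R : ℝ) (hR : 0 < R) (φ : ℕ → ℝ → ℝ) (h : Tame a b φ) (x z : ℝ)
    (hx : x ∈ Set.Ioo a b) (hz : z ∈ Set.Ioo a b) (τ : ℤ × ℤ) (hp : pc R (φ 3) x = τ)
    (hp' : pc R (φ 3) z = τ) :
    |φ 2 x - φ 2 z| ≤ 16 ^ τ.1.natAbs / R ∧
    |φ 1 x - (be φ z (lend R τ) + φ 2 z * (x - lend R τ))| ≤ 4 ^ τ.1.natAbs / R ^ 2 ∧
    |φ 0 x - (al φ z (lend R τ) + be φ z (lend R τ) * (x - lend R τ) +
      φ 2 z * (x - lend R τ) ^ 2 / 2)| ≤ 1 / R ^ 3 := by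
  set l : ℕ := τ.1.natAbs with hl
  obtain ⟨h1, h2⟩ := pc_loc R hR (φ 3) x τ hp
  obtain ⟨h3, h4⟩ := pc_loc R hR (φ 3) z τ hp'
  rw [← hl] at h2 h4
  have hw : |x - z| ≤ 1 / (R * 4 ^ l) := by
    rw [abs_le]
    constructor <;> linarith
  have hsub : Set.uIcc z x ⊆ Set.Ioo a b := Set.ordConnected_Ioo.uIcc_subset hz hx
  obtain ⟨t2, t1, t0⟩ := taylor3 φ z x (64 ^ l) (1 / (R * 4 ^ l)) (by positivity) hw
    (fun k hk y hy => h.1 k hk y (hsub hy))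
    (fun y hy => pc_bd a b R hR φ h z y x hz hx hy τ hp' hp)
  rw [JetC_w1 hR] at t2
  rw [JetC_w2 hR] at t1
  rw [JetC_w3 hR] at t0
  refine ⟨t2, ?_, ?_⟩
  · have e1 : be φ z (lend R τ) + φ 2 z * (x - lend R τ) = φ 1 z + φ 2 z * (x - z) := by
      unfold be
      ring
    rw [e1]
    exact t1
  · have e0 : al φ z (lend R τ) + be φ z (lend R τ) * (x - lend R τ) +
        φ 2 z * (x - lend R τ) ^ 2 / 2 = φ 0 z + φ 1 z * (x - z) + φ 2 z * (x - z) ^ 2 / 2 := by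
      unfold al be
      ring
    rw [e0]
    exact t0

end Pool.Agent.H39.HA
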