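import Pool.Agent.H39.HA.JetC
/-!
# A point of a piece and the quadratic of a near key

`v = lend R κ.1`, `l = κ.1.1.natAbs`, `e0 = 1 / R ^ 3`, `e1 = 4 ^ l / R ^ 2`, `e2 = 16 ^ l / R`, `w = 1 / (R * 4 ^ l)` (`e2 w = e1`, `e1 w = e0`). Put `A = κ.2.1 * e0`, `B = κ.2.2.1 * e1`, `G = κ.2.2.2 * e2`. As the floors
differ by at most `13`: `|al φ z v - A| ≤ 14 e0`, `|be φ z v - B| ≤ 14 e1`, `|φ 2 z - G| ≤ 14 e2`. With `jet_close` and `0 ≤ x - v ≤ w` (`pc_loc`):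
`|φ 0 x - (A + B (x - v) + G (x - v) ^ 2 / 2)| ≤ (1 + 14 + 14 + 7) e0 = 36 e0`, `|B + G (x - v)| ≤ |φ 1 x| + (1 + 14 + 14) e1 ≤ 1 + 29 e1 ≤ 465` as
`e1 = 4 ^ l / R ^ 2 ≤ 16` (`2 ^ l ≤ 2 ^ bm ≤ 4 R`).
-/

set_option autoImplicit false

namespace Pool.Agent.H39.HA

open Finset
open scoped Classical

private lemma keyQ_floor (y e : ℝ) (he : 0 < e) (k : ℤ) (h : |⌊y / e⌋ - k| ≤ 13) :
    |y - k * e| ≤ 14 * e := by
  have h1 : |(⌊y / e⌋ : ℝ) - k| ≤ 13 := by exact_mod_cast h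
  have h2 := Int.floor_le (y / e)
  have h3 := Int.lt_floor_add_one (y / e)
  rw [abs_le] at h1
  have h4 : |y / e - k| ≤ 14 := by
    rw [abs_le]
    constructor <;> linarith [h1.1, h1.2]
  have h5 : y - k * e = (y / e - k) * e := by
    field_simp
  rw [h5, abs_mul, abs_of_pos he]
  exact mul_le_mul_of_nonneg_right h4 he.le

theorem key_quad (a b R : ℝ) (hR : 1 ≤ R) (bm : ℕ) (hbm : (2 : ℝ) ^ bm ≤ 4 * R)
    (κ : (ℤ × ℤ) × ℤ × ℤ × ℤ) (hκ : κ.1.1.natAbs ≤ bm) (φ : ℕ → ℝ → ℝ) (h : Tame a b φ)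
    (x z : ℝ) (hx : x ∈ Set.Ioo a b) (hz : z ∈ Set.Ioo a b) (hp : pc R (φ 3) x = κ.1)
    (hp' : pc R (φ 3) z = κ.1) (hn : near (key R φ κ.1 z) κ) :
    |φ 0 x - (κ.2.1 / R ^ 3 + κ.2.2.1 * (4 ^ κ.1.1.natAbs / R ^ 2) * (x - lend R κ.1) +
      κ.2.2.2 * (16 ^ κ.1.1.natAbs / R) * (x - lend R κ.1) ^ 2 / 2)| ≤ 36 / R ^ 3 ∧
    |κ.2.2.1 * (4 ^ κ.1.1.natAbs / R ^ 2) +
      κ.2.2.2 * (16 ^ κ.1.1.natAbs / R) * (x - lend R κ.1)| ≤ 465 := by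
  obtain ⟨hn0, hn1, hn2, hn3⟩ := hn
  have hR0 : (0 : ℝ) < R := by linarith
  obtain ⟨-, j1, j0⟩ := jet_close a b R hR0 φ h x z hx hz κ.1 hp hp'
  obtain ⟨l0, l1⟩ := pc_loc R hR0 (φ 3) x κ.1 hp
  have hs : |φ 1 x| ≤ 1 := h.2.1 x hx
  set l : ℕ := κ.1.1.natAbs with hl
  set v : ℝ := lend R κ.1 with hv
  have h4 : (0 : ℝ) < 4 ^ l := by positivity
  have h16 : (0 : ℝ) < 16 ^ l := by positivity
  have h416 : (16 : ℝ) ^ l = 4 ^ l * 4 ^ l := by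
    rw [← mul_pow]
    norm_num
  set A := al φ z v with hA
  set B := be φ z v with hB
  set G := φ 2 z with hG
  have e0 : (0 : ℝ) < 1 / R ^ 3 := by positivity
  have e1 : (0 : ℝ) < 4 ^ l / R ^ 2 := by positivity
  have e2 : (0 : ℝ) < 16 ^ l / R := by positivity
  have f0 : |A - κ.2.1 * (1 / R ^ 3)| ≤ 14 * (1 / R ^ 3) := by
    refine keyQ_floor _ _ e0 _ ?_
    have : A / (1 / R ^ 3) = A * R ^ 3 := by field_simp
    rw [this]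
    exact hn1
  have f1 : |B - κ.2.2.1 * (4 ^ l / R ^ 2)| ≤ 14 * (4 ^ l / R ^ 2) := by
    refine keyQ_floor _ _ e1 _ ?_
    have : B / (4 ^ l / R ^ 2) = B * (R ^ 2 / 4 ^ l) := by
      rw [div_div_eq_mul_div, mul_div_assoc]
    rw [this]
    exact hn2
  have f2 : |G - κ.2.2.2 * (16 ^ l / R)| ≤ 14 * (16 ^ l / R) := by
    refine keyQ_floor _ _ e2 _ ?_
    have : G / (16 ^ l / R) = G * (R / 16 ^ l) := by
      rw [div_div_eq_mul_div, mul_div_assoc]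
    rw [this]
    exact hn3
  set X := x - v with hX
  set w : ℝ := 1 / (R * 4 ^ l) with hw
  have hw0 : 0 < w := by positivity
  have g1 : 4 ^ l / R ^ 2 * w = 1 / R ^ 3 := by
    rw [hw]
    field_simp
  have g2 : 16 ^ l / R * w = 4 ^ l / R ^ 2 := by
    rw [hw, h416]
    field_simp
  have b1 : |B - κ.2.2.1 * (4 ^ l / R ^ 2)| * X ≤ 14 * (1 / R ^ 3) := by
    calc |B - κ.2.2.1 * (4 ^ l / R ^ 2)| * X ≤ 14 * (4 ^ l / R ^ 2) * w :=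
          mul_le_mul f1 l1 l0 (by positivity)
      _ = 14 * (1 / R ^ 3) := by rw [mul_assoc, g1]
  have b2 : |G - κ.2.2.2 * (16 ^ l / R)| * X ≤ 14 * (4 ^ l / R ^ 2) := by
    calc |G - κ.2.2.2 * (16 ^ l / R)| * X ≤ 14 * (16 ^ l / R) * w :=
          mul_le_mul f2 l1 l0 (by positivity)
      _ = 14 * (4 ^ l / R ^ 2) := by rw [mul_assoc, g2]
  have b3 : |G - κ.2.2.2 * (16 ^ l / R)| * X * X ≤ 14 * (1 / R ^ 3) := by
    calc |G - κ.2.2.2 * (16 ^ l / R)| * X * X ≤ 14 * (4 ^ l / R ^ 2) * w :=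
          mul_le_mul b2 l1 l0 (by positivity)
      _ = 14 * (1 / R ^ 3) := by rw [mul_assoc, g1]
  have he1 : 4 ^ l / R ^ 2 ≤ 16 := by
    rw [div_le_iff₀ (by positivity)]
    have h1 : (2 : ℝ) ^ l ≤ 2 ^ bm := pow_le_pow_right₀ (by norm_num) hκ
    have h2 : (2 : ℝ) ^ l ≤ 4 * R := h1.trans hbm
    have h3 : (4 : ℝ) ^ l = 2 ^ l * 2 ^ l := by
      rw [← mul_pow]
      norm_num
    rw [h3]
    nlinarith [pow_pos (show (0 : ℝ) < 2 by norm_num) l]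
  constructor
  · have k1 : φ 0 x - (κ.2.1 / R ^ 3 + κ.2.2.1 * (4 ^ l / R ^ 2) * X +
        κ.2.2.2 * (16 ^ l / R) * X ^ 2 / 2) =
        (φ 0 x - (A + B * X + G * X ^ 2 / 2)) + (A - κ.2.1 * (1 / R ^ 3)) +
        (B - κ.2.2.1 * (4 ^ l / R ^ 2)) * X + (G - κ.2.2.2 * (16 ^ l / R)) * X * X / 2 := by
      ring
    have k2 : |(B - κ.2.2.1 * (4 ^ l / R ^ 2)) * X| ≤ 14 * (1 / R ^ 3) := by
      rw [abs_mul, abs_of_nonneg l0]
      exact b1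
    have k3 : |(G - κ.2.2.2 * (16 ^ l / R)) * X * X / 2| ≤ 7 * (1 / R ^ 3) := by
      rw [abs_div, abs_mul, abs_mul, abs_of_nonneg l0, abs_of_pos (show (0 : ℝ) < 2 by norm_num)]
      linarith
    rw [k1]
    have k4 : (36 : ℝ) / R ^ 3 = 1 / R ^ 3 + 14 * (1 / R ^ 3) + 14 * (1 / R ^ 3) +
        7 * (1 / R ^ 3) := by ring
    rw [k4]
    exact (abs_add_le _ _).trans (add_le_add ((abs_add_le _ _).trans
      (add_le_add ((abs_add_le _ _).trans (add_le_add j0 f0)) k2)) k3)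
  · have k1 : κ.2.2.1 * (4 ^ l / R ^ 2) + κ.2.2.2 * (16 ^ l / R) * X =
        φ 1 x - (φ 1 x - (B + G * X)) - (B - κ.2.2.1 * (4 ^ l / R ^ 2)) -
        (G - κ.2.2.2 * (16 ^ l / R)) * X := by
      ring
    have k2 : |(G - κ.2.2.2 * (16 ^ l / R)) * X| ≤ 14 * (4 ^ l / R ^ 2) := by
      rw [abs_mul, abs_of_nonneg l0]
      exact b2
    rw [k1]
    calc |φ 1 x - (φ 1 x - (B + G * X)) - (B - κ.2.2.1 * (4 ^ l / R ^ 2)) -
        (G - κ.2.2.2 * (16 ^ l / R)) * X|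
        ≤ |φ 1 x| + |φ 1 x - (B + G * X)| + |B - κ.2.2.1 * (4 ^ l / R ^ 2)| +
          |(G - κ.2.2.2 * (16 ^ l / R)) * X| :=
          (abs_sub _ _).trans (add_le_add ((abs_sub _ _).trans
            (add_le_add (abs_sub _ _) le_rfl)) le_rfl)
      _ ≤ 1 + 4 ^ l / R ^ 2 + 14 * (4 ^ l / R ^ 2) + 14 * (4 ^ l / R ^ 2) :=
          add_le_add (add_le_add (add_le_add hs j1) f1) k2
      _ ≤ 465 := by linarith

end Pool.Agent.H39.HA
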