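import Pool.Agent.H39.HA.Defs
/-!
# Length of a level

On `Icc x y` the second derivative of `φ 1` (it is `φ 3`) is `≥ 64 ^ b`. So `g t = φ 1 t - 64 ^ b * t ^ 2 / 2` is convex on `Icc x y` (`convexOn_of_deriv2_nonneg` or
`MonotoneOn.convexOn_of_deriv` with the derivative `φ 2 t - 64 ^ b t`, which is monotone since its derivative `φ 3 t - 64 ^ b` is `≥ 0`). Midpoint `m`: `g m ≤ (g x + g y) / 2`, i.e.
`64 ^ b (y - x) ^ 2 / 8 ≤ (φ 1 x + φ 1 y) / 2 - φ 1 m ≤ 2`. So `64 ^ b (y - x) ^ 2 ≤ 16` and `8 ^ b (y - x) ≤ 4`. The other sign: apply the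
same to `- φ l`.
-/

set_option autoImplicit false

namespace Pool.Agent.H39.HA

open Finset
open scoped Classical

private theorem LenL_conv (f g k : ℝ → ℝ) (K x y : ℝ) (hxy : x ≤ y)
    (hf : ∀ t ∈ Set.Icc x y, HasDerivAt f (g t) t)
    (hg : ∀ t ∈ Set.Icc x y, HasDerivAt g (k t) t)
    (hk : ∀ t ∈ Set.Icc x y, K ≤ k t) (hb : ∀ t ∈ Set.Icc x y, |f t| ≤ 1) :
    K * (y - x) ^ 2 ≤ 16 := by
  have hcv : ConvexOn ℝ (Set.Icc x y) (fun t => f t - K * t ^ 2 / 2) := by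
    refine convexOn_of_hasDerivWithinAt2_nonneg (f' := fun t => g t - K * t)
      (f'' := fun t => k t - K) (convex_Icc x y) ?_ ?_ ?_ ?_
    · intro t ht
      exact ((hf t ht).continuousAt.sub (by fun_prop)).continuousWithinAt
    · intro t ht
      have h1 := hf t (interior_subset ht)
      have h2 : HasDerivAt (fun t : ℝ => K * t ^ 2 / 2) (K * t) t := by
        have h3 := (((hasDerivAt_id t).pow 2).const_mul K).div_const 2
        refine h3.congr_deriv ?_
        simp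
        ring
      exact (h1.sub h2).hasDerivWithinAt
    · intro t ht
      have h1 := hg t (interior_subset ht)
      have h2 : HasDerivAt (fun t : ℝ => K * t) K t := by
        have h3 := (hasDerivAt_id t).const_mul K
        refine h3.congr_deriv ?_
        simp
      exact (h1.sub h2).hasDerivWithinAt
    · intro t ht
      have := hk t (interior_subset ht)
      linarith
  have hx : x ∈ Set.Icc x y := Set.left_mem_Icc.2 hxy
  have hy : y ∈ Set.Icc x y := Set.right_mem_Icc.2 hxy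
  have hm : (1 / 2 : ℝ) * x + (1 / 2) * y ∈ Set.Icc x y := ⟨by linarith, by linarith⟩
  have h1 := hcv.2 hx hy (by norm_num : (0 : ℝ) ≤ 1 / 2) (by norm_num : (0 : ℝ) ≤ 1 / 2)
    (by norm_num)
  simp only [smul_eq_mul] at h1
  have b1 := (abs_le.1 (hb _ hx)).2
  have b2 := (abs_le.1 (hb _ hy)).2
  have b3 := (abs_le.1 (hb _ hm)).1
  nlinarith [h1, b1, b2, b3]

theorem len_level (a b : ℝ) (φ : ℕ → ℝ → ℝ) (h : Tame a b φ) (c : ℕ) (x y : ℝ) (hxy : x ≤ y)
    (hx : x ∈ Set.Ioo a b) (hy : y ∈ Set.Ioo a b)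
    (hl : (∀ t ∈ Set.Icc x y, (64 : ℝ) ^ c ≤ φ 3 t) ∨ ∀ t ∈ Set.Icc x y, (64 : ℝ) ^ c ≤ -φ 3 t) :
    8 ^ c * (y - x) ≤ 4 := by
  have hsub : ∀ t ∈ Set.Icc x y, t ∈ Set.Ioo a b := fun t ht =>
    ⟨lt_of_lt_of_le hx.1 ht.1, lt_of_le_of_lt ht.2 hy.2⟩
  have key : (64 : ℝ) ^ c * (y - x) ^ 2 ≤ 16 := by
    rcases hl with hl | hl
    · exact LenL_conv (φ 1) (φ 2) (φ 3) _ x y hxy
        (fun t ht => h.1 1 (by norm_num) t (hsub t ht))
        (fun t ht => h.1 2 (by norm_num) t (hsub t ht)) hl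
        (fun t ht => h.2.1 t (hsub t ht))
    · refine LenL_conv (fun t => -φ 1 t) (fun t => -φ 2 t) (fun t => -φ 3 t) _ x y hxy
        (fun t ht => (h.1 1 (by norm_num) t (hsub t ht)).neg)
        (fun t ht => (h.1 2 (by norm_num) t (hsub t ht)).neg) hl ?_
      intro t ht
      rw [abs_neg]
      exact h.2.1 t (hsub t ht)
  have h64 : (64 : ℝ) ^ c = (8 ^ c) ^ 2 := by
    rw [← pow_mul, mul_comm, pow_mul]
    norm_num
  rw [h64] at key
  have h0 : 0 ≤ (8 : ℝ) ^ c * (y - x) := mul_nonneg (by positivity) (by linarith)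
  by_contra hcon
  push Not at hcon
  nlinarith [key, h0, hcon]

end Pool.Agent.H39.HA
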