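import Pool.Agent.H39.HA.Defs
/-!
# The signed level

`Int.log 64 v` for `v ≥ 1` is the natural number `b` with `64 ^ b ≤ v < 64 ^ (b + 1)` (`Int.zpow_log_le_self`, `Int.lt_zpow_succ_log_self`, `Int.log_nonneg`-type
lemma for `1 ≤ v`, `Int.log_mono_right`). So `lv v = b + 1 ≥ 1` for `v ≥ 1`, `lv v ≤ -1` for `v ≤ -1`, `0` otherwise.
-/

set_option autoImplicit false

namespace Pool.Agent.H39.HA

open Finset
open scoped Classical

private theorem LvF_log {v : ℝ} (h : 1 ≤ v) :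
    ∃ n : ℕ, Int.log 64 v = (n : ℤ) ∧ (64 : ℝ) ^ n ≤ v ∧ v < (64 : ℝ) ^ (n + 1) := by
  have hv : 0 < v := by linarith
  refine ⟨Nat.log 64 ⌊v⌋₊, Int.log_of_one_le_right 64 h, ?_, ?_⟩
  · have h1 := Int.zpow_log_le_self (b := 64) (by norm_num) hv
    rw [Int.log_of_one_le_right 64 h, zpow_natCast] at h1
    exact_mod_cast h1
  · have h1 := Int.lt_zpow_succ_log_self (b := 64) (by norm_num) v
    rw [Int.log_of_one_le_right 64 h] at h1
    have h2 : ((Nat.log 64 ⌊v⌋₊ : ℤ) + 1) = ((Nat.log 64 ⌊v⌋₊ + 1 : ℕ) : ℤ) := by push_cast; rfl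
    rw [h2, zpow_natCast] at h1
    exact_mod_cast h1

private theorem LvF_one {v : ℝ} (h : 1 ≤ v) : lv v = Int.log 64 v + 1 := by
  unfold lv
  rw [if_pos h]

private theorem LvF_neg {v : ℝ} (h : v ≤ -1) : lv v = -(Int.log 64 (-v) + 1) := by
  unfold lv
  rw [if_neg (by linarith), if_pos h]

private theorem LvF_zero {v : ℝ} (h : v < 1) (h2 : -1 < v) : lv v = 0 := by
  unfold lv
  rw [if_neg (by linarith), if_neg (by linarith)]

private theorem LvF_le {v : ℝ} (h : v < 1) : lv v ≤ 0 := by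
  rcases le_or_gt v (-1) with h2 | h2
  · rw [LvF_neg h2]
    obtain ⟨n, h3, _⟩ := LvF_log (v := -v) (by linarith)
    rw [h3]
    omega
  · exact (LvF_zero h h2).le

private theorem LvF_ge {v : ℝ} (h : -1 < v) : 0 ≤ lv v := by
  rcases le_or_gt 1 v with h2 | h2
  · rw [LvF_one h2]
    obtain ⟨n, h3, _⟩ := LvF_log h2
    rw [h3]
    omega
  · exact (LvF_zero h2 h).ge

theorem lv_mono : Monotone lv := by
  intro u v huv
  rcases le_or_gt 1 u with h1 | h1
  · rw [LvF_one h1, LvF_one (h1.trans huv)]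
    have h2 : Int.log 64 u ≤ Int.log 64 v := Int.log_mono_right (by linarith) huv
    linarith
  · rcases le_or_gt v (-1) with h2 | h2
    · rw [LvF_neg h2, LvF_neg (huv.trans h2)]
      have h3 : Int.log 64 (-v) ≤ Int.log 64 (-u) := Int.log_mono_right (by linarith) (by linarith)
      linarith
    · exact (LvF_le h1).trans (LvF_ge h2)

theorem lv_lt (v : ℝ) : |v| < 64 ^ (lv v).natAbs := by
  rcases le_or_gt 1 v with h1 | h1
  · obtain ⟨n, h3, _, h4⟩ := LvF_log h1
    rw [LvF_one h1, h3, abs_of_nonneg (by linarith)]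
    have h5 : ((n : ℤ) + 1).natAbs = n + 1 := by omega
    rw [h5]
    exact h4
  · rcases le_or_gt v (-1) with h2 | h2
    · obtain ⟨n, h3, _, h4⟩ := LvF_log (v := -v) (by linarith)
      rw [LvF_neg h2, h3, abs_of_nonpos (by linarith)]
      have h5 : (-((n : ℤ) + 1)).natAbs = n + 1 := by omega
      rw [h5]
      exact h4
    · rw [LvF_zero h1 h2]
      simp only [Int.natAbs_zero, pow_zero]
      exact abs_lt.2 ⟨h2, h1⟩

theorem lv_pos (v : ℝ) (b : ℕ) (h : (b : ℤ) < lv v) : (64 : ℝ) ^ b ≤ v := by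
  rcases le_or_gt 1 v with h1 | h1
  · obtain ⟨n, h3, h4, _⟩ := LvF_log h1
    rw [LvF_one h1, h3] at h
    refine le_trans (pow_le_pow_right₀ (by norm_num) ?_) h4
    omega
  · have := LvF_le h1
    omega

theorem lv_neg (v : ℝ) (b : ℕ) (h : lv v < -(b : ℤ)) : (64 : ℝ) ^ b ≤ -v := by
  rcases le_or_gt v (-1) with h1 | h1
  · obtain ⟨n, h3, h4, _⟩ := LvF_log (v := -v) (by linarith)
    rw [LvF_neg h1, h3] at h
    refine le_trans (pow_le_pow_right₀ (by norm_num) ?_) h4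
    omega
  · have := LvF_ge h1
    omega

end Pool.Agent.H39.HA
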