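import Mathlib

/-!
# Rolle for four zeros

Rolle (`exists_hasDerivAt_eq_zero`) gives zeros `η1 < η2 < η3` of `D 1`, `ζ1 < ζ2` of `D 2`, and `ξ` of `D 3`, all in `Ioo x1 x4`. For the second part use the mean
value inequality on `Icc x1 x4`: `|D 2 y| = |D 2 y - D 2 ζ1| ≤ M (x4 - x1)` for all `y` in `Icc x1 x4`, then `|D 1 x1| = |D 1 x1 - D 1 η1| ≤ M (x4 - x1) * (x4 - x1)`.
-/

set_option autoImplicit false

namespace Pool.Agent.H39.HA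

open Finset
open scoped Classical

private theorem rol_zero (D : ℕ → ℝ → ℝ) (x1 x4 : ℝ)
    (hd : ∀ l < 3, ∀ y ∈ Set.Icc x1 x4, HasDerivAt (D l) (D (l + 1) y) y) (l : ℕ) (hl : l < 3) (a b : ℝ)
    (hab : a < b) (ha : x1 ≤ a) (hb : b ≤ x4) (h1 : D l a = 0) (h2 : D l b = 0) :
    ∃ c, a < c ∧ c < b ∧ D (l + 1) c = 0 := by
  have hsub : ∀ y ∈ Set.Icc a b, y ∈ Set.Icc x1 x4 := fun y hy => ⟨ha.trans hy.1, hy.2.trans hb⟩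
  obtain ⟨c, hc, h0⟩ := exists_hasDerivAt_eq_zero (f := D l) (f' := D (l + 1)) hab
    (fun y hy => (hd l hl y (hsub y hy)).continuousAt.continuousWithinAt) (h1.trans h2.symm)
    (fun y hy => hd l hl y (hsub y (Set.Ioo_subset_Icc_self hy)))
  exact ⟨c, hc.1, hc.2, h0⟩

private theorem rol_lip (D : ℕ → ℝ → ℝ) (x1 x4 : ℝ)
    (hd : ∀ l < 3, ∀ y ∈ Set.Icc x1 x4, HasDerivAt (D l) (D (l + 1) y) y) (l : ℕ) (hl : l < 3) (M : ℝ)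
    (hM0 : 0 ≤ M) (hM : ∀ y ∈ Set.Icc x1 x4, |D (l + 1) y| ≤ M) (z : ℝ) (hz : z ∈ Set.Icc x1 x4)
    (h0 : D l z = 0) (y : ℝ) (hy : y ∈ Set.Icc x1 x4) : |D l y| ≤ M * (x4 - x1) := by
  have h1 := (convex_Icc x1 x4).norm_image_sub_le_of_norm_hasDerivWithin_le (f := D l) (f' := D (l + 1))
    (C := M) (fun t ht => (hd l hl t ht).hasDerivWithinAt) (fun t ht => by
      rw [Real.norm_eq_abs]
      exact hM t ht) hz hy
  rw [h0, sub_zero, Real.norm_eq_abs, Real.norm_eq_abs] at h1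
  refine h1.trans (mul_le_mul_of_nonneg_left ?_ hM0)
  rw [abs_le]
  constructor <;> linarith [hz.1, hz.2, hy.1, hy.2]

theorem rolle4 (D : ℕ → ℝ → ℝ) (x1 x2 x3 x4 : ℝ) (h12 : x1 < x2) (h23 : x2 < x3) (h34 : x3 < x4)
    (hd : ∀ l < 3, ∀ y ∈ Set.Icc x1 x4, HasDerivAt (D l) (D (l + 1) y) y)
    (h1 : D 0 x1 = 0) (h2 : D 0 x2 = 0) (h3 : D 0 x3 = 0) (h4 : D 0 x4 = 0) :
    (∃ ξ ∈ Set.Ioo x1 x4, D 3 ξ = 0) ∧ ∀ M : ℝ, (∀ y ∈ Set.Icc x1 x4, |D 3 y| ≤ M) →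
      |D 2 x1| ≤ M * (x4 - x1) ∧ |D 1 x1| ≤ M * (x4 - x1) ^ 2 := by
  obtain ⟨e1, e1a, e1b, e1z⟩ := rol_zero D x1 x4 hd 0 (by norm_num) x1 x2 h12 le_rfl (by linarith) h1 h2
  obtain ⟨e2, e2a, e2b, e2z⟩ := rol_zero D x1 x4 hd 0 (by norm_num) x2 x3 h23 (by linarith) (by linarith) h2 h3
  obtain ⟨e3, e3a, e3b, e3z⟩ := rol_zero D x1 x4 hd 0 (by norm_num) x3 x4 h34 (by linarith) le_rfl h3 h4
  obtain ⟨z1, z1a, z1b, z1z⟩ := rol_zero D x1 x4 hd 1 (by norm_num) e1 e2 (by linarith) (by linarith)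
    (by linarith) e1z e2z
  obtain ⟨z2, z2a, z2b, z2z⟩ := rol_zero D x1 x4 hd 1 (by norm_num) e2 e3 (by linarith) (by linarith)
    (by linarith) e2z e3z
  obtain ⟨c, ca, cb, cz⟩ := rol_zero D x1 x4 hd 2 (by norm_num) z1 z2 (by linarith) (by linarith)
    (by linarith) z1z z2z
  refine ⟨⟨c, ⟨by linarith, by linarith⟩, cz⟩, fun M hM => ?_⟩
  have hx1 : x1 ∈ Set.Icc x1 x4 := ⟨le_rfl, by linarith⟩
  have hM0 : 0 ≤ M := (abs_nonneg _).trans (hM x1 hx1)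
  have hD2 : ∀ y ∈ Set.Icc x1 x4, |D 2 y| ≤ M * (x4 - x1) := fun y hy =>
    rol_lip D x1 x4 hd 2 (by norm_num) M hM0 hM z1 ⟨by linarith, by linarith⟩ z1z y hy
  have hL : 0 ≤ M * (x4 - x1) := mul_nonneg hM0 (by linarith)
  have hD1 : |D 1 x1| ≤ M * (x4 - x1) * (x4 - x1) :=
    rol_lip D x1 x4 hd 1 (by norm_num) (M * (x4 - x1)) hL hD2 e1 ⟨by linarith, by linarith⟩ e1z x1 hx1
  exact ⟨hD2 x1 hx1, hD1.trans (le_of_eq (by ring))⟩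

end Pool.Agent.H39.HA
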