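import Pool.Agent.H39.HA.JetC
import Pool.Agent.H39.HA.Rol
/-!
# Four common points in one piece: the keys are near

`D l = φ l - ψ l` on `Icc x1 x4` (contained in both intervals). `rolle4`: `D 3 ξ = 0` with `ξ` between `x1` and `x4`; by `pc_conv` `pc R (φ 3) ξ = pc R (φ 3) x1` and the same for `ψ`; the
first coordinates are `lv (φ 3 ξ) = lv (ψ 3 ξ)`, so the levels of the two pieces are equal, then the second coordinates are equal (both are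
`⌊x1 * (R * 4 ^ l)⌋`). So both pieces are `τ`. Let `v = lend R τ`, `l = τ.1.natAbs`, `w = 1 / (R * 4 ^ l)`, `M = 64 ^ l`; `x4 - x1 ≤ w` (`pc_loc`), `|D 3| ≤ 2 M` on `Icc x1 x4` (`pc_bd`), so
`|D 2 x1| ≤ 2 M w = 2 * 16 ^ l / R`, `|D 1 x1| ≤ 2 M w ^ 2 = 2 * 4 ^ l / R ^ 2`, `D 0 x1 = 0`. `jet_close` at `x = x1` for `φ`, `z` and for `ψ`, `z'`. So, with `e0 = 1 / R ^ 3`, `e1 = 4 ^ l / R ^ 2`, `e2 = 16 ^ l / R` and
`0 ≤ x1 - v ≤ w` (`e2 w = e1`, `e1 w = e0`): `|φ 2 z - ψ 2 z'| ≤ 4 e2`, `|be φ z v - be ψ z' v| ≤ (2 + 1 + 1 + 4) e1 = 8 e1`, `|al φ z v - al ψ z' v| ≤ (1 + 1 + 8 + 2) e0 = 12 e0`.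
After division the numbers differ by at most `12`, the floors by at most `13`.
-/

set_option autoImplicit false

namespace Pool.Agent.H39.HA

open Finset
open scoped Classical

private lemma Nea_floor {x y : ℝ} (h : |x - y| ≤ 12) : |⌊x⌋ - ⌊y⌋| ≤ 13 := by
  rw [abs_le] at h
  have h1 := Int.floor_le x
  have h2 := Int.lt_floor_add_one x
  have h3 := Int.floor_le y
  have h4 := Int.lt_floor_add_one y
  have h5 : ((⌊x⌋ - ⌊y⌋ : ℤ) : ℝ) < ((13 : ℤ) : ℝ) := by push_cast; linarith [h.2]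
  have h6 : (((-13) : ℤ) : ℝ) < ((⌊x⌋ - ⌊y⌋ : ℤ) : ℝ) := by push_cast; linarith [h.1]
  rw [abs_le]
  exact ⟨(Int.cast_lt.1 h6).le, (Int.cast_lt.1 h5).le⟩

private lemma Nea_scale {c c' E N : ℝ} (hE : E * N = 1) (hN : 0 < N) {k : ℝ} (hk : k ≤ 12)
    (h : |c - c'| ≤ k * E) : |⌊c * N⌋ - ⌊c' * N⌋| ≤ 13 := by
  apply Nea_floor
  have e : c * N - c' * N = (c - c') * N := by ring
  rw [e, abs_mul, abs_of_pos hN]
  have h1 : |c - c'| * N ≤ k * E * N := mul_le_mul_of_nonneg_right h hN.le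
  have h2 : k * E * N = k := by rw [mul_assoc, hE, mul_one]
  linarith

private lemma Nea_arith {E0 E1 E2 w t f0 f1 f2 g1 g2 c0 c1 c2 d0 d1 d2 : ℝ} (ht : 0 ≤ t)
    (htw : t ≤ w) (hE2 : 0 ≤ E2) (h21 : E2 * w = E1) (h10 : E1 * w = E0)
    (a2 : |f2 - g2| ≤ 2 * E2) (a1 : |f1 - g1| ≤ 2 * E1)
    (b2 : |f2 - c2| ≤ E2) (b1 : |f1 - (c1 + c2 * t)| ≤ E1)
    (b0 : |f0 - (c0 + c1 * t + c2 * t ^ 2 / 2)| ≤ E0)
    (b2' : |g2 - d2| ≤ E2) (b1' : |g1 - (d1 + d2 * t)| ≤ E1)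
    (b0' : |f0 - (d0 + d1 * t + d2 * t ^ 2 / 2)| ≤ E0) :
    |c0 - d0| ≤ 12 * E0 ∧ |c1 - d1| ≤ 8 * E1 ∧ |c2 - d2| ≤ 4 * E2 := by
  have hw : 0 ≤ w := ht.trans htw
  have hE1 : 0 ≤ E1 := by rw [← h21]; exact mul_nonneg hE2 hw
  have hE0 : 0 ≤ E0 := by rw [← h10]; exact mul_nonneg hE1 hw
  have k2 : |c2 - d2| ≤ 4 * E2 := by
    rw [abs_le] at a2 b2 b2' ⊢
    constructor <;> linarith [a2.1, a2.2, b2.1, b2.2, b2'.1, b2'.2]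
  have m2 : |(c2 - d2) * t| ≤ 4 * E1 := by
    rw [abs_mul, abs_of_nonneg ht]
    calc |c2 - d2| * t ≤ (4 * E2) * w := mul_le_mul k2 htw ht (by linarith)
      _ = 4 * E1 := by rw [mul_assoc, h21]
  have k1 : |c1 - d1| ≤ 8 * E1 := by
    rw [abs_le] at a1 b1 b1' m2 ⊢
    constructor <;> linarith [a1.1, a1.2, b1.1, b1.2, b1'.1, b1'.2, m2.1, m2.2]
  have m1 : |(c1 - d1) * t| ≤ 8 * E0 := by
    rw [abs_mul, abs_of_nonneg ht]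
    calc |c1 - d1| * t ≤ (8 * E1) * w := mul_le_mul k1 htw ht (by linarith)
      _ = 8 * E0 := by rw [mul_assoc, h10]
  have m3 : |(c2 - d2) * t ^ 2| ≤ 4 * E0 := by
    have e : (c2 - d2) * t ^ 2 = ((c2 - d2) * t) * t := by ring
    rw [e, abs_mul, abs_of_nonneg ht]
    calc |(c2 - d2) * t| * t ≤ (4 * E1) * w := mul_le_mul m2 htw ht (by linarith)
      _ = 4 * E0 := by rw [mul_assoc, h10]
  refine ⟨?_, k1, k2⟩
  rw [abs_le] at b0 b0' m1 m3 ⊢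
  constructor <;> linarith [b0.1, b0.2, b0'.1, b0'.2, m1.1, m1.2, m3.1, m3.2]

theorem near_of_four (R : ℝ) (hR : 0 < R) (a b a' b' : ℝ) (φ ψ : ℕ → ℝ → ℝ) (h : Tame a b φ)
    (h' : Tame a' b' ψ) (x1 x2 x3 x4 z z' : ℝ) (h12 : x1 < x2) (h23 : x2 < x3) (h34 : x3 < x4)
    (m1 : x1 ∈ Set.Ioo a b) (m4 : x4 ∈ Set.Ioo a b) (m1' : x1 ∈ Set.Ioo a' b')
    (m4' : x4 ∈ Set.Ioo a' b') (e1 : φ 0 x1 = ψ 0 x1) (e2 : φ 0 x2 = ψ 0 x2)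
    (e3 : φ 0 x3 = ψ 0 x3) (e4 : φ 0 x4 = ψ 0 x4)
    (hp : pc R (φ 3) x1 = pc R (φ 3) x4) (hp' : pc R (ψ 3) x1 = pc R (ψ 3) x4)
    (hz : z ∈ Set.Ioo a b) (hz' : z' ∈ Set.Ioo a' b') (pz : pc R (φ 3) z = pc R (φ 3) x1)
    (pz' : pc R (ψ 3) z' = pc R (ψ 3) x1) :
    near (key R φ (pc R (φ 3) x1) z) (key R ψ (pc R (ψ 3) x1) z') := by
  have hI : ∀ y ∈ Set.Icc x1 x4, y ∈ Set.Ioo a b := fun y hy =>
    ⟨lt_of_lt_of_le m1.1 hy.1, lt_of_le_of_lt hy.2 m4.2⟩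
  have hI' : ∀ y ∈ Set.Icc x1 x4, y ∈ Set.Ioo a' b' := fun y hy =>
    ⟨lt_of_lt_of_le m1'.1 hy.1, lt_of_le_of_lt hy.2 m4'.2⟩
  have h14 : x1 ≤ x4 := by linarith
  obtain ⟨⟨ξ, hξ, hξ0⟩, hR4⟩ := rolle4 (fun l y => φ l y - ψ l y) x1 x2 x3 x4 h12 h23 h34
    (fun l hl y hy => (h.1 l hl y (hI y hy)).sub (h'.1 l hl y (hI' y hy)))
    (by simp [e1]) (by simp [e2]) (by simp [e3]) (by simp [e4])
  have q1 := pc_conv a b R hR φ h x1 ξ x4 m1 m4 hξ.1.le hξ.2.le hp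
  have q2 := pc_conv a' b' R hR ψ h' x1 ξ x4 m1' m4' hξ.1.le hξ.2.le hp'
  have q3 : pc R (φ 3) ξ = pc R (ψ 3) ξ := by
    have e : φ 3 ξ = ψ 3 ξ := by
      have := hξ0
      linarith
    unfold pc
    rw [e]
  obtain ⟨τ, hτ⟩ : ∃ τ, τ = pc R (φ 3) x1 := ⟨_, rfl⟩
  have t1 : pc R (φ 3) x1 = τ := hτ.symm
  have t1' : pc R (ψ 3) x1 = τ := by rw [← q2, ← q3, q1, hτ]
  have t4 : pc R (φ 3) x4 = τ := by rw [← hp, t1]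
  have t4' : pc R (ψ 3) x4 = τ := by rw [← hp', t1']
  rw [t1] at pz ⊢
  rw [t1'] at pz' ⊢
  obtain ⟨l, hl⟩ : ∃ l : ℕ, l = τ.1.natAbs := ⟨_, rfl⟩
  obtain ⟨v, hv⟩ : ∃ v : ℝ, v = lend R τ := ⟨_, rfl⟩
  obtain ⟨w, hw⟩ : ∃ w : ℝ, w = 1 / (R * 4 ^ l) := ⟨_, rfl⟩
  obtain ⟨u1, u2⟩ := pc_loc R hR (φ 3) x1 τ t1
  obtain ⟨u3, u4⟩ := pc_loc R hR (φ 3) x4 τ t4
  rw [← hl, ← hw, ← hv] at u2 u4
  rw [← hv] at u1 u3
  have h41 : x4 - x1 ≤ w := by linarith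
  have h41' : 0 ≤ x4 - x1 := by linarith
  have hw0 : 0 ≤ w := h41'.trans h41
  have hbd : ∀ y ∈ Set.Icc x1 x4, |(fun l y => φ l y - ψ l y) 3 y| ≤ 2 * 64 ^ l := by
    intro y hy
    have hy' : y ∈ Set.uIcc x1 x4 := by rwa [Set.uIcc_of_le h14]
    have v1 := pc_bd a b R hR φ h x1 y x4 m1 m4 hy' τ t1 t4
    have v2 := pc_bd a' b' R hR ψ h' x1 y x4 m1' m4' hy' τ t1' t4'
    rw [← hl] at v1 v2
    simp only
    rw [abs_le] at v1 v2 ⊢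
    constructor <;> linarith [v1.1, v1.2, v2.1, v2.2]
  obtain ⟨d2, d1⟩ := hR4 _ hbd
  have p4 : (0 : ℝ) < 4 ^ l := by positivity
  have p16 : (16 : ℝ) ^ l = 4 ^ l * 4 ^ l := by rw [← mul_pow]; norm_num
  have p64 : (64 : ℝ) ^ l = 4 ^ l * 4 ^ l * 4 ^ l := by rw [← mul_pow, ← mul_pow]; norm_num
  have s2 : (64 : ℝ) ^ l * w = 16 ^ l / R := by rw [hw, p64, p16]; field_simp
  have s1 : (16 : ℝ) ^ l / R * w = 4 ^ l / R ^ 2 := by rw [hw, p16]; field_simp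
  have s0 : (4 : ℝ) ^ l / R ^ 2 * w = 1 / R ^ 3 := by rw [hw]; field_simp
  have D2 : |φ 2 x1 - ψ 2 x1| ≤ 2 * (16 ^ l / R) := by
    refine d2.trans ?_
    calc 2 * 64 ^ l * (x4 - x1) ≤ 2 * 64 ^ l * w := mul_le_mul_of_nonneg_left h41 (by positivity)
      _ = 2 * (16 ^ l / R) := by rw [mul_assoc, s2]
  have D1 : |φ 1 x1 - ψ 1 x1| ≤ 2 * (4 ^ l / R ^ 2) := by
    refine d1.trans ?_
    calc 2 * 64 ^ l * (x4 - x1) ^ 2 ≤ 2 * 64 ^ l * w ^ 2 :=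
          mul_le_mul_of_nonneg_left (pow_le_pow_left₀ h41' h41 2) (by positivity)
      _ = 2 * ((64 ^ l * w) * w) := by ring
      _ = 2 * (4 ^ l / R ^ 2) := by rw [s2, s1]
  obtain ⟨j2, j1, j0⟩ := jet_close a b R hR φ h x1 z m1 hz τ t1 pz
  obtain ⟨j2', j1', j0'⟩ := jet_close a' b' R hR ψ h' x1 z' m1' hz' τ t1' pz'
  rw [← hl] at j2 j1 j2' j1'
  rw [← hv] at j1 j0 j1' j0'
  rw [← e1] at j0'
  obtain ⟨k0, k1, k2⟩ := Nea_arith (w := w) u1 u2 (by positivity) s1 s0 D2 D1 j2 j1 j0 j2' j1' j0'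
  unfold near key
  rw [← hl, ← hv]
  refine ⟨rfl, ?_, ?_, ?_⟩
  · exact Nea_scale (E := 1 / R ^ 3) (by field_simp) (by positivity) le_rfl k0
  · exact Nea_scale (E := 4 ^ l / R ^ 2) (by field_simp) (by positivity) (by norm_num) k1
  · exact Nea_scale (E := 16 ^ l / R) (by field_simp) (by positivity) (by norm_num) k2

end Pool.Agent.H39.HA
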