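import Pool.Agent.H39.HA.Defs
import Pool.Agent.H19.RD.Hole
import Pool.Agent.H39.HG.Imp
/-!
# Derivatives along a curve

Along a graph `y = φ x` with `φ' = - f_x / f_y` one has `d/dx G (x, φ x) = (D G) / f_y`, `D G = f_y G_x - f_x G_y` (chain rule: for a
polynomial `G` the function `x ↦ eval ![x, φ x] G` has the derivative `G_x + G_y φ'`; prove it by `MvPolynomial.induction_on`
(constants, sums, products with a variable), or see the proof of `hasDeriv_imp` and `hasDerivAt_fst` in `Pool/Agent/H39/HG/Imp.lean` and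
`Pool.Agent.H19.RD.hasDerivAt_line`). Hence (quotient rule) `d/dx (G / f_y ^ e) = (f_y * D G - e * G * D f_y) / f_y ^ (e + 2)`.
Degrees: `Pool.Agent.H19.RD.pderiv_deg`, `MvPolynomial.totalDegree_mul`, `totalDegree_sub`, `totalDegree_C`.
-/

set_option autoImplicit false

namespace Pool.Agent.H39.HA

open Finset MvPolynomial Pool.Agent.H22.PS
open scoped Classical

/-- the derivation along the curve -/
noncomputable def DD (f G : MvPolynomial (Fin 2) ℝ) : MvPolynomial (Fin 2) ℝ :=
  pderiv 1 f * pderiv 0 G - pderiv 0 f * pderiv 1 G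

/-- numerator of the derivative of `G / f_y ^ e` -/
noncomputable def nx (f : MvPolynomial (Fin 2) ℝ) (e : ℕ) (G : MvPolynomial (Fin 2) ℝ) :
    MvPolynomial (Fin 2) ℝ :=
  pderiv 1 f * DD f G - C (e : ℝ) * (G * DD f (pderiv 1 f))

private theorem nx_chain (G : MvPolynomial (Fin 2) ℝ) (φ : ℝ → ℝ) (φ' x : ℝ)
    (hφ : HasDerivAt φ φ' x) :
    HasDerivAt (fun t => eval ![t, φ t] G)
      (eval ![x, φ x] (pderiv 0 G) + eval ![x, φ x] (pderiv 1 G) * φ') x := by
  induction G using MvPolynomial.induction_on with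
  | C a =>
    simp only [eval_C, pderiv_C, map_zero, zero_mul, add_zero]
    exact hasDerivAt_const x a
  | add p q hp hq =>
    have h := hp.add hq
    simp only [map_add]
    refine (h.congr_deriv ?_)
    ring
  | mul_X p i hp =>
    have hX : HasDerivAt (fun t => (![t, φ t] : Fin 2 → ℝ) i)
        ((![1, φ'] : Fin 2 → ℝ) i) x := by
      fin_cases i
      · exact hasDerivAt_id x
      · exact hφ
    have h := hp.mul hX
    simp only [map_mul, eval_X]
    refine (h.congr_deriv ?_)
    rw [pderiv_mul, pderiv_mul]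
    fin_cases i
    · simp [pderiv_X]
      ring
    · simp [pderiv_X]
      ring

theorem nx_deg (k d e : ℕ) (f G : MvPolynomial (Fin 2) ℝ) (hf : f.totalDegree ≤ k)
    (hG : G.totalDegree ≤ d) : (nx f e G).totalDegree ≤ d + 3 * k := by
  have hp : ∀ (i : Fin 2) (H : MvPolynomial (Fin 2) ℝ), (pderiv i H).totalDegree ≤ H.totalDegree :=
    fun i H => (Pool.Agent.H19.RD.pderiv_deg H i).trans (Nat.sub_le _ _)
  have hDD : ∀ H : MvPolynomial (Fin 2) ℝ, (DD f H).totalDegree ≤ k + H.totalDegree := by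
    intro H
    unfold DD
    refine (totalDegree_sub _ _).trans (max_le ?_ ?_)
    · exact (totalDegree_mul _ _).trans (add_le_add ((hp 1 f).trans hf) (hp 0 H))
    · exact (totalDegree_mul _ _).trans (add_le_add ((hp 0 f).trans hf) (hp 1 H))
  unfold nx
  refine (totalDegree_sub _ _).trans (max_le ?_ ?_)
  · have h1 := totalDegree_mul (pderiv 1 f) (DD f G)
    have h2 := hDD G
    have h3 := (hp 1 f).trans hf
    omega
  · have h1 := totalDegree_mul (C (e : ℝ)) (G * DD f (pderiv 1 f))
    have h2 := totalDegree_mul G (DD f (pderiv 1 f))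
    have h3 := hDD (pderiv 1 f)
    have h4 := (hp 1 f).trans hf
    rw [totalDegree_C] at h1
    omega

theorem nx_deriv (f G : MvPolynomial (Fin 2) ℝ) (e : ℕ) (φ : ℝ → ℝ) (x : ℝ)
    (h1 : eval ![x, φ x] (pderiv 1 f) ≠ 0)
    (hφ : HasDerivAt φ (-(eval ![x, φ x] (pderiv 0 f)) / eval ![x, φ x] (pderiv 1 f)) x) :
    HasDerivAt (fun t => eval ![t, φ t] G / eval ![t, φ t] (pderiv 1 f) ^ e)
      (eval ![x, φ x] (nx f e G) / eval ![x, φ x] (pderiv 1 f) ^ (e + 2)) x := by
  have hG := nx_chain G φ _ x hφ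
  have hF := (nx_chain (pderiv 1 f) φ _ x hφ).pow e
  have h := hG.div hF (pow_ne_zero e h1)
  refine h.congr_deriv ?_
  unfold nx DD
  simp only [map_sub, map_mul, eval_C, Pi.pow_apply]
  generalize eval ![x, φ x] (pderiv 1 f) = A at h1 ⊢
  generalize eval ![x, φ x] (pderiv 0 f) = B
  generalize eval ![x, φ x] G = g
  generalize eval ![x, φ x] (pderiv 0 G) = g0
  generalize eval ![x, φ x] (pderiv 1 G) = g1
  generalize eval ![x, φ x] (pderiv 0 (pderiv 1 f)) = a0
  generalize eval ![x, φ x] (pderiv 1 (pderiv 1 f)) = a1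
  rcases Nat.eq_zero_or_pos e with he | he
  · subst he
    simp
    field_simp
    ring
  · obtain ⟨n, rfl⟩ : ∃ n, e = n + 1 := ⟨e - 1, by omega⟩
    simp only [Nat.add_sub_cancel, Nat.cast_add, Nat.cast_one]
    have hA : A ^ n ≠ 0 := pow_ne_zero n h1
    field_simp
    ring

end Pool.Agent.H39.HA
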