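import Mathlib

/-!
# Pruning

For `κ0` in the image of `key` let `Nk = univ.filter (nr (key ·) κ0)`, `X = A.filter (fun p => 2 * C < #(Nk.filter (p ∈ Q ·)))` where `A` is the union of the `Q ρ`, and `H κ0 = ∑ ρ ∈ Nk, #(Q ρ ∩ X)`. Double counting:
`H = ∑ p ∈ X, #(Nk.filter (p ∈ Q ·)) ≥ 2 C #X`. Split `Nk` into the rich ones (`κ' ≤ #(Q ρ ∩ X)`), which contribute `≤ C #X ≤ H / 2` by `hPS`, and the others, which
contribute `≤ κ' #Nk`. So `H κ0 ≤ 2 κ' #Nk`. Every heavy incidence `(ρ, p)` is counted in `H (key ρ)` (`nr` is reflexive): heavy `≤ ∑_{κ0 in the image} H κ0 ≤ 2 κ' ∑_{κ0} #Nk = 2 κ' ∑ ρ, #{κ0 in the image : nr (key ρ) κ0}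
≤ 2 κ' A3 #ρ`.
-/

set_option autoImplicit false

namespace Pool.Agent.H39.HA

open Finset
open scoped Classical

private theorem Prune_one {ρ α K : Type} [Fintype ρ] (Q : ρ → Finset α) (key : ρ → K) (nr : K → K → Prop)
    (C κ' : ℝ) (hC : 0 ≤ C) (hκ : 0 ≤ κ')
    (hPS : ∀ ρ0 : ρ, ∀ X : Finset α, (∀ p ∈ X, ∃ ρ', nr (key ρ') (key ρ0) ∧ p ∈ Q ρ') →
      ∀ Λ : Finset ρ, (∀ ρ' ∈ Λ, nr (key ρ') (key ρ0) ∧ κ' ≤ ((Q ρ' ∩ X).card : ℝ)) →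
        ∑ ρ' ∈ Λ, ((Q ρ' ∩ X).card : ℝ) ≤ C * X.card) (ρ0 : ρ) (X : Finset α)
    (hX : ∀ p ∈ X, 2 * C < ((univ.filter fun ρ' => nr (key ρ') (key ρ0) ∧ p ∈ Q ρ').card : ℝ)) :
    ∑ ρ' ∈ univ.filter (fun ρ' => nr (key ρ') (key ρ0)), ((Q ρ' ∩ X).card : ℝ) ≤
      2 * κ' * (univ.filter (fun ρ' => nr (key ρ') (key ρ0))).card := by
  set N := univ.filter (fun ρ' => nr (key ρ') (key ρ0)) with hN
  have hcount : ∑ ρ' ∈ N, ((Q ρ' ∩ X).card : ℝ) =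
      ∑ p ∈ X, ((univ.filter fun ρ' => nr (key ρ') (key ρ0) ∧ p ∈ Q ρ').card : ℝ) := by
    have e1 : ∀ ρ' ∈ N, ((Q ρ' ∩ X).card : ℝ) = ∑ p ∈ X, if p ∈ Q ρ' then (1 : ℝ) else 0 := by
      intro ρ' _
      have : Q ρ' ∩ X = X.filter (fun p => p ∈ Q ρ') := by
        ext p
        simp only [mem_inter, mem_filter]
        exact and_comm
      rw [this, Finset.card_filter]
      push_cast
      rfl
    have e2 : ∀ p ∈ X, ((univ.filter fun ρ' => nr (key ρ') (key ρ0) ∧ p ∈ Q ρ').card : ℝ) =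
        ∑ ρ' ∈ N, if p ∈ Q ρ' then (1 : ℝ) else 0 := by
      intro p _
      have : (univ.filter fun ρ' => nr (key ρ') (key ρ0) ∧ p ∈ Q ρ') = N.filter (fun ρ' => p ∈ Q ρ') := by
        ext ρ'
        simp only [hN, mem_filter, mem_univ, true_and]
      rw [this, Finset.card_filter]
      push_cast
      rfl
    rw [Finset.sum_congr rfl e1, Finset.sum_congr rfl e2, Finset.sum_comm]
  have h1 : 2 * C * X.card ≤ ∑ ρ' ∈ N, ((Q ρ' ∩ X).card : ℝ) := by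
    rw [hcount]
    have h := Finset.sum_le_sum (fun p hp => (hX p hp).le)
    rw [Finset.sum_const, nsmul_eq_mul] at h
    linarith
  have h2 : ∑ ρ' ∈ N.filter (fun ρ' => κ' ≤ ((Q ρ' ∩ X).card : ℝ)), ((Q ρ' ∩ X).card : ℝ) ≤ C * X.card := by
    refine hPS ρ0 X ?_ _ ?_
    · intro p hp
      have h := lt_of_le_of_lt (by linarith : (0 : ℝ) ≤ 2 * C) (hX p hp)
      have h' : 0 < (univ.filter fun ρ' => nr (key ρ') (key ρ0) ∧ p ∈ Q ρ').card := by exact_mod_cast h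
      obtain ⟨ρ', hρ⟩ := Finset.card_pos.1 h'
      exact ⟨ρ', (mem_filter.1 hρ).2⟩
    · intro ρ' hρ
      have h := mem_filter.1 hρ
      exact ⟨(mem_filter.1 h.1).2, h.2⟩
  have h3 : ∑ ρ' ∈ N.filter (fun ρ' => ¬ κ' ≤ ((Q ρ' ∩ X).card : ℝ)), ((Q ρ' ∩ X).card : ℝ) ≤
      κ' * N.card := by
    calc ∑ ρ' ∈ N.filter (fun ρ' => ¬ κ' ≤ ((Q ρ' ∩ X).card : ℝ)), ((Q ρ' ∩ X).card : ℝ)
        ≤ ∑ ρ' ∈ N.filter (fun ρ' => ¬ κ' ≤ ((Q ρ' ∩ X).card : ℝ)), κ' :=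
          Finset.sum_le_sum fun ρ' hρ => (not_le.1 (mem_filter.1 hρ).2).le
      _ = (N.filter (fun ρ' => ¬ κ' ≤ ((Q ρ' ∩ X).card : ℝ))).card * κ' := by
          rw [Finset.sum_const, nsmul_eq_mul]
      _ ≤ N.card * κ' := by
          refine mul_le_mul_of_nonneg_right ?_ hκ
          exact_mod_cast Finset.card_filter_le _ _
      _ = κ' * N.card := mul_comm _ _
  have h4 := Finset.sum_filter_add_sum_filter_not N (fun ρ' => κ' ≤ ((Q ρ' ∩ X).card : ℝ))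
    (fun ρ' => ((Q ρ' ∩ X).card : ℝ))
  linarith

theorem prune {ρ α K : Type} [Fintype ρ] (Q : ρ → Finset α) (key : ρ → K) (nr : K → K → Prop)
    (hrefl : ∀ κ, nr κ κ) (A3 : ℕ) (hfew : ∀ κ, ∀ F : Finset K, (F.filter fun κ' => nr κ κ').card ≤ A3)
    (C κ' : ℝ) (hC : 0 ≤ C) (hκ : 0 ≤ κ')
    (hPS : ∀ ρ0 : ρ, ∀ X : Finset α, (∀ p ∈ X, ∃ ρ', nr (key ρ') (key ρ0) ∧ p ∈ Q ρ') →
      ∀ Λ : Finset ρ, (∀ ρ' ∈ Λ, nr (key ρ') (key ρ0) ∧ κ' ≤ ((Q ρ' ∩ X).card : ℝ)) →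
        ∑ ρ' ∈ Λ, ((Q ρ' ∩ X).card : ℝ) ≤ C * X.card) :
    (∑ ρ0, (((Q ρ0).filter fun p => 2 * C < ((univ.filter fun ρ' =>
      nr (key ρ') (key ρ0) ∧ p ∈ Q ρ').card : ℝ)).card : ℝ)) ≤
      2 * κ' * A3 * Fintype.card ρ := by
  set A : Finset α := univ.biUnion Q with hA
  let X : K → Finset α := fun κ =>
    A.filter fun p => 2 * C < ((univ.filter fun ρ' => nr (key ρ') κ ∧ p ∈ Q ρ').card : ℝ)
  let N : K → Finset ρ := fun κ => univ.filter fun ρ' => nr (key ρ') κ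
  have hone : ∀ κ ∈ univ.image key, ∑ ρ' ∈ N κ, ((Q ρ' ∩ X κ).card : ℝ) ≤ 2 * κ' * (N κ).card := by
    intro κ hκ0
    obtain ⟨ρ0, -, rfl⟩ := Finset.mem_image.1 hκ0
    exact Prune_one Q key nr C κ' hC hκ hPS ρ0 (X (key ρ0)) fun p hp => (mem_filter.1 hp).2
  have hst : ∀ ρ0 : ρ, ((Q ρ0).filter fun p => 2 * C < ((univ.filter fun ρ' =>
      nr (key ρ') (key ρ0) ∧ p ∈ Q ρ').card : ℝ)) = Q ρ0 ∩ X (key ρ0) := by
    intro ρ0
    ext p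
    simp only [X, mem_filter, mem_inter, hA, mem_biUnion, mem_univ, true_and]
    exact ⟨fun h => ⟨h.1, ⟨ρ0, h.1⟩, h.2⟩, fun h => ⟨h.1, h.2.2⟩⟩
  calc (∑ ρ0, (((Q ρ0).filter fun p => 2 * C < ((univ.filter fun ρ' =>
      nr (key ρ') (key ρ0) ∧ p ∈ Q ρ').card : ℝ)).card : ℝ))
      = ∑ ρ0, ((Q ρ0 ∩ X (key ρ0)).card : ℝ) := Finset.sum_congr rfl fun ρ0 _ => by rw [hst ρ0]
    _ = ∑ κ ∈ univ.image key, ∑ ρ0 ∈ univ.filter (fun ρ0 => key ρ0 = κ), ((Q ρ0 ∩ X (key ρ0)).card : ℝ) :=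
        (Finset.sum_fiberwise_of_maps_to (fun ρ0 _ => Finset.mem_image_of_mem key (mem_univ ρ0)) _).symm
    _ ≤ ∑ κ ∈ univ.image key, ∑ ρ' ∈ N κ, ((Q ρ' ∩ X κ).card : ℝ) := by
        refine Finset.sum_le_sum fun κ _ => ?_
        have e : ∑ ρ0 ∈ univ.filter (fun ρ0 => key ρ0 = κ), ((Q ρ0 ∩ X (key ρ0)).card : ℝ) =
            ∑ ρ0 ∈ univ.filter (fun ρ0 => key ρ0 = κ), ((Q ρ0 ∩ X κ).card : ℝ) :=
          Finset.sum_congr rfl fun ρ0 h => by rw [(mem_filter.1 h).2]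
        rw [e]
        refine Finset.sum_le_sum_of_subset_of_nonneg ?_ fun _ _ _ => Nat.cast_nonneg _
        intro ρ0 h
        refine mem_filter.2 ⟨mem_univ _, ?_⟩
        rw [(mem_filter.1 h).2]
        exact hrefl κ
    _ ≤ ∑ κ ∈ univ.image key, 2 * κ' * ((N κ).card : ℝ) := Finset.sum_le_sum hone
    _ = 2 * κ' * ∑ κ ∈ univ.image key, ((N κ).card : ℝ) := by rw [Finset.mul_sum]
    _ = 2 * κ' * ∑ ρ' : ρ, (((univ.image key).filter fun κ => nr (key ρ') κ).card : ℝ) := by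
        congr 1
        have e1 : ∀ κ ∈ univ.image key, ((N κ).card : ℝ) = ∑ ρ' : ρ, if nr (key ρ') κ then (1 : ℝ) else 0 := by
          intro κ _
          simp only [N, Finset.card_filter]
          push_cast
          rfl
        have e2 : ∀ ρ' ∈ (univ : Finset ρ), (((univ.image key).filter fun κ => nr (key ρ') κ).card : ℝ) =
            ∑ κ ∈ univ.image key, if nr (key ρ') κ then (1 : ℝ) else 0 := by
          intro ρ' _
          rw [Finset.card_filter]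
          push_cast
          rfl
        rw [Finset.sum_congr rfl e1, Finset.sum_congr rfl e2, Finset.sum_comm]
    _ ≤ 2 * κ' * ∑ ρ' : ρ, (A3 : ℝ) := by
        refine mul_le_mul_of_nonneg_left (Finset.sum_le_sum fun ρ' _ => ?_) (by linarith)
        exact_mod_cast hfew (key ρ') (univ.image key)
    _ = 2 * κ' * A3 * Fintype.card ρ := by
        rw [Finset.sum_const, nsmul_eq_mul, Finset.card_univ]
        ring

end Pool.Agent.H39.HA
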